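import Mathlib

/-!
# Definitions for MP_d62ce9_gt

Hyperbolic `n`-space in the hyperboloid model, its isometries (the group `O⁺(n, 1)`), the sphere at
infinity, conical limit sets, round balls and groups of classical Schottky type.
-/

set_option autoImplicit false

open Filter Topology Set

namespace Pool.Agent.Work.MP_d62ce9_gt

/-- Minkowski space `ℝ^{1,n}`: pairs `(t, y)` with time coordinate `t ∈ ℝ` and space coordinate
`y ∈ ℝ^n`. -/
abbrev Mink (n : ℕ) : Type := ℝ × EuclideanSpace ℝ (Fin n)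

/-- The Lorentz form `⟨(t, y), (t', y')⟩ = y ⬝ y' - t t'`. -/
noncomputable def lor {n : ℕ} (u v : Mink n) : ℝ := inner ℝ u.2 v.2 - u.1 * v.1

/-- Hyperbolic space `ℍ^n` (hyperboloid model): the upper sheet of `⟨x, x⟩ = -1`. -/
def Hyp (n : ℕ) : Set (Mink n) := {x | lor x x = -1 ∧ 0 < x.1}

/-- The hyperbolic distance: `cosh d(x, y) = -⟨x, y⟩`. -/
noncomputable def hdist {n : ℕ} (x y : Mink n) : ℝ := Real.arcosh (-lor x y)

/-- The isometries of `ℍ^n`, realised as the elements of `O⁺(n, 1)`: the linear bijections of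
Minkowski space which preserve the Lorentz form and the upper sheet `ℍ^n`. -/
def IsIsometryH {n : ℕ} (A : Equiv.Perm (Mink n)) : Prop :=
  (∀ u v, A (u + v) = A u + A v) ∧ (∀ (c : ℝ) (u : Mink n), A (c • u) = c • A u) ∧
    (∀ u v, lor (A u) (A v) = lor u v) ∧ ∀ x, A x ∈ Hyp n ↔ x ∈ Hyp n

/-- Projective (Klein) coordinate `(t, y) ↦ y / t`. It identifies `ℍ^n` with the open unit ball of
`ℝ^n`, and the (positive) light rays with the unit sphere `S^{n-1} = ∂_∞ ℍ^n`; thus
`ℍ^n ∪ S^{n-1}` is the closed unit ball. -/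
noncomputable def klein {n : ℕ} (x : Mink n) : EuclideanSpace ℝ (Fin n) := x.1⁻¹ • x.2

/-- The action of an isometry on the sphere at infinity `S^{n-1}`. -/
noncomputable def bdryMap {n : ℕ} (A : Equiv.Perm (Mink n)) (ξ : EuclideanSpace ℝ (Fin n)) :
    EuclideanSpace ℝ (Fin n) := klein (A (1, ξ))

/-- Discreteness: every ball `{y | d(x, y) ≤ R}` contains only finitely many points of every orbit,
counted by group elements (proper discontinuity of the action on `ℍ^n`). -/
def IsDiscreteGrp {n : ℕ} (G : Subgroup (Equiv.Perm (Mink n))) : Prop :=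
  ∀ x ∈ Hyp n, ∀ R : ℝ, {A | A ∈ G ∧ hdist x (A x) ≤ R}.Finite

/-- Unit speed geodesics of `ℍ^n` (restricted to `t ≥ 0`: geodesic rays). -/
def IsGeodesic {n : ℕ} (r : ℝ → Mink n) : Prop :=
  ∃ y ∈ Hyp n, ∃ v : Mink n, lor y v = 0 ∧ lor v v = 1 ∧
    ∀ t, r t = Real.cosh t • y + Real.sinh t • v

/-- The conical limit set of `G`: all `ξ ∈ S^{n-1}` such that, for some `x ∈ ℍ^n` and some geodesic
ray `r` ending at `ξ`, there is a sequence of orbit points `A k x`, `A k ∈ G`, lying within bounded
distance of the ray `r` and converging to `ξ`. -/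
def conicalSet {n : ℕ} (G : Subgroup (Equiv.Perm (Mink n))) : Set (EuclideanSpace ℝ (Fin n)) :=
  {ξ | ‖ξ‖ = 1 ∧ ∃ x ∈ Hyp n, ∃ r : ℝ → Mink n, IsGeodesic r ∧
    Tendsto (fun t => klein (r t)) atTop (𝓝 ξ) ∧
    ∃ (C : ℝ) (A : ℕ → Equiv.Perm (Mink n)), (∀ k, A k ∈ G) ∧
      (∀ k, ∃ t, 0 ≤ t ∧ hdist (A k x) (r t) ≤ C) ∧
      Tendsto (fun k => klein (A k x)) atTop (𝓝 ξ)}

/-- A closed round ball of `S^{n-1}`, `{ξ | level ≤ ξ ⬝ center}`: the closed metric ball about
`center` of angular radius `arccos level ∈ (0, π)`. -/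
structure RoundBall (n : ℕ) where
  /-- the center -/
  center : EuclideanSpace ℝ (Fin n)
  /-- the cosine of the angular radius -/
  level : ℝ
  norm_center : ‖center‖ = 1
  level_gt : -1 < level
  level_lt : level < 1

namespace RoundBall

variable {n : ℕ}

/-- interior of the ball -/
def interior (B : RoundBall n) : Set (EuclideanSpace ℝ (Fin n)) :=
  {ξ | ‖ξ‖ = 1 ∧ B.level < inner ℝ ξ B.center}

/-- boundary sphere of the ball -/
def sphere (B : RoundBall n) : Set (EuclideanSpace ℝ (Fin n)) :=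
  {ξ | ‖ξ‖ = 1 ∧ inner ℝ ξ B.center = B.level}

/-- exterior of the ball -/
def exterior (B : RoundBall n) : Set (EuclideanSpace ℝ (Fin n)) :=
  {ξ | ‖ξ‖ = 1 ∧ inner ℝ ξ B.center < B.level}

/-- the closed half-space of `ℍ^n` on the side of the ball `B`, bounded by the totally geodesic
hyperplane spanned by the boundary sphere of `B` (in Klein coordinates, totally geodesic hyperplanes
are the intersections of affine hyperplanes with the unit ball). -/
def halfSpace (B : RoundBall n) : Set (Mink n) :=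
  {x | x ∈ Hyp n ∧ B.level ≤ inner ℝ (klein x) B.center}

end RoundBall

/-- `D ⊆ ℍ^n` is a fundamental domain for `G`: its translates by distinct elements are disjoint, and
the translates of its closure cover `ℍ^n`. -/
def IsFundDomain {n : ℕ} (G : Subgroup (Equiv.Perm (Mink n))) (D : Set (Mink n)) : Prop :=
  (∀ A ∈ G, A ≠ 1 → Disjoint (A '' D) D) ∧ ∀ x ∈ Hyp n, ∃ A ∈ G, A x ∈ closure D

/-- Groups of classical Schottky type. The balls `B (i, false)`, `B (i, true)` are the balls
`B_i`, `B_{k+i}` of the problem. Concerning the fundamental domain we only ask that the part in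
`ℍ^n` of the region outside the half-spaces is a fundamental domain for the action on `ℍ^n`. -/
def IsClassicalSchottky {n : ℕ} (G : Subgroup (Equiv.Perm (Mink n))) : Prop :=
  ∃ (k : ℕ) (B : Fin k × Bool → RoundBall n) (g : Fin k → Equiv.Perm (Mink n)),
    (∀ i, g i ∈ G) ∧
    (∀ a b, a ≠ b → Disjoint (B a).interior (B b).interior) ∧
    (∀ i, bdryMap (g i) '' (B (i, false)).sphere = (B (i, true)).sphere) ∧
    (∀ i, bdryMap (g i) '' (B (i, false)).exterior = (B (i, true)).interior) ∧
    IsFundDomain G {x | x ∈ Hyp n ∧ ∀ a, x ∉ (B a).halfSpace}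

end Pool.Agent.Work.MP_d62ce9_gt
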