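import Pool.Agent.Work.MP_d62ce9_gt.Pairing

/-!
# Covering bounds for the Hausdorff dimension of conical limit sets
-/

set_option autoImplicit false
set_option linter.unusedSectionVars false

open Filter Topology Set MeasureTheory Metric
open scoped ENNReal

namespace Pool.Agent.Work.MP_d62ce9_gt

/-- A covering bound for the Hausdorff dimension. -/
theorem dimH_le_of_cover {X W : Type*} [MetricSpace X] [Countable W] (p : W → X) (T : W → ℝ)
    (hT : ∀ w, 0 < T w) {s : ℝ} (hs : 0 < s)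
    (hsum : ∑' w, ENNReal.ofReal (T w ^ (-s)) ≠ ∞) (E : Set X) (N : ℝ) (hN : 0 ≤ N)
    (hE : ∀ ξ ∈ E, {w | dist ξ (p w) ≤ N / T w}.Infinite) : dimH E ≤ ENNReal.ofReal s := by
  borelize X
  have hδ : ∀ w, (2 * ENNReal.ofReal (N / T w)) ^ s =
      ENNReal.ofReal ((2 * N) ^ s) * ENNReal.ofReal ((T w) ^ (-s)) := by
    intro w
    have h1 : (2 : ℝ≥0∞) * ENNReal.ofReal (N / T w) = ENNReal.ofReal (2 * N * (T w)⁻¹) := by
      rw [show (2 : ℝ≥0∞) = ENNReal.ofReal 2 by simp, ← ENNReal.ofReal_mul (by norm_num)]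
      congr 1
      rw [div_eq_mul_inv]; ring
    have hTi : 0 ≤ (T w)⁻¹ := inv_nonneg.2 (hT w).le
    rw [h1, ENNReal.ofReal_rpow_of_nonneg (by positivity) hs.le,
      Real.mul_rpow (by positivity) hTi, ENNReal.ofReal_mul (by positivity),
      Real.inv_rpow (hT w).le, Real.rpow_neg (hT w).le]
  have hK : ∑' w, (2 * ENNReal.ofReal (N / T w)) ^ s ≠ ∞ := by
    simp_rw [hδ]
    rw [ENNReal.tsum_mul_left]
    exact ENNReal.mul_ne_top ENNReal.ofReal_ne_top hsum
  set tail : Finset W → ℝ≥0∞ := fun F => ∑' w : {w // w ∉ F}, (2 * ENNReal.ofReal (N / T w)) ^ s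
    with htail
  have htail0 : Tendsto tail atTop (𝓝 0) := ENNReal.tendsto_tsum_compl_atTop_zero hK
  have hd : ∀ w, ediam (closedEBall (p w) (ENNReal.ofReal (N / T w))) ≤
      2 * ENNReal.ofReal (N / T w) := fun w => ediam_closedEBall_le
  have h := Measure.hausdorffMeasure_le_liminf_tsum (ι := fun F : Finset W => {w // w ∉ F}) s E
    (l := atTop) (fun F => tail F ^ s⁻¹) (by
      have h1 := (ENNReal.continuous_rpow_const (y := s⁻¹)).tendsto (0 : ℝ≥0∞)
      rw [ENNReal.zero_rpow_of_pos (inv_pos.2 hs)] at h1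
      exact h1.comp htail0)
    (fun F w => closedEBall (p w.1) (ENNReal.ofReal (N / T w.1)))
    (by
      refine Eventually.of_forall fun F w => ?_
      refine (hd w.1).trans ?_
      rw [ENNReal.le_rpow_inv_iff hs]
      exact ENNReal.le_tsum w)
    (by
      refine Eventually.of_forall fun F ξ hξ => ?_
      obtain ⟨w, hw1, hw2⟩ := (hE ξ hξ).exists_notMem_finset F
      rw [mem_iUnion]
      refine ⟨⟨w, hw2⟩, ?_⟩
      rw [mem_closedEBall, edist_dist]
      exact ENNReal.ofReal_le_ofReal hw1)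
  have h2 : μH[s] E ≤ ∑' w, (2 * ENNReal.ofReal (N / T w)) ^ s := by
    refine h.trans ?_
    refine liminf_le_of_le (by isBoundedDefault) ?_
    intro b hb
    obtain ⟨F, hF⟩ := hb.exists
    refine hF.trans ?_
    calc ∑' w : {w // w ∉ F}, ediam (closedEBall (p w.1) (ENNReal.ofReal (N / T w.1))) ^ s
        ≤ ∑' w : {w // w ∉ F}, (2 * ENNReal.ofReal (N / T w.1)) ^ s := by
          apply ENNReal.tsum_le_tsum
          intro w
          exact ENNReal.rpow_le_rpow (hd w.1) hs.le
      _ ≤ _ := ENNReal.tsum_comp_le_tsum_of_injective Subtype.val_injective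
          (fun w => (2 * ENNReal.ofReal (N / T w)) ^ s)
  have h3 : μH[((s.toNNReal : NNReal) : ℝ)] E ≠ ∞ := by
    rw [Real.coe_toNNReal _ hs.le]
    exact (h2.trans_lt (lt_top_iff_ne_top.2 hK)).ne
  exact dimH_le_of_hausdorffMeasure_ne_top h3

variable {n : ℕ}

/-- distance of the Klein coordinate to a boundary point -/
lemma klein_dist_sq {z : Mink n} (hz : z ∈ Hyp n) {ξ : EuclideanSpace ℝ (Fin n)} (hξ : ‖ξ‖ = 1) :
    ‖klein z - ξ‖ ^ 2 ≤ 2 * (-lor z (1, ξ)) / z.1 := by
  have h0 := hz.2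
  have h1 := Hyp.norm_sq hz
  have h2 : ‖klein z‖ ^ 2 ≤ 1 := by
    unfold klein
    rw [norm_smul, mul_pow, h1, Real.norm_eq_abs, sq_abs, inv_pow]
    rw [inv_mul_le_iff₀ (by positivity)]
    linarith
  rw [norm_sub_sq_real, hξ]
  have h3 : inner ℝ (klein z) ξ = z.1⁻¹ * inner ℝ z.2 ξ := by
    unfold klein; rw [real_inner_smul_left]
  rw [h3]
  have h4 : 2 * (-lor z (1, ξ)) / z.1 = 2 - 2 * (z.1⁻¹ * inner ℝ z.2 ξ) := by
    unfold lor
    field_simp
    ring
  rw [h4]
  linarith

lemma tendsto_tanh_one : Tendsto Real.tanh atTop (𝓝 1) := by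
  have e : ∀ t, Real.tanh t = (1 - Real.exp (-(2 * t))) / (1 + Real.exp (-(2 * t))) := by
    intro t
    have h1 : Real.exp (-(2 * t)) = Real.exp (-t) * Real.exp (-t) := by
      rw [← Real.exp_add]; ring_nf
    have h2 : Real.exp t * Real.exp (-t) = 1 := by rw [← Real.exp_add]; simp
    have h3 := Real.exp_pos t
    have h4 := Real.exp_pos (-t)
    rw [Real.tanh_eq_sinh_div_cosh, Real.sinh_eq, Real.cosh_eq, h1,
      div_eq_div_iff (by positivity) (by positivity)]
    linear_combination (Real.exp (-t)) * h2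
  have h1 : Tendsto (fun t : ℝ => Real.exp (-(2 * t))) atTop (𝓝 0) :=
    Real.tendsto_exp_neg_atTop_nhds_zero.comp (tendsto_id.const_mul_atTop (by norm_num))
  have h2 : Tendsto (fun t : ℝ => (1 - Real.exp (-(2 * t))) / (1 + Real.exp (-(2 * t)))) atTop
      (𝓝 ((1 - 0) / (1 + 0))) :=
    (tendsto_const_nhds.sub h1).div (tendsto_const_nhds.add h1) (by norm_num)
  norm_num at h2
  exact h2.congr fun t => (e t).symm

lemma lor_base' (x : Mink n) : lor (base n) x = - x.1 := by rw [lor_comm, lor_base]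

/-- comparison of first coordinates -/
lemma fst_le_of {x z : Mink n} (hx : x ∈ Hyp n) (hz : z ∈ Hyp n) :
    z.1 ≤ 2 * (|lor x z| * x.1) := by
  have h := Hyp.lor_abs_le (z := z) (w := base n) hx (by rw [hz.1]; norm_num)
    (by rw [(base_mem (n := n)).1]; norm_num)
  rw [lor_base, lor_base, abs_neg, abs_neg, abs_of_pos hz.2, abs_of_pos hx.2] at h
  exact h

/-- comparison of the horospherical coordinates -/
lemma horo_le_of {x z l : Mink n} (hx : x ∈ Hyp n) (hz : z ∈ Hyp n) (hl : l ∈ Light n) :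
    -lor z l ≤ 2 * (|lor x z| * (-lor x l)) := by
  have h := Hyp.lor_abs_le (z := z) (w := l) hx (by rw [hz.1]; norm_num) (by rw [hl.1])
  have h1 := Hyp.lor_neg hx hl.1.le hl.2
  have h2 := Hyp.lor_neg hz hl.1.le hl.2
  rw [abs_of_neg h1, abs_of_neg h2] at h
  exact h

lemma horo_nonneg {z l : Mink n} (hz : z ∈ Hyp n) (hl : l ∈ Light n) : 0 ≤ -lor z l := by
  have h2 := Hyp.lor_neg hz hl.1.le hl.2
  linarith

/-- the product `β(z) z.1` changes by a bounded factor when moving a bounded distance. -/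
lemma prod_transfer {x z l : Mink n} (hx : x ∈ Hyp n) (hz : z ∈ Hyp n) (hl : l ∈ Light n)
    {D K : ℝ} (hD : |lor x z| ≤ D) (hK : -lor x l * x.1 ≤ K) :
    -lor z l * z.1 ≤ 4 * D ^ 2 * K := by
  have h1 := fst_le_of hx hz
  have h2 := horo_le_of hx hz hl
  have h3 := horo_nonneg hx hl
  have h4 := horo_nonneg hz hl
  have h5 := abs_nonneg (lor x z)
  have h6 := hz.2
  have h7 := hx.2
  have hD0 : 0 ≤ D := h5.trans hD
  calc -lor z l * z.1 ≤ (2 * (|lor x z| * (-lor x l))) * (2 * (|lor x z| * x.1)) :=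
        mul_le_mul h2 h1 h6.le (by positivity)
    _ = 4 * |lor x z| ^ 2 * (-lor x l * x.1) := by ring
    _ ≤ 4 * D ^ 2 * K := by
        apply mul_le_mul _ hK (by positivity) (by positivity)
        have := pow_le_pow_left₀ h5 hD 2
        linarith

/-- Along a geodesic ray ending at `ξ`, the product `β(z) z.1` is bounded. -/
lemma ray_bound {r : ℝ → Mink n} (hr : IsGeodesic r) {ξ : EuclideanSpace ℝ (Fin n)}
    (hlim : Tendsto (fun t => klein (r t)) atTop (𝓝 ξ)) :
    ∃ K : ℝ, ∀ t, 0 ≤ t → r t ∈ Hyp n ∧ -lor (r t) (1, ξ) * (r t).1 ≤ K := by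
  obtain ⟨y, hy, v, hyv, hvv, hrt⟩ := hr
  have hl : y + v ∈ Light n := light_add hy (by rw [lor_comm]; exact hyv) hvv
  have hc := hl.2
  -- the limit
  have hlim2 : Tendsto (fun t => klein (r t)) atTop (𝓝 (klein (y + v))) := by
    have h1 : ∀ t, klein (r t) = klein (y + Real.tanh t • v) := by
      intro t
      have hct := Real.cosh_pos t
      have : r t = Real.cosh t • (y + Real.tanh t • v) := by
        rw [hrt, smul_add, smul_smul, Real.tanh_eq_sinh_div_cosh]
        congr 2
        field_simp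
      rw [this, klein_smul hct.ne']
    simp_rw [h1]
    have h2 : Tendsto Real.tanh atTop (𝓝 1) := tendsto_tanh_one
    have h3 : Tendsto (fun t => y + Real.tanh t • v) atTop (𝓝 (y + (1 : ℝ) • v)) :=
      tendsto_const_nhds.add (h2.smul_const v)
    rw [one_smul] at h3
    have h4 : ContinuousAt (fun x : Mink n => klein x) (y + v) := by
      unfold klein
      exact (continuousAt_fst.inv₀ hc.ne').smul continuousAt_snd
    exact h4.tendsto.comp h3
  have hξ : klein (y + v) = ξ := tendsto_nhds_unique hlim2 hlim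
  have hb : ((1 : ℝ), ξ) = (y + v).1⁻¹ • (y + v) := by
    rw [← hξ]; exact Light.mk_klein hl
  refine ⟨(|y.1| + |v.1|) / (y + v).1, fun t ht => ?_⟩
  have hmem : r t ∈ Hyp n := by
    have e1 : lor (r t) (r t) = -1 := by
      rw [hrt, lor_add_left, lor_add_right, lor_add_right]
      simp only [lor_smul_left, lor_smul_right]
      rw [hy.1, hvv, lor_comm v y, hyv]
      have := Real.cosh_sq t
      nlinarith
    refine ⟨e1, ?_⟩
    have e2 : lor y (r t) < 0 := by
      rw [hrt, lor_add_right]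
      simp only [lor_smul_right]
      rw [hy.1, hyv]
      have := Real.cosh_pos t
      linarith
    exact Hyp.fst_pos hy (by rw [e1]; norm_num) e2
  refine ⟨hmem, ?_⟩
  have e3 : -lor (r t) (1, ξ) = Real.exp (-t) / (y + v).1 := by
    rw [hb, lor_smul_right, hrt, lor_add_left, lor_add_right, lor_add_right]
    simp only [lor_smul_left]
    rw [hy.1, hvv, lor_comm v y, hyv, ← Real.cosh_sub_sinh]
    field_simp
    ring
  have e4 : (r t).1 ≤ Real.cosh t * (|y.1| + |v.1|) := by
    rw [hrt]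
    show Real.cosh t * y.1 + Real.sinh t * v.1 ≤ _
    have h1 : Real.sinh t ≤ Real.cosh t := by
      have := Real.cosh_sub_sinh t
      have := Real.exp_pos (-t)
      linarith
    have h2 : 0 ≤ Real.sinh t := Real.sinh_nonneg_iff.2 ht
    have h3 : Real.cosh t * y.1 ≤ Real.cosh t * |y.1| :=
      mul_le_mul_of_nonneg_left (le_abs_self _) (Real.cosh_pos t).le
    have h4 : Real.sinh t * v.1 ≤ Real.cosh t * |v.1| :=
      (mul_le_mul_of_nonneg_left (le_abs_self _) h2).trans
        (mul_le_mul_of_nonneg_right h1 (abs_nonneg _))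
    linarith
  have e5 : Real.exp (-t) * Real.cosh t ≤ 1 := by
    rw [Real.cosh_eq, mul_div_assoc', mul_add, ← Real.exp_add, ← Real.exp_add]
    have h1 : Real.exp (-t + -t) ≤ 1 := Real.exp_le_one_iff.2 (by linarith)
    have h2 : Real.exp (-t + t) = 1 := by simp
    rw [h2]
    linarith
  rw [e3]
  calc Real.exp (-t) / (y + v).1 * (r t).1
      ≤ Real.exp (-t) / (y + v).1 * (Real.cosh t * (|y.1| + |v.1|)) :=
        mul_le_mul_of_nonneg_left e4 (by positivity)
    _ = (Real.exp (-t) * Real.cosh t) * ((|y.1| + |v.1|) / (y + v).1) := by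
        field_simp
    _ ≤ 1 * ((|y.1| + |v.1|) / (y + v).1) :=
        mul_le_mul_of_nonneg_right e5 (by positivity)
    _ = _ := one_mul _

/-- `-⟨x, y⟩ ≤ cosh R` if `d(x, y) ≤ R`. -/
lemma abs_lor_le_cosh {x y : Mink n} (hx : x ∈ Hyp n) (hy : y ∈ Hyp n) {R : ℝ}
    (h : hdist x y ≤ R) : |lor x y| ≤ Real.cosh R := by
  have h1 := Hyp.lor_le hx hy
  rw [abs_of_neg (by linarith)]
  have h2 : 0 ≤ Real.arcosh (-lor x y) := Real.arcosh_nonneg (by linarith)
  rw [← Real.cosh_arcosh (x := -lor x y) (by linarith), Real.cosh_le_cosh, abs_of_nonneg h2]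
  exact h.trans (le_abs_self R)

/-- Conical limit points are approximated well by orbit points of the base point. -/
theorem conical_shadow {G : Subgroup (Mink n ≃ₗ[ℝ] Mink n)} (hG : G ≤ IsomH n)
    {ξ : EuclideanSpace ℝ (Fin n)} (hξ : ξ ∈ conicalLimitSet G) :
    ∃ (K : ℝ) (A : ℕ → Mink n ≃ₗ[ℝ] Mink n), 0 ≤ K ∧ (∀ k, A k ∈ G) ∧
      (∀ k, dist ξ (klein (A k (base n))) ≤ K / (A k (base n)).1) ∧
      Tendsto (fun k => (A k (base n)).1) atTop atTop := by
  obtain ⟨hξ1, x, hx, r, hr, hlim, C, A, hAG, hAr, hA⟩ := hξ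
  obtain ⟨K, hK⟩ := ray_bound hr hlim
  have hl := light_one hξ1
  have hAH : ∀ k, A k x ∈ Hyp n := fun k => IsomH.hyp (hG (hAG k)) hx
  have hBH : ∀ k, A k (base n) ∈ Hyp n := fun k => IsomH.hyp (hG (hAG k)) base_mem
  have h1 : ∀ k, -lor (A k x) (1, ξ) * (A k x).1 ≤ 4 * (Real.cosh C) ^ 2 * K := by
    intro k
    obtain ⟨t, ht, hd⟩ := hAr k
    obtain ⟨hm, hb⟩ := hK t ht
    have h2 := abs_lor_le_cosh (hAH k) hm hd
    rw [lor_comm] at h2
    exact prod_transfer hm (hAH k) hl h2 hb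
  have hxb : ∀ k, |lor (A k x) (A k (base n))| = x.1 := by
    intro k
    rw [IsomH.lor (hG (hAG k)), lor_base, abs_neg, abs_of_pos hx.2]
  have h3 : ∀ k, -lor (A k (base n)) (1, ξ) * (A k (base n)).1 ≤
      4 * x.1 ^ 2 * (4 * (Real.cosh C) ^ 2 * K) := by
    intro k
    exact prod_transfer (hAH k) (hBH k) hl (hxb k).le (h1 k)
  set M := 4 * x.1 ^ 2 * (4 * (Real.cosh C) ^ 2 * K) with hM
  have hM0 : 0 ≤ M := by
    have := h3 0
    have h4 := horo_nonneg (hBH 0) hl
    have h5 := (hBH 0).2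
    have : 0 ≤ -lor (A 0 (base n)) (1, ξ) * (A 0 (base n)).1 := by positivity
    linarith
  refine ⟨Real.sqrt (2 * M), A, Real.sqrt_nonneg _, hAG, fun k => ?_, ?_⟩
  · have h4 := klein_dist_sq (hBH k) hξ1
    have h5 := (hBH k).2
    rw [dist_comm, dist_eq_norm]
    apply le_of_sq_le_sq _ (by positivity)
    rw [div_pow, Real.sq_sqrt (by positivity)]
    refine h4.trans ?_
    rw [div_le_div_iff₀ h5 (by positivity)]
    have := h3 k
    nlinarith
  · -- first coordinates tend to infinity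
    have h4 : Tendsto (fun k => ‖klein (A k x)‖) atTop (𝓝 1) := by
      have := hA.norm
      rwa [hξ1] at this
    have h5 : Tendsto (fun k => (A k x).1) atTop atTop := by
      have e : ∀ k, (A k x).1 = (Real.sqrt (1 - ‖klein (A k x)‖ ^ 2))⁻¹ := by
        intro k
        have h0 := (hAH k).2
        have h6 : 1 - ‖klein (A k x)‖ ^ 2 = ((A k x).1⁻¹) ^ 2 := by
          unfold klein
          rw [norm_smul, mul_pow, Hyp.norm_sq (hAH k), Real.norm_eq_abs, sq_abs]
          field_simp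
          ring
        rw [h6, Real.sqrt_sq (inv_nonneg.2 h0.le), inv_inv]
      have h7 : Tendsto (fun k => Real.sqrt (1 - ‖klein (A k x)‖ ^ 2)) atTop (𝓝[>] 0) := by
        rw [tendsto_nhdsWithin_iff]
        constructor
        · have h8 : Tendsto (fun k => Real.sqrt (1 - ‖klein (A k x)‖ ^ 2)) atTop
              (𝓝 (Real.sqrt (1 - 1 ^ 2))) :=
            (Real.continuous_sqrt.tendsto _).comp (tendsto_const_nhds.sub (h4.pow 2))
          simpa using h8
        · refine Eventually.of_forall fun k => ?_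
          have h0 := (hAH k).2
          have := e k
          by_contra hcon
          have h9 : Real.sqrt (1 - ‖klein (A k x)‖ ^ 2) = 0 :=
            le_antisymm (not_lt.1 hcon) (Real.sqrt_nonneg _)
          rw [h9, inv_zero] at this
          linarith
      have h10 := tendsto_inv_nhdsGT_zero.comp h7
      refine h10.congr fun k => ?_
      exact (e k).symm
    have h6 : ∀ k, (A k x).1 ≤ 2 * x.1 * (A k (base n)).1 := by
      intro k
      have h7 := fst_le_of (hBH k) (hAH k)
      rw [lor_comm, hxb k] at h7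
      linarith
    have h8 : Tendsto (fun k => (2 * x.1)⁻¹ * (A k x).1) atTop atTop :=
      h5.const_mul_atTop (inv_pos.2 (by linarith [hx.2]))
    refine tendsto_atTop_mono (fun k => ?_) h8
    have := hx.2
    rw [inv_mul_le_iff₀ (by linarith)]
    exact h6 k

end Pool.Agent.Work.MP_d62ce9_gt
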