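import Pool.Agent.Work.MP_d62ce9_gt.Sum
import Pool.Agent.Work.MP_d62ce9_gt.Hausdorff

/-!
# Discreteness and the dimension of the conical limit set
-/

set_option autoImplicit false
set_option linter.unusedSectionVars false

open Filter Topology Set MeasureTheory Metric
open scoped ENNReal

namespace Pool.Agent.Work.MP_d62ce9_gt

variable {n : ℕ}

namespace Frame

variable (Φ : Frame n)

lemma finite_words (M : ℝ) : {w : ℤ × List NZ | (Φ.Wd w (base n)).1 ≤ M}.Finite := by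
  obtain ⟨s, hs0, -, hs⟩ := Φ.series
  by_cases hM : 0 < M
  · have h1 : ENNReal.ofReal (M ^ (-s)) ≠ 0 := by
      rw [_root_.Ne, ENNReal.ofReal_eq_zero, not_le]
      exact Real.rpow_pos_of_pos hM _
    refine (ENNReal.finite_const_le_of_tsum_ne_top hs h1).subset ?_
    intro w hw
    apply ENNReal.ofReal_le_ofReal
    exact Real.rpow_le_rpow_of_nonpos (Φ.Wd_fst_pos w) hw (by linarith)
  · have : {w : ℤ × List NZ | (Φ.Wd w (base n)).1 ≤ M} = ∅ := by
      apply eq_empty_of_forall_notMem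
      intro w hw
      have h1 := Φ.Wd_fst_pos w
      have h2 : (Φ.Wd w (base n)).1 ≤ M := hw
      linarith
    rw [this]
    exact finite_empty

theorem discrete : IsDiscreteGroup Φ.G := by
  intro x hx R
  have h0 := Φ.finite_words (2 * (x.1 * (2 * (Real.cosh R * x.1))))
  have h1 : ((Φ.Wd '' {w : ℤ × List NZ | (Φ.Wd w (base n)).1 ≤
      2 * (x.1 * (2 * (Real.cosh R * x.1)))}) ∪ ((fun w => Φ.Wd w * Φ.J) ''
      {w : ℤ × List NZ | (Φ.Wd w (base n)).1 ≤ 2 * (x.1 * (2 * (Real.cosh R * x.1)))})).Finite :=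
    (h0.image _).union (h0.image _)
  refine h1.subset ?_
  rintro A ⟨hA, hd⟩
  have hAx := IsomH.hyp (Φ.G_le hA) hx
  have hAb := IsomH.hyp (Φ.G_le hA) (base_mem (n := n))
  have h2 := abs_lor_le_cosh hx hAx hd
  have h3 := fst_le_of hx hAx
  have h4 := fst_le_of hAx hAb
  rw [IsomH.lor (Φ.G_le hA), lor_base, abs_neg, abs_of_pos hx.2] at h4
  have hx0 := hx.2
  have h5 : (A x).1 ≤ 2 * (Real.cosh R * x.1) := by
    refine h3.trans ?_
    have := mul_le_mul_of_nonneg_right h2 hx0.le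
    linarith
  have h6 : (A (base n)).1 ≤ 2 * (x.1 * (2 * (Real.cosh R * x.1))) := by
    refine h4.trans ?_
    have := mul_le_mul_of_nonneg_left h5 hx0.le
    linarith
  obtain ⟨w, h7, h8⟩ := Φ.exists_word_base hA
  rw [h8] at h6
  rcases h7 with h7 | h7
  · exact Or.inl ⟨w, h6, h7.symm⟩
  · exact Or.inr ⟨w, h6, h7.symm⟩

theorem dimH_lt : dimH (conicalLimitSet Φ.G) < 1 := by
  obtain ⟨s, hs0, hs1, hs⟩ := Φ.series
  let L : ℕ → Set (EuclideanSpace ℝ (Fin n)) := fun N =>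
    {ξ | {w : ℤ × List NZ | dist ξ (klein (Φ.Wd w (base n))) ≤ N / (Φ.Wd w (base n)).1}.Infinite}
  have h1 : conicalLimitSet Φ.G ⊆ ⋃ N, L N := by
    intro ξ hξ
    obtain ⟨K, A, hK, hA, hd, ht⟩ := conical_shadow Φ.G_le hξ
    rw [mem_iUnion]
    refine ⟨⌈K⌉₊, ?_⟩
    choose w hw1 hw2 using fun k => Φ.exists_word_base (hA k)
    intro hfin
    have h2 : ∃ M : ℝ, ∀ w ∈ {w : ℤ × List NZ | dist ξ (klein (Φ.Wd w (base n))) ≤
        (⌈K⌉₊ : ℝ) / (Φ.Wd w (base n)).1}, (Φ.Wd w (base n)).1 ≤ M := by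
      obtain ⟨M, hM⟩ := (hfin.image fun w => (Φ.Wd w (base n)).1).bddAbove
      exact ⟨M, fun w hw => hM ⟨w, hw, rfl⟩⟩
    obtain ⟨M, hM⟩ := h2
    obtain ⟨k, hk⟩ := (ht.eventually_gt_atTop M).exists
    have h3 := hM (w k) (by
      show dist ξ (klein (Φ.Wd (w k) (base n))) ≤ (⌈K⌉₊ : ℝ) / (Φ.Wd (w k) (base n)).1
      rw [← hw2 k]
      have hp : 0 < (A k (base n)).1 := (IsomH.hyp (Φ.G_le (hA k)) base_mem).2
      refine (hd k).trans ?_
      rw [div_le_div_iff_of_pos_right hp]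
      exact Nat.le_ceil K)
    rw [← hw2 k] at h3
    linarith
  have h2 : ∀ N, dimH (L N) ≤ ENNReal.ofReal s := by
    intro N
    exact dimH_le_of_cover (fun w => klein (Φ.Wd w (base n))) (fun w => (Φ.Wd w (base n)).1)
      Φ.Wd_fst_pos hs0 hs (L N) N (Nat.cast_nonneg N) (fun ξ hξ => hξ)
  have h3 : dimH (conicalLimitSet Φ.G) ≤ ENNReal.ofReal s := by
    refine (dimH_mono h1).trans ?_
    rw [dimH_iUnion]
    exact iSup_le h2
  refine h3.trans_lt ?_
  rw [← ENNReal.ofReal_one]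
  exact (ENNReal.ofReal_lt_ofReal_iff one_pos).2 hs1

end Frame

end Pool.Agent.Work.MP_d62ce9_gt
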