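import Pool.Agent.Work.MP_d62ce9_gt.Group

/-!
# Estimates for the words in `g` and `J`
-/

set_option autoImplicit false
set_option linter.unusedSectionVars false

open Filter Topology Set

namespace Pool.Agent.Work.MP_d62ce9_gt

variable {n : ℕ}

open Classical in
/-- lower bounds for the expansion -/
noncomputable def dd (k : ℤ) : ℝ :=
  (5 / 4 * |(k : ℝ)| - 1 / 2) ^ 2 + if Odd k then (201 / 2) ^ 2 else 0

lemma one_le_abs {k : ℤ} (hk : k ≠ 0) : 1 ≤ |(k : ℝ)| := by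
  have : (1 : ℤ) ≤ |k| := Int.one_le_abs hk
  exact_mod_cast this

lemma two_le_abs_of_even {k : ℤ} (hk : k ≠ 0) (he : Even k) : 2 ≤ |(k : ℝ)| := by
  obtain ⟨j, rfl⟩ := he
  have hj : j ≠ 0 := by rintro rfl; simp at hk
  have h1 : (1 : ℤ) ≤ |j| := Int.one_le_abs hj
  have h2 : (2 : ℤ) ≤ |j + j| := by
    rw [← two_mul, abs_mul]
    simp only [abs_two]; omega
  exact_mod_cast h2

lemma four_le_dd {k : ℤ} (hk : k ≠ 0) : 4 ≤ dd k := by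
  unfold dd
  by_cases ho : Odd k
  · rw [if_pos ho]
    nlinarith [sq_nonneg (5 / 4 * |(k : ℝ)| - 1 / 2)]
  · rw [if_neg ho]
    have he : Even k := Int.not_odd_iff_even.1 ho
    have := two_le_abs_of_even hk he
    nlinarith

lemma dd_pos {k : ℤ} (hk : k ≠ 0) : 0 < dd k := by linarith [four_le_dd hk]

namespace Frame

variable (Φ : Frame n)

lemma P_g_zpow (k : ℤ) (x : Mink n) : Φ.P ((Φ.g ^ k) x) = Φ.P x := by
  obtain ⟨j, rfl | rfl⟩ := Int.even_or_odd' k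
  · rw [g_zpow_even, tau_apply, P_tau]
  · rw [g_zpow_odd]
    show Φ.P (Φ.tauFun _ _ (Φ.uFun x)) = _
    rw [P_tau, P_u]

lemma g_zpow_hyp (k : ℤ) {x : Mink n} (hx : x ∈ Hyp n) : (Φ.g ^ k) x ∈ Hyp n :=
  ((IsomH n).zpow_mem Φ.g_mem_IsomH k).2 x |>.2 hx

/-- The basic expansion estimate. -/
lemma PQ_even (j : ℤ) {x : Mink n} (hx : x ∈ Hyp n) :
    1 + (Φ.E x + 5 / 4 * (2 * j : ℤ) * Φ.P x) ^ 2 + Φ.F x ^ 2 ≤
      Φ.P x * Φ.Q ((Φ.g ^ (2 * j)) x) := by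
  rw [g_zpow_even, tau_apply, Q_tau]
  have h := Φ.hyp_PQ hx
  unfold dl
  nlinarith

lemma PQ_odd (j : ℤ) {x : Mink n} (hx : x ∈ Hyp n) :
    1 + (Φ.E x + 5 / 4 * (2 * j + 1 : ℤ) * Φ.P x) ^ 2 + (Φ.F x + 101 * Φ.P x) ^ 2 ≤
      Φ.P x * Φ.Q ((Φ.g ^ (2 * j + 1)) x) := by
  rw [g_zpow_odd]
  show _ ≤ Φ.P x * Φ.Q (Φ.tauFun _ _ (Φ.uFun x))
  rw [Q_tau]
  have h := Φ.hyp_PQ hx
  unfold dl
  rw [E_u, F_u, P_u, Q_u]
  nlinarith

lemma sq_lower {E P a c : ℝ} (hP : 0 < P) (hE : |E| ≤ c * P) (ha : c ≤ |a|) :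
    (|a| - c) ^ 2 * P ^ 2 ≤ (E + a * P) ^ 2 := by
  have h1 : (|a| - c) * P ≤ |E + a * P| := by
    have h2 : |a * P| = |a| * P := by rw [abs_mul, abs_of_pos hP]
    have h3 : |a * P| ≤ |E + a * P| + |E| := by
      calc |a * P| = |(E + a * P) - E| := by ring_nf
        _ ≤ |E + a * P| + |E| := abs_sub _ _
    nlinarith
  have h0 : 0 ≤ (|a| - c) * P := mul_nonneg (by linarith) hP.le
  calc (|a| - c) ^ 2 * P ^ 2 = ((|a| - c) * P) ^ 2 := by ring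
    _ ≤ |E + a * P| ^ 2 := pow_le_pow_left₀ h0 h1 2
    _ = (E + a * P) ^ 2 := sq_abs _

/-- admissible points -/
def Adm (x : Mink n) : Prop := x ∈ Hyp n ∧ |Φ.E x| ≤ 1 / 2 * Φ.P x ∧ |Φ.F x| ≤ 1 / 2 * Φ.P x

lemma adm_base : Φ.Adm (base n) := by
  refine ⟨base_mem, ?_, ?_⟩
  · unfold E P S base
    simp
  · unfold F P S base
    simp

lemma Q_lower {x : Mink n} (hx : Φ.Adm x) {k : ℤ} (hk : k ≠ 0) :
    dd k * Φ.P x ≤ Φ.Q ((Φ.g ^ k) x) := by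
  obtain ⟨hx, hE, hF⟩ := hx
  have hP := Φ.hyp_P_pos hx
  have hk1 := one_le_abs hk
  obtain ⟨j, hj | hj⟩ := Int.even_or_odd' k
  · have he : ¬ Odd k := by
      rw [Int.not_odd_iff_even]; exact ⟨j, by omega⟩
    have h1 := Φ.PQ_even j hx
    rw [← hj] at h1
    have h2 : |5 / 4 * (k : ℝ)| = 5 / 4 * |(k : ℝ)| := by
      rw [abs_mul, abs_of_pos (by norm_num : (0 : ℝ) < 5 / 4)]
    have h3 := sq_lower hP hE (a := 5 / 4 * (k : ℝ)) (by rw [h2]; linarith)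
    rw [h2] at h3
    unfold dd
    rw [if_neg he, add_zero]
    have h4 : (5 / 4 * |(k : ℝ)| - 1 / 2) ^ 2 * Φ.P x * Φ.P x ≤ Φ.Q ((Φ.g ^ k) x) * Φ.P x := by
      nlinarith [sq_nonneg (Φ.F x)]
    exact le_of_mul_le_mul_right h4 hP
  · have he : Odd k := ⟨j, by omega⟩
    have h1 := Φ.PQ_odd j hx
    rw [← hj] at h1
    have h2 : |5 / 4 * (k : ℝ)| = 5 / 4 * |(k : ℝ)| := by
      rw [abs_mul, abs_of_pos (by norm_num : (0 : ℝ) < 5 / 4)]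
    have h3 := sq_lower hP hE (a := 5 / 4 * (k : ℝ)) (by rw [h2]; linarith)
    have h5 := sq_lower hP hF (a := 101) (by rw [abs_of_pos (by norm_num : (0 : ℝ) < 101)]; norm_num)
    rw [h2] at h3
    rw [abs_of_pos (by norm_num : (0 : ℝ) < 101)] at h5
    unfold dd
    rw [if_pos he]
    have h4 : ((5 / 4 * |(k : ℝ)| - 1 / 2) ^ 2 + (201 / 2) ^ 2) * Φ.P x * Φ.P x ≤
        Φ.Q ((Φ.g ^ k) x) * Φ.P x := by
      nlinarith
    exact le_of_mul_le_mul_right h4 hP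

/-- ping-pong estimate -/
lemma ping {x : Mink n} (hx : x ∈ Hyp n) (hPQ : Φ.Q x ≤ Φ.P x) {k : ℤ} (hk : k ≠ 0) :
    Φ.P ((Φ.g ^ k) x) < Φ.Q ((Φ.g ^ k) x) := by
  have hP := Φ.hyp_P_pos hx
  have hk1 := one_le_abs hk
  have h0 := Φ.hyp_PQ hx
  have hE : |Φ.E x| ≤ 1 * Φ.P x := by
    apply abs_le_of_sq_le_sq _ (by linarith)
    nlinarith [sq_nonneg (Φ.F x)]
  have hF : |Φ.F x| ≤ 1 * Φ.P x := by
    apply abs_le_of_sq_le_sq _ (by linarith)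
    nlinarith [sq_nonneg (Φ.E x)]
  have h2 : |5 / 4 * (k : ℝ)| = 5 / 4 * |(k : ℝ)| := by
    rw [abs_mul, abs_of_pos (by norm_num : (0 : ℝ) < 5 / 4)]
  have h3 := sq_lower hP hE (a := 5 / 4 * (k : ℝ)) (by rw [h2]; linarith)
  rw [h2] at h3
  rw [P_g_zpow]
  obtain ⟨j, hj | hj⟩ := Int.even_or_odd' k
  · have he : Even k := ⟨j, by omega⟩
    have hk2 := two_le_abs_of_even hk he
    have h1 := Φ.PQ_even j hx
    rw [← hj] at h1
    have h4 : Φ.P x * Φ.P x < Φ.Q ((Φ.g ^ k) x) * Φ.P x := by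
      have : 1 ≤ (5 / 4 * |(k : ℝ)| - 1) ^ 2 := by nlinarith
      nlinarith [sq_nonneg (Φ.F x), sq_nonneg (Φ.P x)]
    exact lt_of_mul_lt_mul_right h4 hP.le
  · have h1 := Φ.PQ_odd j hx
    rw [← hj] at h1
    have h5 := sq_lower hP hF (a := 101) (by rw [abs_of_pos (by norm_num : (0 : ℝ) < 101)]; norm_num)
    rw [abs_of_pos (by norm_num : (0 : ℝ) < 101)] at h5
    have h4 : Φ.P x * Φ.P x < Φ.Q ((Φ.g ^ k) x) * Φ.P x := by
      nlinarith [sq_nonneg (Φ.E x + 5 / 4 * (k : ℝ) * Φ.P x), sq_nonneg (Φ.P x)]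
    exact lt_of_mul_lt_mul_right h4 hP.le

lemma J_hyp {x : Mink n} (hx : x ∈ Hyp n) : Φ.J x ∈ Hyp n := (Φ.J_mem.2 x).2 hx

lemma adm_step {x : Mink n} (hx : Φ.Adm x) {k : ℤ} (hk : k ≠ 0) :
    Φ.Adm (Φ.J ((Φ.g ^ k) x)) ∧ dd k * Φ.P x ≤ Φ.P (Φ.J ((Φ.g ^ k) x)) := by
  have h1 := Φ.Q_lower hx hk
  have h2 := four_le_dd hk
  have hy := Φ.g_zpow_hyp k hx.1
  have hP := Φ.hyp_P_pos hx.1
  have h3 := Φ.hyp_PQ hy
  rw [P_g_zpow] at h3
  have hQ : 4 * Φ.P x ≤ Φ.Q ((Φ.g ^ k) x) := by nlinarith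
  refine ⟨⟨Φ.J_hyp hy, ?_, ?_⟩, ?_⟩
  · rw [J_apply, E_j, P_j]
    apply abs_le_of_sq_le_sq _ (by linarith)
    nlinarith [sq_nonneg (Φ.E ((Φ.g ^ k) x))]
  · rw [J_apply, F_j, P_j]
    apply abs_le_of_sq_le_sq _ (by linarith)
    nlinarith [sq_nonneg (Φ.F ((Φ.g ^ k) x))]
  · rw [J_apply, P_j]; exact h1

/-- nonzero integers -/
abbrev NZ : Type := {k : ℤ // k ≠ 0}

/-- product of `J g^k` -/
noncomputable def Pw (L : List NZ) : Mink n ≃ₗ[ℝ] Mink n := (L.map fun k => Φ.J * Φ.g ^ k.1).prod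

/-- words -/
noncomputable def Wd (w : ℤ × List NZ) : Mink n ≃ₗ[ℝ] Mink n := Φ.g ^ w.1 * Φ.Pw w.2

lemma Pw_cons (k : NZ) (L : List NZ) : Φ.Pw (k :: L) = Φ.J * Φ.g ^ k.1 * Φ.Pw L := rfl

lemma Pw_nil : Φ.Pw [] = 1 := rfl

lemma adm_Pw (L : List NZ) : Φ.Adm (Φ.Pw L (base n)) ∧
    (L.map fun k => dd k.1).prod ≤ Φ.P (Φ.Pw L (base n)) := by
  induction L with
  | nil =>
    refine ⟨Φ.adm_base, ?_⟩
    rw [Pw_nil]
    show 1 ≤ Φ.P (base n)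
    unfold P S base
    simp
  | cons k L ih =>
    obtain ⟨h1, h2⟩ := ih
    obtain ⟨h3, h4⟩ := Φ.adm_step h1 k.2
    have e : Φ.Pw (k :: L) (base n) = Φ.J ((Φ.g ^ k.1) (Φ.Pw L (base n))) := rfl
    rw [e]
    refine ⟨h3, ?_⟩
    rw [List.map_cons, List.prod_cons]
    exact (mul_le_mul_of_nonneg_left h2 (dd_pos k.2).le).trans h4

open Classical in
/-- the weight of the first exponent -/
noncomputable def cc (k : ℤ) : ℝ := if k = 0 then 1 else dd k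

lemma cc_pos (k : ℤ) : 0 < cc k := by
  unfold cc
  split_ifs with h
  · norm_num
  · exact dd_pos h

lemma prod_pos (L : List NZ) : 0 < (L.map fun k => dd k.1).prod := by
  apply List.prod_pos
  intro a ha
  obtain ⟨k, -, rfl⟩ := List.mem_map.1 ha
  exact dd_pos k.2

lemma Wd_lower (w : ℤ × List NZ) :
    1 / 2 * (cc w.1 * (w.2.map fun k => dd k.1).prod) ≤ (Φ.Wd w (base n)).1 := by
  obtain ⟨k, L⟩ := w
  obtain ⟨h1, h2⟩ := Φ.adm_Pw L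
  have e : Φ.Wd (k, L) (base n) = (Φ.g ^ k) (Φ.Pw L (base n)) := rfl
  rw [e, Φ.fst_eq, P_g_zpow]
  have hy := Φ.g_zpow_hyp k h1.1
  have hQ := Φ.hyp_Q_pos hy
  have hP := Φ.hyp_P_pos h1.1
  by_cases hk : k = 0
  · have hc : cc k = 1 := if_pos hk
    rw [hc, one_mul]
    dsimp only at h2 ⊢
    linarith
  · have hc : cc k = dd k := if_neg hk
    have h3 := Φ.Q_lower h1 hk
    have h4 : dd k * (L.map fun k => dd k.1).prod ≤ Φ.Q ((Φ.g ^ k) (Φ.Pw L (base n))) :=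
      (mul_le_mul_of_nonneg_left h2 (dd_pos hk).le).trans h3
    rw [hc]
    dsimp only at h4 ⊢
    linarith

lemma J_inv : Φ.J⁻¹ = Φ.J := by
  rw [inv_eq_iff_mul_eq_one]; exact Φ.J_mul_J

/-- every element of the group generated by `g` and `J` is a word, up to `J` on the right. -/
lemma exists_word {A : Mink n ≃ₗ[ℝ] Mink n} (hA : A ∈ Subgroup.closure {Φ.g, Φ.J}) :
    ∃ w, A = Φ.Wd w ∨ A = Φ.Wd w * Φ.J := by
  have hg : ∀ (m : ℤ) (w : ℤ × List NZ), Φ.g ^ m * Φ.Wd w = Φ.Wd (m + w.1, w.2) := by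
    intro m w
    unfold Wd
    rw [zpow_add, mul_assoc]
  have hJ : ∀ (w : ℤ × List NZ), ∃ w', Φ.J * Φ.Wd w = Φ.Wd w' ∨ Φ.J * Φ.Wd w = Φ.Wd w' * Φ.J := by
    rintro ⟨k, L⟩
    by_cases hk : k = 0
    · subst hk
      match L with
      | [] =>
        refine ⟨(0, []), Or.inr ?_⟩
        unfold Wd
        simp [Pw_nil]
      | k :: L =>
        refine ⟨(k.1, L), Or.inl ?_⟩
        unfold Wd
        rw [Pw_cons]
        simp only [zpow_zero, one_mul]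
        rw [← mul_assoc, ← mul_assoc, Φ.J_mul_J, one_mul]
    · refine ⟨(0, ⟨k, hk⟩ :: L), Or.inl ?_⟩
      unfold Wd
      rw [Pw_cons]
      simp only [zpow_zero, one_mul]
      rw [mul_assoc]
  have key : ∀ (B : Mink n ≃ₗ[ℝ] Mink n), (∀ w, ∃ w', B * Φ.Wd w = Φ.Wd w' ∨
      B * Φ.Wd w = Φ.Wd w' * Φ.J) → ∀ C, (∃ w, C = Φ.Wd w ∨ C = Φ.Wd w * Φ.J) →
      ∃ w, B * C = Φ.Wd w ∨ B * C = Φ.Wd w * Φ.J := by
    rintro B hB C ⟨w, rfl | rfl⟩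
    · obtain ⟨w', h | h⟩ := hB w
      · exact ⟨w', Or.inl h⟩
      · exact ⟨w', Or.inr h⟩
    · obtain ⟨w', h | h⟩ := hB w
      · exact ⟨w', Or.inr (by rw [← mul_assoc, h])⟩
      · exact ⟨w', Or.inl (by rw [← mul_assoc, h, mul_assoc, Φ.J_mul_J, mul_one])⟩
  induction hA using Subgroup.closure_induction_left with
  | one => exact ⟨(0, []), Or.inl (by unfold Wd; simp [Pw_nil])⟩
  | mul_left x hx y hy ih =>
    rcases hx with rfl | rfl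
    · apply key _ _ _ ih
      intro w
      exact ⟨_, Or.inl (by have := hg 1 w; rwa [zpow_one] at this)⟩
    · exact key _ hJ _ ih
  | inv_mul_cancel x hx y hy ih =>
    rcases hx with rfl | rfl
    · apply key _ _ _ ih
      intro w
      exact ⟨_, Or.inl (by have := hg (-1) w; rwa [zpow_neg_one] at this)⟩
    · rw [J_inv]
      exact key _ hJ _ ih

lemma G_le_closure : Φ.G ≤ Subgroup.closure {Φ.g, Φ.J} := by
  have h1 : Φ.g ∈ Subgroup.closure {Φ.g, Φ.J} := Subgroup.subset_closure (by simp)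
  have h2 : Φ.J ∈ Subgroup.closure {Φ.g, Φ.J} := Subgroup.subset_closure (by simp)
  unfold G
  rw [Subgroup.closure_le]
  rintro x (rfl | rfl)
  · exact h1
  · exact mul_mem (mul_mem h2 h1) h2

lemma exists_word_base {A : Mink n ≃ₗ[ℝ] Mink n} (hA : A ∈ Φ.G) :
    ∃ w, (A = Φ.Wd w ∨ A = Φ.Wd w * Φ.J) ∧ A (base n) = Φ.Wd w (base n) := by
  obtain ⟨w, h | h⟩ := Φ.exists_word (Φ.G_le_closure hA)
  · exact ⟨w, Or.inl h, by rw [h]⟩
  · refine ⟨w, Or.inr h, ?_⟩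
    rw [h]
    show Φ.Wd w (Φ.J (base n)) = _
    rw [J_base]

end Frame

end Pool.Agent.Work.MP_d62ce9_gt
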