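import Pool.Agent.Work.MP_d62ce9_gt.Lor

/-!
# The isometries `g` and `J`
-/

set_option autoImplicit false
set_option linter.unusedSectionVars false

open Filter Topology Set

namespace Pool.Agent.Work.MP_d62ce9_gt

variable {n : ℕ}

/-- three orthonormal vectors -/
structure Frame (n : ℕ) where
  e : EuclideanSpace ℝ (Fin n)
  f : EuclideanSpace ℝ (Fin n)
  N : EuclideanSpace ℝ (Fin n)
  ee : inner ℝ e e = (1 : ℝ)
  ff : inner ℝ f f = (1 : ℝ)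
  NN : inner ℝ N N = (1 : ℝ)
  ef : inner ℝ e f = (0 : ℝ)
  eN : inner ℝ e N = (0 : ℝ)
  fN : inner ℝ f N = (0 : ℝ)

lemma exists_frame (hn : 3 ≤ n) : Nonempty (Frame n) := by
  have ho := (EuclideanSpace.basisFun (Fin n) ℝ).orthonormal
  have h1 : ∀ i, inner ℝ ((EuclideanSpace.basisFun (Fin n) ℝ) i)
      ((EuclideanSpace.basisFun (Fin n) ℝ) i) = (1 : ℝ) := fun i => by
    rw [real_inner_self_eq_norm_sq, ho.1 i]; norm_num
  have h2 : ∀ i j, i ≠ j → inner ℝ ((EuclideanSpace.basisFun (Fin n) ℝ) i)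
      ((EuclideanSpace.basisFun (Fin n) ℝ) j) = (0 : ℝ) := fun i j hij => ho.2 hij
  exact ⟨{
    e := (EuclideanSpace.basisFun (Fin n) ℝ) ⟨0, by omega⟩
    f := (EuclideanSpace.basisFun (Fin n) ℝ) ⟨1, by omega⟩
    N := (EuclideanSpace.basisFun (Fin n) ℝ) ⟨2, by omega⟩
    ee := h1 _
    ff := h1 _
    NN := h1 _
    ef := h2 _ _ (by simp)
    eN := h2 _ _ (by simp)
    fN := h2 _ _ (by simp) }⟩

namespace Frame

variable (Φ : Frame n)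

lemma fe : inner ℝ Φ.f Φ.e = (0 : ℝ) := by rw [real_inner_comm]; exact Φ.ef
lemma Ne : inner ℝ Φ.N Φ.e = (0 : ℝ) := by rw [real_inner_comm]; exact Φ.eN
lemma Nf : inner ℝ Φ.N Φ.f = (0 : ℝ) := by rw [real_inner_comm]; exact Φ.fN

/-- coordinates -/
noncomputable def E (x : Mink n) : ℝ := inner ℝ x.2 Φ.e
/-- coordinates -/
noncomputable def F (x : Mink n) : ℝ := inner ℝ x.2 Φ.f
/-- coordinates -/
noncomputable def S (x : Mink n) : ℝ := inner ℝ x.2 Φ.N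
/-- light cone coordinate -/
noncomputable def P (x : Mink n) : ℝ := x.1 - Φ.S x
/-- light cone coordinate -/
noncomputable def Q (x : Mink n) : ℝ := x.1 + Φ.S x

lemma E_add (x y : Mink n) : Φ.E (x + y) = Φ.E x + Φ.E y := by simp [E, inner_add_left]
lemma F_add (x y : Mink n) : Φ.F (x + y) = Φ.F x + Φ.F y := by simp [F, inner_add_left]
lemma S_add (x y : Mink n) : Φ.S (x + y) = Φ.S x + Φ.S y := by simp [S, inner_add_left]
lemma E_smul (c : ℝ) (x : Mink n) : Φ.E (c • x) = c * Φ.E x := by simp [E, inner_smul_left]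
lemma F_smul (c : ℝ) (x : Mink n) : Φ.F (c • x) = c * Φ.F x := by simp [F, inner_smul_left]
lemma S_smul (c : ℝ) (x : Mink n) : Φ.S (c • x) = c * Φ.S x := by simp [S, inner_smul_left]
lemma P_add (x y : Mink n) : Φ.P (x + y) = Φ.P x + Φ.P y := by
  simp only [P, S_add, Prod.fst_add]; ring
lemma P_smul (c : ℝ) (x : Mink n) : Φ.P (c • x) = c * Φ.P x := by
  simp only [P, S_smul, Prod.smul_fst, smul_eq_mul]; ring

/-- Bessel inequality -/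
lemma bessel (y : EuclideanSpace ℝ (Fin n)) :
    inner ℝ y Φ.e ^ 2 + inner ℝ y Φ.f ^ 2 + inner ℝ y Φ.N ^ 2 ≤ ‖y‖ ^ 2 := by
  have h : 0 ≤ ‖y - (inner ℝ y Φ.e : ℝ) • Φ.e - (inner ℝ y Φ.f : ℝ) • Φ.f
      - (inner ℝ y Φ.N : ℝ) • Φ.N‖ ^ 2 := sq_nonneg _
  rw [← real_inner_self_eq_norm_sq] at h
  simp only [inner_sub_left, inner_sub_right, inner_smul_left, inner_smul_right, Φ.ee, Φ.ff, Φ.NN,
    Φ.ef, Φ.eN, Φ.fN, Φ.fe, Φ.Ne, Φ.Nf, conj_trivial, real_inner_self_eq_norm_sq] at h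
  have c1 : inner ℝ Φ.e y = (inner ℝ y Φ.e : ℝ) := real_inner_comm _ _
  have c2 : inner ℝ Φ.f y = (inner ℝ y Φ.f : ℝ) := real_inner_comm _ _
  have c3 : inner ℝ Φ.N y = (inner ℝ y Φ.N : ℝ) := real_inner_comm _ _
  rw [c1, c2, c3] at h
  nlinarith

lemma hyp_PQ {x : Mink n} (hx : x ∈ Hyp n) : 1 + Φ.E x ^ 2 + Φ.F x ^ 2 ≤ Φ.P x * Φ.Q x := by
  have h1 := Hyp.norm_sq hx
  have h2 := Φ.bessel x.2
  unfold P Q E F S
  nlinarith

lemma hyp_P_pos {x : Mink n} (hx : x ∈ Hyp n) : 0 < Φ.P x := by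
  have h1 := Hyp.norm_lt hx
  have h2 : Φ.S x ≤ ‖x.2‖ := by
    have h3 := Φ.bessel x.2
    unfold S
    apply (abs_le_of_sq_le_sq' _ (norm_nonneg _)).2
    nlinarith [sq_nonneg (inner ℝ x.2 Φ.e : ℝ), sq_nonneg (inner ℝ x.2 Φ.f : ℝ)]
  unfold P
  linarith

lemma hyp_Q_pos {x : Mink n} (hx : x ∈ Hyp n) : 0 < Φ.Q x := by
  have h1 := Φ.hyp_P_pos hx
  have h2 := Φ.hyp_PQ hx
  by_contra hcon
  push Not at hcon
  nlinarith [sq_nonneg (Φ.E x), sq_nonneg (Φ.F x)]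

lemma fst_eq (x : Mink n) : x.1 = (Φ.P x + Φ.Q x) / 2 := by
  unfold P Q; ring

lemma mem_Hyp_of {x : Mink n} (h1 : lor x x = -1) (h2 : 0 < Φ.P x) : x ∈ Hyp n := by
  refine ⟨h1, ?_⟩
  rw [lor_self] at h1
  have h3 := Φ.bessel x.2
  have h4 : 0 < Φ.P x * Φ.Q x := by
    unfold P Q S
    nlinarith [sq_nonneg (inner ℝ x.2 Φ.e : ℝ), sq_nonneg (inner ℝ x.2 Φ.f : ℝ)]
  have h5 : 0 < Φ.Q x := (mul_pos_iff_of_pos_left h2).1 h4
  rw [Φ.fst_eq x]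
  linarith

end Frame

lemma mem_IsomH_of {A : Mink n ≃ₗ[ℝ] Mink n} (h1 : ∀ u v, lor (A u) (A v) = lor u v)
    (h2 : ∀ x ∈ Hyp n, A x ∈ Hyp n) (h3 : ∀ x ∈ Hyp n, A.symm x ∈ Hyp n) : A ∈ IsomH n := by
  refine ⟨h1, fun x => ⟨fun h => ?_, h2 x⟩⟩
  have := h3 _ h
  rwa [LinearEquiv.symm_apply_apply] at this

namespace Frame

variable (Φ : Frame n)

/-- the shear parameter -/
noncomputable def dl (a b : ℝ) (x : Mink n) : ℝ :=
  a * Φ.E x + b * Φ.F x + Φ.P x * (a ^ 2 + b ^ 2) / 2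

/-- the translation, as a function -/
noncomputable def tauFun (a b : ℝ) (x : Mink n) : Mink n :=
  (x.1 + Φ.dl a b x, x.2 + Φ.P x • (a • Φ.e + b • Φ.f) + Φ.dl a b x • Φ.N)

lemma E_tau (a b : ℝ) (x : Mink n) : Φ.E (Φ.tauFun a b x) = Φ.E x + a * Φ.P x := by
  simp only [E, tauFun, inner_add_left, inner_smul_left, Φ.ee, Φ.fe, Φ.Ne, conj_trivial]
  ring

lemma F_tau (a b : ℝ) (x : Mink n) : Φ.F (Φ.tauFun a b x) = Φ.F x + b * Φ.P x := by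
  simp only [F, tauFun, inner_add_left, inner_smul_left, Φ.ef, Φ.ff, Φ.Nf, conj_trivial]
  ring

lemma S_tau (a b : ℝ) (x : Mink n) : Φ.S (Φ.tauFun a b x) = Φ.S x + Φ.dl a b x := by
  simp only [S, tauFun, inner_add_left, inner_smul_left, Φ.eN, Φ.fN, Φ.NN, conj_trivial]
  ring

lemma P_tau (a b : ℝ) (x : Mink n) : Φ.P (Φ.tauFun a b x) = Φ.P x := by
  unfold P
  rw [S_tau]
  show x.1 + Φ.dl a b x - (Φ.S x + Φ.dl a b x) = _
  ring

lemma Q_tau (a b : ℝ) (x : Mink n) : Φ.Q (Φ.tauFun a b x) = Φ.Q x + 2 * Φ.dl a b x := by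
  unfold Q
  rw [S_tau]
  show x.1 + Φ.dl a b x + (Φ.S x + Φ.dl a b x) = _
  ring

lemma tauFun_tauFun (a b a' b' : ℝ) (x : Mink n) :
    Φ.tauFun a b (Φ.tauFun a' b' x) = Φ.tauFun (a + a') (b + b') x := by
  have hd : Φ.dl a' b' x + Φ.dl a b (Φ.tauFun a' b' x) = Φ.dl (a + a') (b + b') x := by
    unfold dl
    rw [E_tau, F_tau, P_tau]
    ring
  have e1 : Φ.tauFun a b (Φ.tauFun a' b' x) =
      ((Φ.tauFun a' b' x).1 + Φ.dl a b (Φ.tauFun a' b' x),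
        (Φ.tauFun a' b' x).2 + Φ.P (Φ.tauFun a' b' x) • (a • Φ.e + b • Φ.f) +
          Φ.dl a b (Φ.tauFun a' b' x) • Φ.N) := rfl
  rw [e1, P_tau]
  ext1
  · show x.1 + Φ.dl a' b' x + Φ.dl a b (Φ.tauFun a' b' x) = x.1 + Φ.dl (a + a') (b + b') x
    rw [← hd]; ring
  · show (x.2 + Φ.P x • (a' • Φ.e + b' • Φ.f) + Φ.dl a' b' x • Φ.N) +
      Φ.P x • (a • Φ.e + b • Φ.f) + Φ.dl a b (Φ.tauFun a' b' x) • Φ.N =
      x.2 + Φ.P x • ((a + a') • Φ.e + (b + b') • Φ.f) + Φ.dl (a + a') (b + b') x • Φ.N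
    rw [← hd]
    module

lemma tauFun_zero (x : Mink n) : Φ.tauFun 0 0 x = x := by
  have hd : Φ.dl 0 0 x = 0 := by unfold dl; ring
  unfold tauFun
  rw [hd]
  ext1
  · simp
  · simp

/-- the translation by `a e + b f` in upper half-space coordinates -/
noncomputable def tau (a b : ℝ) : Mink n ≃ₗ[ℝ] Mink n where
  toFun := Φ.tauFun a b
  map_add' x y := by
    have hd : Φ.dl a b (x + y) = Φ.dl a b x + Φ.dl a b y := by
      unfold dl; rw [E_add, F_add, P_add]; ring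
    unfold tauFun
    rw [hd, P_add]
    ext1
    · show x.1 + y.1 + _ = _
      simp only [Prod.fst_add]; ring
    · simp only [Prod.snd_add]
      module
  map_smul' c x := by
    have hd : Φ.dl a b (c • x) = c * Φ.dl a b x := by
      unfold dl; rw [E_smul, F_smul, P_smul]; ring
    unfold tauFun
    rw [hd, P_smul]
    ext1
    · simp only [Prod.smul_fst, RingHom.id_apply, smul_eq_mul]; ring
    · simp only [Prod.smul_snd, RingHom.id_apply]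
      module
  invFun := Φ.tauFun (-a) (-b)
  left_inv x := by
    show Φ.tauFun (-a) (-b) (Φ.tauFun a b x) = x
    rw [tauFun_tauFun, neg_add_cancel, neg_add_cancel, tauFun_zero]
  right_inv x := by
    show Φ.tauFun a b (Φ.tauFun (-a) (-b) x) = x
    rw [tauFun_tauFun, add_neg_cancel, add_neg_cancel, tauFun_zero]

lemma tau_apply (a b : ℝ) (x : Mink n) : Φ.tau a b x = Φ.tauFun a b x := rfl

lemma tau_mul (a b a' b' : ℝ) : Φ.tau a b * Φ.tau a' b' = Φ.tau (a + a') (b + b') := by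
  ext1 x
  exact Φ.tauFun_tauFun a b a' b' x

lemma tau_zero : Φ.tau 0 0 = 1 := by
  ext1 x
  exact Φ.tauFun_zero x

lemma lor_tau (a b : ℝ) (x y : Mink n) : lor (Φ.tau a b x) (Φ.tau a b y) = lor x y := by
  rw [tau_apply, tau_apply]
  simp only [lor, tauFun, inner_add_left, inner_add_right, inner_smul_left, inner_smul_right,
    Φ.ee, Φ.ff, Φ.NN, Φ.ef, Φ.eN, Φ.fN, Φ.fe, Φ.Ne, Φ.Nf, conj_trivial]
  have c1 : inner ℝ Φ.e y.2 = Φ.E y := real_inner_comm _ _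
  have c2 : inner ℝ Φ.f y.2 = Φ.F y := real_inner_comm _ _
  have c3 : inner ℝ Φ.N y.2 = Φ.S y := real_inner_comm _ _
  have c4 : inner ℝ x.2 Φ.e = Φ.E x := rfl
  have c5 : inner ℝ x.2 Φ.f = Φ.F x := rfl
  have c6 : inner ℝ x.2 Φ.N = Φ.S x := rfl
  rw [c1, c2, c3, c4, c5, c6]
  unfold dl P
  ring

lemma tau_mem (a b : ℝ) : Φ.tau a b ∈ IsomH n := by
  apply mem_IsomH_of (Φ.lor_tau a b)
  · intro x hx
    apply Φ.mem_Hyp_of
    · rw [lor_tau]; exact hx.1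
    · rw [tau_apply, P_tau]; exact Φ.hyp_P_pos hx
  · intro x hx
    have e : (Φ.tau a b).symm x = Φ.tau (-a) (-b) x := rfl
    rw [e]
    apply Φ.mem_Hyp_of
    · rw [lor_tau]; exact hx.1
    · rw [tau_apply, P_tau]; exact Φ.hyp_P_pos hx

/-- the linear part of `g` -/
noncomputable def uFun (x : Mink n) : Mink n :=
  (x.1, (2 * Φ.E x) • Φ.e + (2 * Φ.S x) • Φ.N - x.2)

lemma E_u (x : Mink n) : Φ.E (Φ.uFun x) = Φ.E x := by
  have : Φ.E (Φ.uFun x) = 2 * Φ.E x * 1 + 2 * Φ.S x * 0 - Φ.E x := by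
    simp only [uFun, E, inner_sub_left, inner_add_left, inner_smul_left, Φ.ee, Φ.Ne, conj_trivial]
  rw [this]; ring

lemma F_u (x : Mink n) : Φ.F (Φ.uFun x) = - Φ.F x := by
  have : Φ.F (Φ.uFun x) = 2 * Φ.E x * 0 + 2 * Φ.S x * 0 - Φ.F x := by
    simp only [uFun, F, inner_sub_left, inner_add_left, inner_smul_left, Φ.ef, Φ.Nf, conj_trivial]
  rw [this]; ring

lemma S_u (x : Mink n) : Φ.S (Φ.uFun x) = Φ.S x := by
  have : Φ.S (Φ.uFun x) = 2 * Φ.E x * 0 + 2 * Φ.S x * 1 - Φ.S x := by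
    simp only [uFun, S, inner_sub_left, inner_add_left, inner_smul_left, Φ.eN, Φ.NN, conj_trivial]
  rw [this]; ring

lemma P_u (x : Mink n) : Φ.P (Φ.uFun x) = Φ.P x := by
  unfold P; rw [S_u]; rfl

lemma Q_u (x : Mink n) : Φ.Q (Φ.uFun x) = Φ.Q x := by
  unfold Q; rw [S_u]; rfl

lemma uFun_uFun (x : Mink n) : Φ.uFun (Φ.uFun x) = x := by
  have e1 : Φ.uFun (Φ.uFun x) = ((Φ.uFun x).1,
    (2 * Φ.E (Φ.uFun x)) • Φ.e + (2 * Φ.S (Φ.uFun x)) • Φ.N - (Φ.uFun x).2) := rfl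
  rw [e1, E_u, S_u]
  ext1
  · rfl
  · show (2 * Φ.E x) • Φ.e + (2 * Φ.S x) • Φ.N - ((2 * Φ.E x) • Φ.e + (2 * Φ.S x) • Φ.N - x.2) = x.2
    abel

/-- the linear part of `g` -/
noncomputable def U : Mink n ≃ₗ[ℝ] Mink n where
  toFun := Φ.uFun
  map_add' x y := by
    unfold uFun
    rw [E_add, S_add]
    ext1
    · rfl
    · simp only [Prod.snd_add]; module
  map_smul' c x := by
    unfold uFun
    rw [E_smul, S_smul]
    ext1
    · rfl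
    · simp only [Prod.smul_snd, RingHom.id_apply]; module
  invFun := Φ.uFun
  left_inv x := Φ.uFun_uFun x
  right_inv x := Φ.uFun_uFun x

lemma U_apply (x : Mink n) : Φ.U x = Φ.uFun x := rfl

lemma lor_U (x y : Mink n) : lor (Φ.U x) (Φ.U y) = lor x y := by
  rw [U_apply, U_apply]
  have : lor (Φ.uFun x) (Φ.uFun y) = inner ℝ ((2 * Φ.E x) • Φ.e + (2 * Φ.S x) • Φ.N - x.2)
    ((2 * Φ.E y) • Φ.e + (2 * Φ.S y) • Φ.N - y.2) - x.1 * y.1 := rfl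
  rw [this]
  simp only [inner_sub_left, inner_sub_right, inner_add_left, inner_add_right, inner_smul_left,
    inner_smul_right, Φ.ee, Φ.NN, Φ.eN, Φ.Ne, conj_trivial]
  have c1 : inner ℝ Φ.e y.2 = Φ.E y := real_inner_comm _ _
  have c3 : inner ℝ Φ.N y.2 = Φ.S y := real_inner_comm _ _
  have c4 : inner ℝ x.2 Φ.e = Φ.E x := rfl
  have c6 : inner ℝ x.2 Φ.N = Φ.S x := rfl
  rw [c1, c3, c4, c6]
  unfold lor
  ring

lemma U_mem : Φ.U ∈ IsomH n := by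
  have key : ∀ x ∈ Hyp n, Φ.U x ∈ Hyp n := by
    intro x hx
    refine ⟨?_, hx.2⟩
    rw [lor_U]; exact hx.1
  exact mem_IsomH_of Φ.lor_U key key

lemma U_tau (a b : ℝ) : Φ.U * Φ.tau a b = Φ.tau a (-b) * Φ.U := by
  ext1 x
  show Φ.uFun (Φ.tauFun a b x) = Φ.tauFun a (-b) (Φ.uFun x)
  have hd : Φ.dl a (-b) (Φ.uFun x) = Φ.dl a b x := by
    unfold dl; rw [E_u, F_u, P_u]; ring
  have e1 : Φ.uFun (Φ.tauFun a b x) = ((Φ.tauFun a b x).1,
    (2 * Φ.E (Φ.tauFun a b x)) • Φ.e + (2 * Φ.S (Φ.tauFun a b x)) • Φ.N - (Φ.tauFun a b x).2) := rfl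
  have e2 : Φ.tauFun a (-b) (Φ.uFun x) = ((Φ.uFun x).1 + Φ.dl a (-b) (Φ.uFun x),
    (Φ.uFun x).2 + Φ.P (Φ.uFun x) • (a • Φ.e + (-b) • Φ.f) + Φ.dl a (-b) (Φ.uFun x) • Φ.N) := rfl
  rw [e1, e2, hd, E_tau, S_tau, P_u]
  ext1
  · rfl
  · show (2 * (Φ.E x + a * Φ.P x)) • Φ.e + (2 * (Φ.S x + Φ.dl a b x)) • Φ.N -
      (x.2 + Φ.P x • (a • Φ.e + b • Φ.f) + Φ.dl a b x • Φ.N) =
      ((2 * Φ.E x) • Φ.e + (2 * Φ.S x) • Φ.N - x.2) + Φ.P x • (a • Φ.e + (-b) • Φ.f) +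
        Φ.dl a b x • Φ.N
    module

lemma U_mul_U : Φ.U * Φ.U = 1 := by
  ext1 x
  exact Φ.uFun_uFun x

/-- the involution -/
noncomputable def jFun (x : Mink n) : Mink n :=
  (x.1, x.2 - (Φ.E x - Φ.F x) • (Φ.e - Φ.f) - (2 * Φ.S x) • Φ.N)

lemma E_j (x : Mink n) : Φ.E (Φ.jFun x) = Φ.F x := by
  have : Φ.E (Φ.jFun x) = Φ.E x - (Φ.E x - Φ.F x) * (1 - 0) - 2 * Φ.S x * 0 := by
    simp only [jFun, E, inner_sub_left, inner_smul_left, Φ.ee, Φ.fe, Φ.Ne, conj_trivial]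
  rw [this]; ring

lemma F_j (x : Mink n) : Φ.F (Φ.jFun x) = Φ.E x := by
  have : Φ.F (Φ.jFun x) = Φ.F x - (Φ.E x - Φ.F x) * (0 - 1) - 2 * Φ.S x * 0 := by
    simp only [jFun, F, inner_sub_left, inner_smul_left, Φ.ef, Φ.ff, Φ.Nf, conj_trivial]
  rw [this]; ring

lemma S_j (x : Mink n) : Φ.S (Φ.jFun x) = - Φ.S x := by
  have : Φ.S (Φ.jFun x) = Φ.S x - (Φ.E x - Φ.F x) * (0 - 0) - 2 * Φ.S x * 1 := by
    simp only [jFun, S, inner_sub_left, inner_smul_left, Φ.eN, Φ.fN, Φ.NN, conj_trivial]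
  rw [this]; ring

lemma P_j (x : Mink n) : Φ.P (Φ.jFun x) = Φ.Q x := by
  unfold P Q; rw [S_j]; show x.1 - -Φ.S x = x.1 + Φ.S x; ring

lemma Q_j (x : Mink n) : Φ.Q (Φ.jFun x) = Φ.P x := by
  unfold P Q; rw [S_j]; show x.1 + -Φ.S x = x.1 - Φ.S x; ring

lemma jFun_jFun (x : Mink n) : Φ.jFun (Φ.jFun x) = x := by
  have e1 : Φ.jFun (Φ.jFun x) = ((Φ.jFun x).1, (Φ.jFun x).2 -
    (Φ.E (Φ.jFun x) - Φ.F (Φ.jFun x)) • (Φ.e - Φ.f) - (2 * Φ.S (Φ.jFun x)) • Φ.N) := rfl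
  rw [e1, E_j, F_j, S_j]
  ext1
  · rfl
  · show (x.2 - (Φ.E x - Φ.F x) • (Φ.e - Φ.f) - (2 * Φ.S x) • Φ.N) -
      (Φ.F x - Φ.E x) • (Φ.e - Φ.f) - (2 * -Φ.S x) • Φ.N = x.2
    module

/-- the involution -/
noncomputable def J : Mink n ≃ₗ[ℝ] Mink n where
  toFun := Φ.jFun
  map_add' x y := by
    unfold jFun
    rw [E_add, F_add, S_add]
    ext1
    · rfl
    · simp only [Prod.snd_add]; module
  map_smul' c x := by
    unfold jFun
    rw [E_smul, F_smul, S_smul]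
    ext1
    · rfl
    · simp only [Prod.smul_snd, RingHom.id_apply]; module
  invFun := Φ.jFun
  left_inv x := Φ.jFun_jFun x
  right_inv x := Φ.jFun_jFun x

lemma J_apply (x : Mink n) : Φ.J x = Φ.jFun x := rfl

lemma lor_J (x y : Mink n) : lor (Φ.J x) (Φ.J y) = lor x y := by
  rw [J_apply, J_apply]
  have : lor (Φ.jFun x) (Φ.jFun y) = inner ℝ (x.2 - (Φ.E x - Φ.F x) • (Φ.e - Φ.f) -
    (2 * Φ.S x) • Φ.N) (y.2 - (Φ.E y - Φ.F y) • (Φ.e - Φ.f) - (2 * Φ.S y) • Φ.N) - x.1 * y.1 := rfl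
  rw [this]
  simp only [inner_sub_left, inner_sub_right, inner_smul_left,
    inner_smul_right, Φ.ee, Φ.ff, Φ.NN, Φ.ef, Φ.eN, Φ.fN, Φ.fe, Φ.Ne, Φ.Nf, conj_trivial]
  have c1 : inner ℝ Φ.e y.2 = Φ.E y := real_inner_comm _ _
  have c2 : inner ℝ Φ.f y.2 = Φ.F y := real_inner_comm _ _
  have c3 : inner ℝ Φ.N y.2 = Φ.S y := real_inner_comm _ _
  have c4 : inner ℝ x.2 Φ.e = Φ.E x := rfl
  have c5 : inner ℝ x.2 Φ.f = Φ.F x := rfl
  have c6 : inner ℝ x.2 Φ.N = Φ.S x := rfl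
  rw [c1, c2, c3, c4, c5, c6]
  unfold lor
  ring

lemma J_mem : Φ.J ∈ IsomH n := by
  have key : ∀ x ∈ Hyp n, Φ.J x ∈ Hyp n := by
    intro x hx
    refine ⟨?_, hx.2⟩
    rw [lor_J]; exact hx.1
  exact mem_IsomH_of Φ.lor_J key key

lemma J_mul_J : Φ.J * Φ.J = 1 := by
  ext1 x
  exact Φ.jFun_jFun x

lemma J_base : Φ.J (base n) = base n := by
  rw [J_apply]
  unfold jFun E F S base
  simp

/-- The element `g`: a parabolic isometry whose square is the translation by `5/2 e` in upper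
half-space coordinates. -/
noncomputable def g : Mink n ≃ₗ[ℝ] Mink n := Φ.tau (5 / 4) (-101) * Φ.U

/-- The element `h = J g J`. -/
noncomputable def h : Mink n ≃ₗ[ℝ] Mink n := Φ.J * Φ.g * Φ.J

/-- The group generated by `g` and `h`. -/
noncomputable def G : Subgroup (Mink n ≃ₗ[ℝ] Mink n) := Subgroup.closure {Φ.g, Φ.h}

lemma g_mem_IsomH : Φ.g ∈ IsomH n := (IsomH n).mul_mem (Φ.tau_mem _ _) Φ.U_mem

lemma h_mem_IsomH : Φ.h ∈ IsomH n :=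
  (IsomH n).mul_mem ((IsomH n).mul_mem Φ.J_mem Φ.g_mem_IsomH) Φ.J_mem

lemma G_le : Φ.G ≤ IsomH n := by
  unfold G
  rw [Subgroup.closure_le]
  rintro x (rfl | rfl)
  · exact Φ.g_mem_IsomH
  · exact Φ.h_mem_IsomH

lemma g_mem : Φ.g ∈ Φ.G := Subgroup.subset_closure (by simp)
lemma h_mem : Φ.h ∈ Φ.G := Subgroup.subset_closure (by simp)

lemma g_sq : Φ.g * Φ.g = Φ.tau (5 / 2) 0 := by
  unfold g
  calc Φ.tau (5 / 4) (-101) * Φ.U * (Φ.tau (5 / 4) (-101) * Φ.U)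
      = Φ.tau (5 / 4) (-101) * (Φ.U * Φ.tau (5 / 4) (-101)) * Φ.U := by group
    _ = Φ.tau (5 / 4) (-101) * (Φ.tau (5 / 4) (- -101) * Φ.U) * Φ.U := by rw [U_tau]
    _ = Φ.tau (5 / 4) (-101) * Φ.tau (5 / 4) (- -101) * (Φ.U * Φ.U) := by group
    _ = Φ.tau (5 / 2) 0 := by
        rw [U_mul_U, mul_one, tau_mul]; norm_num

lemma tau_zpow (a : ℝ) (j : ℤ) : Φ.tau a 0 ^ j = Φ.tau (a * j) 0 := by
  induction j using Int.induction_on with
  | zero => simp [tau_zero]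
  | succ i ih =>
    rw [zpow_add_one, ih, tau_mul]
    congr 1 <;> push_cast <;> ring
  | pred i ih =>
    have hinv : (Φ.tau a 0)⁻¹ = Φ.tau (-a) 0 := by
      rw [inv_eq_iff_mul_eq_one, tau_mul]
      simp [tau_zero]
    rw [zpow_sub_one, ih, hinv, tau_mul]
    congr 1 <;> push_cast <;> ring

lemma g_zpow_even (j : ℤ) : Φ.g ^ (2 * j) = Φ.tau (5 / 4 * (2 * j : ℤ)) 0 := by
  rw [zpow_mul, zpow_ofNat, pow_two, g_sq, tau_zpow]
  congr 1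
  push_cast; ring

lemma g_zpow_odd (j : ℤ) : Φ.g ^ (2 * j + 1) = Φ.tau (5 / 4 * (2 * j + 1 : ℤ)) (-101) * Φ.U := by
  rw [zpow_add_one, g_zpow_even, g, ← mul_assoc, tau_mul]
  congr 2
  · push_cast; ring
  · ring

end Frame

end Pool.Agent.Work.MP_d62ce9_gt
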