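import Pool.Agent.Work.MP_d62ce9_gt.Defs

/-!
# The same notions for groups of linear equivalences
-/

set_option autoImplicit false

open Filter Topology Set

namespace Pool.Agent.Work.MP_d62ce9_gt

/-- The isometry group of `ℍ^n`, realised as the group `O⁺(n, 1)` of all linear automorphisms of
Minkowski space which preserve the Lorentz form and the upper sheet `ℍ^n`. -/
noncomputable def IsomH (n : ℕ) : Subgroup (Mink n ≃ₗ[ℝ] Mink n) where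
  carrier := {A | (∀ u v, lor (A u) (A v) = lor u v) ∧ ∀ x, A x ∈ Hyp n ↔ x ∈ Hyp n}
  one_mem' := ⟨fun _ _ => rfl, fun _ => Iff.rfl⟩
  mul_mem' := by
    rintro A B ⟨hA1, hA2⟩ ⟨hB1, hB2⟩
    exact ⟨fun u v => (hA1 (B u) (B v)).trans (hB1 u v), fun x => (hA2 (B x)).trans (hB2 x)⟩
  inv_mem' := by
    rintro A ⟨hA1, hA2⟩
    refine ⟨fun u v => ?_, fun x => ?_⟩
    · have h := hA1 (A⁻¹ u) (A⁻¹ v)
      have e : ∀ w, A (A⁻¹ w) = w := fun w => A.apply_symm_apply w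
      rw [e, e] at h
      exact h.symm
    · have h := hA2 (A⁻¹ x)
      have e : ∀ w, A (A⁻¹ w) = w := fun w => A.apply_symm_apply w
      rw [e] at h
      exact h.symm

/-- The action of an isometry on the sphere at infinity `S^{n-1}`. -/
noncomputable def bdry {n : ℕ} (A : Mink n ≃ₗ[ℝ] Mink n) (ξ : EuclideanSpace ℝ (Fin n)) :
    EuclideanSpace ℝ (Fin n) := klein (A (1, ξ))

/-- Discreteness. -/
def IsDiscreteGroup {n : ℕ} (G : Subgroup (Mink n ≃ₗ[ℝ] Mink n)) : Prop :=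
  ∀ x ∈ Hyp n, ∀ R : ℝ, {A | A ∈ G ∧ hdist x (A x) ≤ R}.Finite

/-- The conical limit set of `G`. -/
def conicalLimitSet {n : ℕ} (G : Subgroup (Mink n ≃ₗ[ℝ] Mink n)) :
    Set (EuclideanSpace ℝ (Fin n)) :=
  {ξ | ‖ξ‖ = 1 ∧ ∃ x ∈ Hyp n, ∃ r : ℝ → Mink n, IsGeodesic r ∧
    Tendsto (fun t => klein (r t)) atTop (𝓝 ξ) ∧
    ∃ (C : ℝ) (A : ℕ → Mink n ≃ₗ[ℝ] Mink n), (∀ k, A k ∈ G) ∧
      (∀ k, ∃ t, 0 ≤ t ∧ hdist (A k x) (r t) ≤ C) ∧
      Tendsto (fun k => klein (A k x)) atTop (𝓝 ξ)}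

/-- `D ⊆ ℍ^n` is a fundamental domain for `G`. -/
def IsFundamentalDomain {n : ℕ} (G : Subgroup (Mink n ≃ₗ[ℝ] Mink n)) (D : Set (Mink n)) : Prop :=
  (∀ A ∈ G, A ≠ 1 → Disjoint (A '' D) D) ∧
  ∀ x ∈ Hyp n, ∃ A ∈ G, A x ∈ closure D

/-- Groups of classical Schottky type. -/
def IsClassicalSchottkyType {n : ℕ} (G : Subgroup (Mink n ≃ₗ[ℝ] Mink n)) : Prop :=
  ∃ (k : ℕ) (B : Fin k × Bool → RoundBall n) (g : Fin k → (Mink n ≃ₗ[ℝ] Mink n)),
    (∀ i, g i ∈ G) ∧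
    (∀ a b, a ≠ b → Disjoint (B a).interior (B b).interior) ∧
    (∀ i, bdry (g i) '' (B (i, false)).sphere = (B (i, true)).sphere) ∧
    (∀ i, bdry (g i) '' (B (i, false)).exterior = (B (i, true)).interior) ∧
    IsFundamentalDomain G {x | x ∈ Hyp n ∧ ∀ a, x ∉ (B a).halfSpace}

end Pool.Agent.Work.MP_d62ce9_gt
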