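import Pool.Agent.Work.MP_d62ce9_gt.LinDefs

/-!
# Lorentz geometry
-/

set_option autoImplicit false
set_option linter.unusedSectionVars false

open Filter Topology Set

namespace Pool.Agent.Work.MP_d62ce9_gt

variable {n : ℕ}

lemma lor_comm (u v : Mink n) : lor u v = lor v u := by
  simp only [lor, real_inner_comm, mul_comm]

lemma lor_add_left (u v w : Mink n) : lor (u + v) w = lor u w + lor v w := by
  simp only [lor, Prod.snd_add, Prod.fst_add, inner_add_left]; ring

lemma lor_add_right (u v w : Mink n) : lor u (v + w) = lor u v + lor u w := by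
  simp only [lor, Prod.snd_add, Prod.fst_add, inner_add_right]; ring

lemma lor_smul_left (c : ℝ) (u v : Mink n) : lor (c • u) v = c * lor u v := by
  simp only [lor, Prod.smul_snd, Prod.smul_fst, inner_smul_left, smul_eq_mul, conj_trivial]; ring

lemma lor_smul_right (c : ℝ) (u v : Mink n) : lor u (c • v) = c * lor u v := by
  simp only [lor, Prod.smul_snd, Prod.smul_fst, inner_smul_right, smul_eq_mul]; ring

lemma lor_neg_left (u v : Mink n) : lor (-u) v = - lor u v := by
  simp only [lor, Prod.snd_neg, Prod.fst_neg, inner_neg_left]; ring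

lemma lor_neg_right (u v : Mink n) : lor u (-v) = - lor u v := by
  simp only [lor, Prod.snd_neg, Prod.fst_neg, inner_neg_right]; ring

lemma lor_sub_left (u v w : Mink n) : lor (u - v) w = lor u w - lor v w := by
  simp only [lor, Prod.snd_sub, Prod.fst_sub, inner_sub_left]; ring

lemma lor_sub_right (u v w : Mink n) : lor u (v - w) = lor u v - lor u w := by
  simp only [lor, Prod.snd_sub, Prod.fst_sub, inner_sub_right]; ring

lemma lor_self (u : Mink n) : lor u u = ‖u.2‖ ^ 2 - u.1 ^ 2 := by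
  simp only [lor, real_inner_self_eq_norm_sq]; ring

lemma continuous_lor_left (v : Mink n) : Continuous fun u : Mink n => lor u v := by
  unfold lor; fun_prop

lemma continuous_lor_self : Continuous fun u : Mink n => lor u u := by
  unfold lor; fun_prop

/-- the base point. -/
def base (n : ℕ) : Mink n := (1, 0)

lemma base_mem : base n ∈ Hyp n := by
  refine ⟨?_, one_pos⟩
  simp [lor, base]

lemma lor_base (x : Mink n) : lor x (base n) = - x.1 := by
  simp [lor, base]

lemma Hyp.norm_sq {x : Mink n} (hx : x ∈ Hyp n) : ‖x.2‖ ^ 2 = x.1 ^ 2 - 1 := by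
  have := hx.1
  rw [lor_self] at this
  linarith

lemma Hyp.one_le {x : Mink n} (hx : x ∈ Hyp n) : 1 ≤ x.1 := by
  have h := Hyp.norm_sq hx
  have h0 := hx.2
  nlinarith [sq_nonneg ‖x.2‖]

lemma Hyp.norm_lt {x : Mink n} (hx : x ∈ Hyp n) : ‖x.2‖ < x.1 := by
  have h := Hyp.norm_sq hx
  have h0 := hx.2
  nlinarith [norm_nonneg x.2]

/-- two points of `ℍ^n` have Lorentz product at most `-1`. -/
lemma Hyp.lor_le {x y : Mink n} (hx : x ∈ Hyp n) (hy : y ∈ Hyp n) : lor x y ≤ -1 := by
  have h1 := Hyp.norm_sq hx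
  have h2 := Hyp.norm_sq hy
  have h3 : inner ℝ x.2 y.2 ≤ ‖x.2‖ * ‖y.2‖ := real_inner_le_norm _ _
  have h4 : ‖x.2‖ * ‖y.2‖ + 1 ≤ x.1 * y.1 := by
    refine (sq_le_sq₀ (by positivity) (mul_nonneg hx.2.le hy.2.le)).1 ?_
    nlinarith [sq_nonneg (‖x.2‖ - ‖y.2‖)]
  unfold lor
  linarith

/-- points in the closed future cone (nonzero) have negative product with points of `ℍ^n`. -/
lemma Hyp.lor_neg {x y : Mink n} (hx : x ∈ Hyp n) (hy : lor y y ≤ 0) (hy1 : 0 < y.1) :
    lor x y < 0 := by
  have h1 := Hyp.norm_lt hx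
  rw [lor_self] at hy
  have h2 : ‖y.2‖ ≤ y.1 := by
    exact (sq_le_sq₀ (norm_nonneg _) hy1.le).1 (by linarith)
  have h3 : inner ℝ x.2 y.2 ≤ ‖x.2‖ * ‖y.2‖ := real_inner_le_norm _ _
  unfold lor
  nlinarith [norm_nonneg x.2, norm_nonneg y.2, hx.2]

/-- a causal vector with negative product with some point of `ℍ^n` lies in the future. -/
lemma Hyp.fst_pos {x y : Mink n} (hx : x ∈ Hyp n) (hy : lor y y ≤ 0) (hxy : lor x y < 0) :
    0 < y.1 := by
  by_contra hcon
  push Not at hcon
  have h1 := Hyp.norm_lt hx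
  rw [lor_self] at hy
  have h2 : ‖y.2‖ ≤ -y.1 := by
    exact (sq_le_sq₀ (norm_nonneg _) (by linarith)).1 (by linarith)
  have h3 : -(‖x.2‖ * ‖y.2‖) ≤ inner ℝ x.2 y.2 := by
    have := abs_real_inner_le_norm x.2 y.2
    exact (abs_le.1 this).1
  unfold lor at hxy
  nlinarith [norm_nonneg x.2, norm_nonneg y.2, hx.2]

/-- the orthogonal complement of a point of `ℍ^n` is positive definite. -/
lemma Hyp.orth {x u : Mink n} (hx : x ∈ Hyp n) (hu : lor u x = 0) :
    ‖u.2‖ ^ 2 ≤ lor u u * x.1 ^ 2 := by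
  have h1 := Hyp.norm_sq hx
  have h2 : inner ℝ u.2 x.2 = u.1 * x.1 := by
    unfold lor at hu; linarith
  have h3 : (u.1 * x.1) ^ 2 ≤ ‖u.2‖ ^ 2 * ‖x.2‖ ^ 2 := by
    rw [← h2, ← mul_pow]
    apply sq_le_sq'
    · have := abs_real_inner_le_norm u.2 x.2
      exact (abs_le.1 this).1
    · exact real_inner_le_norm _ _
  rw [lor_self]
  rw [h1] at h3
  nlinarith

lemma Hyp.orth_nonneg {x u : Mink n} (hx : x ∈ Hyp n) (hu : lor u x = 0) : 0 ≤ lor u u := by
  have h := Hyp.orth hx hu
  have h1 := sq_nonneg ‖u.2‖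
  have h2 : 0 < x.1 ^ 2 := pow_pos hx.2 2
  by_contra hcon
  push Not at hcon
  nlinarith

lemma Hyp.orth_pos {x u : Mink n} (hx : x ∈ Hyp n) (hu : lor u x = 0) (hne : u ≠ 0) :
    0 < lor u u := by
  rcases (Hyp.orth_nonneg hx hu).lt_or_eq with h | h
  · exact h
  · exfalso
    have h1 := Hyp.orth hx hu
    rw [← h, zero_mul] at h1
    have h2 : ‖u.2‖ = 0 := by
      have := sq_nonneg ‖u.2‖
      exact pow_eq_zero_iff (two_ne_zero) |>.1 (le_antisymm h1 this)
    have h3 : u.2 = 0 := norm_eq_zero.1 h2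
    have h4 : u.1 = 0 := by
      unfold lor at hu
      rw [h3, inner_zero_left] at hu
      have := hx.2
      have : u.1 * x.1 = 0 := by linarith
      rcases mul_eq_zero.1 this with h | h
      · exact h
      · exact absurd h hx.2.ne'
    exact hne (Prod.ext h4 h3)

/-- Cauchy-Schwarz on the orthogonal complement of a point of `ℍ^n`. -/
lemma Hyp.orth_cs {x u w : Mink n} (hx : x ∈ Hyp n) (hu : lor u x = 0) (hw : lor w x = 0) :
    lor u w ^ 2 ≤ lor u u * lor w w := by
  have h : ∀ t : ℝ, 0 ≤ lor w w * (t * t) + 2 * lor u w * t + lor u u := by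
    intro t
    have h1 : lor (u + t • w) x = 0 := by
      rw [lor_add_left, lor_smul_left, hu, hw]; ring
    have h2 := Hyp.orth_nonneg hx h1
    rw [lor_add_left, lor_add_right, lor_add_right, lor_smul_left, lor_smul_left, lor_smul_right,
      lor_smul_right, lor_comm w u] at h2
    linarith
  have h3 := discrim_le_zero h
  unfold discrim at h3
  nlinarith

/-- The key inequality. -/
lemma Hyp.lor_abs_le {x z w : Mink n} (hx : x ∈ Hyp n) (hz : lor z z ≤ 0) (hw : lor w w ≤ 0) :
    |lor z w| ≤ 2 * (|lor x z| * |lor x w|) := by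
  set a := lor x z with ha
  set b := lor x w with hb
  have hxx := hx.1
  have h1 : lor (z + a • x) x = 0 := by
    rw [lor_add_left, lor_smul_left, hxx, lor_comm z x, ← ha]; ring
  have h2 : lor (w + b • x) x = 0 := by
    rw [lor_add_left, lor_smul_left, hxx, lor_comm w x, ← hb]; ring
  have h3 := Hyp.orth_cs hx h1 h2
  have e1 : lor (z + a • x) (w + b • x) = lor z w + a * b := by
    rw [lor_add_left, lor_add_right, lor_add_right, lor_smul_left, lor_smul_left, lor_smul_right,
      lor_smul_right, hxx, lor_comm z x, ← ha, ← hb]; ring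
  have e2 : lor (z + a • x) (z + a • x) = lor z z + a ^ 2 := by
    rw [lor_add_left, lor_add_right, lor_add_right, lor_smul_left, lor_smul_left, lor_smul_right,
      lor_smul_right, hxx, lor_comm z x, ← ha]; ring
  have e3 : lor (w + b • x) (w + b • x) = lor w w + b ^ 2 := by
    rw [lor_add_left, lor_add_right, lor_add_right, lor_smul_left, lor_smul_left, lor_smul_right,
      lor_smul_right, hxx, lor_comm w x, ← hb]; ring
  rw [e1, e2, e3] at h3
  have p2 : 0 ≤ lor z z + a ^ 2 := by rw [← e2]; exact Hyp.orth_nonneg hx h1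
  have p3 : 0 ≤ lor w w + b ^ 2 := by rw [← e3]; exact Hyp.orth_nonneg hx h2
  have h4 : (lor z w + a * b) ^ 2 ≤ (|a| * |b|) ^ 2 := by
    calc (lor z w + a * b) ^ 2 ≤ (lor z z + a ^ 2) * (lor w w + b ^ 2) := h3
      _ ≤ a ^ 2 * b ^ 2 := by
          apply mul_le_mul <;> nlinarith
      _ = (|a| * |b|) ^ 2 := by rw [mul_pow, sq_abs, sq_abs]
  have h5 : |lor z w + a * b| ≤ |a| * |b| := abs_le_of_sq_le_sq h4 (by positivity)
  calc |lor z w| = |(lor z w + a * b) - a * b| := by ring_nf
    _ ≤ |lor z w + a * b| + |a * b| := abs_sub _ _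
    _ ≤ |a| * |b| + |a| * |b| := by rw [abs_mul]; linarith
    _ = 2 * (|a| * |b|) := by ring

/-- existence of unit vectors orthogonal to two given vectors. -/
lemma exists_orth (hn : 2 ≤ n) {x : Mink n} (hx : x ∈ Hyp n) (ν : Mink n) :
    ∃ u : Mink n, lor u x = 0 ∧ lor u ν = 0 ∧ lor u u = 1 := by
  -- the linear map
  let f : Mink n →ₗ[ℝ] ℝ × ℝ :=
    { toFun := fun u => (lor u x, lor u ν)
      map_add' := fun u v => by simp [lor_add_left]
      map_smul' := fun c u => by simp [lor_smul_left] }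
  have hfin : Module.finrank ℝ (ℝ × ℝ) < Module.finrank ℝ (Mink n) := by
    rw [Module.finrank_prod, Module.finrank_prod, Module.finrank_self, finrank_euclideanSpace_fin]
    omega
  have hker : LinearMap.ker f ≠ ⊥ := LinearMap.ker_ne_bot_of_finrank_lt hfin
  obtain ⟨u, hu, hne⟩ := (Submodule.ne_bot_iff _).1 hker
  rw [LinearMap.mem_ker] at hu
  have h1 : lor u x = 0 := congrArg Prod.fst hu
  have h2 : lor u ν = 0 := congrArg Prod.snd hu
  have h3 := Hyp.orth_pos hx h1 hne
  refine ⟨(Real.sqrt (lor u u))⁻¹ • u, ?_, ?_, ?_⟩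
  · rw [lor_smul_left, h1, mul_zero]
  · rw [lor_smul_left, h2, mul_zero]
  · rw [lor_smul_left, lor_smul_right, ← mul_assoc, ← mul_inv, Real.mul_self_sqrt h3.le,
      inv_mul_cancel₀ h3.ne']

/-- normalisation of timelike vectors -/
lemma exists_smul_mem_Hyp {x : Mink n} (hx : lor x x < 0) (hx1 : 0 < x.1) :
    ∃ c : ℝ, 0 < c ∧ c • x ∈ Hyp n := by
  refine ⟨(Real.sqrt (-lor x x))⁻¹, ?_, ?_, ?_⟩
  · exact inv_pos.2 (Real.sqrt_pos.2 (by linarith))
  · rw [lor_smul_left, lor_smul_right, ← mul_assoc, ← mul_inv, Real.mul_self_sqrt (by linarith)]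
    rw [inv_mul_eq_div, div_eq_iff (by linarith)]; ring
  · have := inv_pos.2 (Real.sqrt_pos.2 (show 0 < -lor x x by linarith))
    exact mul_pos this hx1

end Pool.Agent.Work.MP_d62ce9_gt
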