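import Pool.Agent.Work.MP_d62ce9_gt.Lor

/-!
# From the sphere at infinity to hyperbolic space
-/

set_option autoImplicit false
set_option linter.unusedSectionVars false

open Filter Topology Set

namespace Pool.Agent.Work.MP_d62ce9_gt

variable {n : ℕ}

/-- the spacelike vector of a ball -/
def RoundBall.vec (B : RoundBall n) : Mink n := (B.level, B.center)

lemma RoundBall.lor_vec (B : RoundBall n) (x : Mink n) :
    lor x B.vec = inner ℝ x.2 B.center - x.1 * B.level := rfl

lemma RoundBall.vec_pos (B : RoundBall n) : 0 < lor B.vec B.vec := by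
  rw [lor_self]
  show 0 < ‖B.center‖ ^ 2 - B.level ^ 2
  rw [B.norm_center]
  nlinarith [B.level_gt, B.level_lt]

lemma inner_klein (x : Mink n) (c : EuclideanSpace ℝ (Fin n)) :
    inner ℝ (klein x) c = x.1⁻¹ * inner ℝ x.2 c := by
  simp [klein, inner_smul_left]

lemma RoundBall.mem_halfSpace_iff (B : RoundBall n) {x : Mink n} (hx : x ∈ Hyp n) :
    x ∈ B.halfSpace ↔ 0 ≤ lor x B.vec := by
  have h0 := hx.2
  unfold RoundBall.halfSpace
  rw [mem_ofPred_eq, inner_klein, B.lor_vec, inv_mul_eq_div, le_div_iff₀ h0]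
  constructor
  · rintro ⟨-, h⟩; linarith
  · intro h; exact ⟨hx, by linarith⟩

lemma klein_smul {c : ℝ} (hc : c ≠ 0) (x : Mink n) : klein (c • x) = klein x := by
  unfold klein
  rw [Prod.smul_fst, Prod.smul_snd, smul_smul, smul_eq_mul, mul_inv, mul_comm c⁻¹, mul_assoc,
    inv_mul_cancel₀ hc, mul_one]

/-- positive light vectors. -/
def Light (n : ℕ) : Set (Mink n) := {l | lor l l = 0 ∧ 0 < l.1}

lemma Light.norm_klein {l : Mink n} (hl : l ∈ Light n) : ‖klein l‖ = 1 := by
  have h1 := hl.1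
  have h0 := hl.2
  rw [lor_self] at h1
  have h2 : ‖l.2‖ = l.1 := by
    have : ‖l.2‖ ^ 2 = l.1 ^ 2 := by linarith
    exact (sq_eq_sq₀ (norm_nonneg _) h0.le).1 this
  unfold klein
  rw [norm_smul, Real.norm_eq_abs, abs_of_pos (inv_pos.2 h0), h2, inv_mul_cancel₀ h0.ne']

lemma Light.mk_klein {l : Mink n} (hl : l ∈ Light n) : ((1 : ℝ), klein l) = l.1⁻¹ • l := by
  have h0 := hl.2
  ext
  · simp [h0.ne']
  · rfl

lemma light_one {ξ : EuclideanSpace ℝ (Fin n)} (hξ : ‖ξ‖ = 1) : ((1 : ℝ), ξ) ∈ Light n := by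
  refine ⟨?_, one_pos⟩
  rw [lor_self]
  simp [hξ]

lemma klein_one (ξ : EuclideanSpace ℝ (Fin n)) : klein ((1 : ℝ), ξ) = ξ := by
  simp [klein]

lemma Light.lor_klein {l : Mink n} (hl : l ∈ Light n) (ν : Mink n) :
    lor ((1 : ℝ), klein l) ν = l.1⁻¹ * lor l ν := by
  rw [Light.mk_klein hl, lor_smul_left]

lemma RoundBall.mem_interior_iff (B : RoundBall n) {l : Mink n} (hl : l ∈ Light n) :
    klein l ∈ B.interior ↔ 0 < lor l B.vec := by
  have h0 := inv_pos.2 hl.2
  have h := Light.lor_klein hl B.vec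
  rw [B.lor_vec] at h
  simp only [one_mul] at h
  unfold RoundBall.interior
  rw [mem_ofPred_eq]
  constructor
  · rintro ⟨-, h1⟩
    have : 0 < l.1⁻¹ * lor l B.vec := by rw [← h]; linarith
    exact (mul_pos_iff_of_pos_left h0).1 this
  · intro h1
    refine ⟨Light.norm_klein hl, ?_⟩
    have : 0 < l.1⁻¹ * lor l B.vec := mul_pos h0 h1
    rw [← h] at this
    linarith

lemma RoundBall.mem_exterior_iff (B : RoundBall n) {l : Mink n} (hl : l ∈ Light n) :
    klein l ∈ B.exterior ↔ lor l B.vec < 0 := by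
  have h0 := inv_pos.2 hl.2
  have h := Light.lor_klein hl B.vec
  rw [B.lor_vec] at h
  simp only [one_mul] at h
  unfold RoundBall.exterior
  rw [mem_ofPred_eq]
  constructor
  · rintro ⟨-, h1⟩
    have : l.1⁻¹ * lor l B.vec < 0 := by rw [← h]; linarith
    by_contra hcon
    push Not at hcon
    exact absurd this (not_lt.2 (mul_nonneg h0.le hcon))
  · intro h1
    refine ⟨Light.norm_klein hl, ?_⟩
    have : l.1⁻¹ * lor l B.vec < 0 := mul_neg_of_pos_of_neg h0 h1
    rw [← h] at this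
    linarith

lemma RoundBall.mem_sphere_iff (B : RoundBall n) {l : Mink n} (hl : l ∈ Light n) :
    klein l ∈ B.sphere ↔ lor l B.vec = 0 := by
  have h0 := inv_pos.2 hl.2
  have h := Light.lor_klein hl B.vec
  rw [B.lor_vec] at h
  simp only [one_mul] at h
  unfold RoundBall.sphere
  rw [mem_ofPred_eq]
  constructor
  · rintro ⟨-, h1⟩
    have : l.1⁻¹ * lor l B.vec = 0 := by rw [← h]; linarith
    rcases mul_eq_zero.1 this with h2 | h2
    · exact absurd h2 h0.ne'
    · exact h2
  · intro h1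
    refine ⟨Light.norm_klein hl, ?_⟩
    rw [h1, mul_zero] at h
    linarith

lemma IsomH.lor {A : Mink n ≃ₗ[ℝ] Mink n} (hA : A ∈ IsomH n) (u v : Mink n) :
    lor (A u) (A v) = lor u v := hA.1 u v

lemma IsomH.hyp {A : Mink n ≃ₗ[ℝ] Mink n} (hA : A ∈ IsomH n) {x : Mink n} (hx : x ∈ Hyp n) :
    A x ∈ Hyp n := (hA.2 x).2 hx

lemma IsomH.light {A : Mink n ≃ₗ[ℝ] Mink n} (hA : A ∈ IsomH n) {l : Mink n} (hl : l ∈ Light n) :
    A l ∈ Light n := by
  have h1 : MP_d62ce9_gt.lor (A l) (A l) = 0 := by rw [IsomH.lor hA, hl.1]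
  refine ⟨h1, ?_⟩
  apply Hyp.fst_pos (IsomH.hyp hA (base_mem (n := n))) h1.le
  rw [IsomH.lor hA]
  exact Hyp.lor_neg base_mem hl.1.le hl.2

lemma IsomH.bdry_klein {A : Mink n ≃ₗ[ℝ] Mink n} {l : Mink n} (hl : l ∈ Light n) :
    bdry A (klein l) = klein (A l) := by
  unfold bdry
  rw [Light.mk_klein hl, map_smul, klein_smul (inv_ne_zero hl.2.ne')]

lemma Light.eq_smul_of_klein_eq {l m : Mink n} (hl : l ∈ Light n) (hm : m ∈ Light n)
    (h : klein l = klein m) : l = (l.1 / m.1) • m := by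
  have h1 := Light.mk_klein hl
  have h2 := Light.mk_klein hm
  rw [h, h2] at h1
  calc l = l.1 • (l.1⁻¹ • l) := by rw [smul_smul, mul_inv_cancel₀ hl.2.ne', one_smul]
    _ = l.1 • (m.1⁻¹ • m) := by rw [← h1]
    _ = (l.1 / m.1) • m := by rw [smul_smul, ← div_eq_mul_inv]

/-- the pairing on light vectors. -/
lemma pairing_light {A : Mink n ≃ₗ[ℝ] Mink n} (hA : A ∈ IsomH n) {B B' : RoundBall n}
    (hs : bdry A '' B.sphere = B'.sphere) (he : bdry A '' B.exterior = B'.interior)
    {l : Mink n} (hl : l ∈ Light n) :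
    (lor l B.vec < 0 ↔ 0 < lor (A l) B'.vec) ∧ (lor l B.vec = 0 ↔ lor (A l) B'.vec = 0) := by
  have hAl := IsomH.light hA hl
  have key : ∀ η : EuclideanSpace ℝ (Fin n), ‖η‖ = 1 → bdry A η = klein (A l) →
      ∃ c : ℝ, 0 < c ∧ ((1 : ℝ), η) = c • l := by
    intro η hη h
    have h1 : klein (A ((1 : ℝ), η)) = klein (A l) := h
    have h2 := Light.eq_smul_of_klein_eq (IsomH.light hA (light_one hη)) hAl h1
    refine ⟨(A ((1 : ℝ), η)).1 / (A l).1, div_pos (IsomH.light hA (light_one hη)).2 hAl.2, ?_⟩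
    rw [← map_smul] at h2
    exact A.injective h2
  refine ⟨⟨fun h => ?_, fun h => ?_⟩, ⟨fun h => ?_, fun h => ?_⟩⟩
  · rw [← B'.mem_interior_iff hAl, ← he, ← IsomH.bdry_klein hl]
    exact mem_image_of_mem _ ((B.mem_exterior_iff hl).2 h)
  · rw [← B'.mem_interior_iff hAl, ← he] at h
    obtain ⟨η, hη, hη2⟩ := h
    obtain ⟨c, hc, hc2⟩ := key η hη.1 hη2
    have h3 : klein ((1 : ℝ), η) ∈ B.exterior := by rw [klein_one]; exact hη
    rw [B.mem_exterior_iff (light_one hη.1), hc2, lor_smul_left] at h3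
    by_contra hcon
    push Not at hcon
    exact absurd h3 (not_lt.2 (mul_nonneg hc.le hcon))
  · rw [← B'.mem_sphere_iff hAl, ← hs, ← IsomH.bdry_klein hl]
    exact mem_image_of_mem _ ((B.mem_sphere_iff hl).2 h)
  · rw [← B'.mem_sphere_iff hAl, ← hs] at h
    obtain ⟨η, hη, hη2⟩ := h
    obtain ⟨c, hc, hc2⟩ := key η hη.1 hη2
    have h3 : klein ((1 : ℝ), η) ∈ B.sphere := by rw [klein_one]; exact hη
    rw [B.mem_sphere_iff (light_one hη.1), hc2, lor_smul_left] at h3
    rcases mul_eq_zero.1 h3 with h4 | h4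
    · exact absurd h4 hc.ne'
    · exact h4

lemma light_add {x u : Mink n} (hx : x ∈ Hyp n) (h1 : lor u x = 0) (h2 : lor u u = 1) :
    x + u ∈ Light n := by
  have h3 : lor (x + u) (x + u) = 0 := by
    rw [lor_add_left, lor_add_right, lor_add_right, hx.1, h2, h1, lor_comm x u, h1]; ring
  refine ⟨h3, ?_⟩
  apply Hyp.fst_pos hx h3.le
  rw [lor_add_right, hx.1, lor_comm x u, h1]; norm_num

lemma light_sub {x u : Mink n} (hx : x ∈ Hyp n) (h1 : lor u x = 0) (h2 : lor u u = 1) :
    x - u ∈ Light n := by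
  rw [sub_eq_add_neg]
  apply light_add hx
  · rw [lor_neg_left, h1, neg_zero]
  · rw [lor_neg_left, lor_neg_right, neg_neg, h2]

/-- the pairing on points of hyperbolic space. -/
lemma pairing (hn : 2 ≤ n) {A : Mink n ≃ₗ[ℝ] Mink n} (hA : A ∈ IsomH n) {B B' : RoundBall n}
    (hs : bdry A '' B.sphere = B'.sphere) (he : bdry A '' B.exterior = B'.interior)
    {x : Mink n} (hx : x ∈ Hyp n) :
    (lor x B.vec < 0 → 0 < lor (A x) B'.vec) ∧ (lor x B.vec = 0 → lor (A x) B'.vec = 0) ∧
      (0 < lor x B.vec → lor (A x) B'.vec < 0) := by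
  refine ⟨fun h => ?_, fun h => ?_, fun h => ?_⟩
  · obtain ⟨u, hu1, hu2, hu3⟩ := exists_orth hn hx B.vec
    have hp := light_add hx hu1 hu3
    have hm := light_sub hx hu1 hu3
    have h1 := (pairing_light hA hs he hp).1.1 (by rw [lor_add_left, hu2]; linarith)
    have h2 := (pairing_light hA hs he hm).1.1 (by rw [lor_sub_left, hu2]; linarith)
    rw [map_add, lor_add_left] at h1
    rw [map_sub, lor_sub_left] at h2
    linarith
  · obtain ⟨u, hu1, hu2, hu3⟩ := exists_orth hn hx B.vec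
    have hp := light_add hx hu1 hu3
    have hm := light_sub hx hu1 hu3
    have h1 := (pairing_light hA hs he hp).2.1 (by rw [lor_add_left, hu2]; linarith)
    have h2 := (pairing_light hA hs he hm).2.1 (by rw [lor_sub_left, hu2]; linarith)
    rw [map_add, lor_add_left] at h1
    rw [map_sub, lor_sub_left] at h2
    linarith
  · by_contra hcon
    push Not at hcon
    obtain ⟨u, hu1, hu2, hu3⟩ := exists_orth hn hx (A.symm B'.vec)
    have hu4 : lor (A u) B'.vec = 0 := by
      rw [← IsomH.lor hA, LinearEquiv.apply_symm_apply] at hu2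
      exact hu2
    have hp := light_add hx hu1 hu3
    have hm := light_sub hx hu1 hu3
    rcases hcon.lt_or_eq with h0 | h0
    · have h1 := (pairing_light hA hs he hp).1.2 (by rw [map_add, lor_add_left, hu4]; linarith)
      have h2 := (pairing_light hA hs he hm).1.2 (by rw [map_sub, lor_sub_left, hu4]; linarith)
      rw [lor_add_left] at h1
      rw [lor_sub_left] at h2
      linarith
    · have h1 := (pairing_light hA hs he hp).2.2 (by rw [map_add, lor_add_left, hu4]; linarith)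
      have h2 := (pairing_light hA hs he hm).2.2 (by rw [map_sub, lor_sub_left, hu4]; linarith)
      rw [lor_add_left] at h1
      rw [lor_sub_left] at h2
      linarith

/-- disjointness of half-spaces from disjointness of balls. -/
lemma disjoint_half (hn : 2 ≤ n) {B B' : RoundBall n} (h : Disjoint B.interior B'.interior)
    {x : Mink n} (hx : x ∈ Hyp n) : ¬ (0 < lor x B.vec ∧ 0 < lor x B'.vec) := by
  rintro ⟨h1, h2⟩
  obtain ⟨u, hu1, hu2, hu3⟩ := exists_orth hn hx B.vec
  rcases le_total 0 (lor u B'.vec) with hu4 | hu4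
  · have hp := light_add hx hu1 hu3
    refine Set.disjoint_left.1 h ((B.mem_interior_iff hp).2 ?_) ((B'.mem_interior_iff hp).2 ?_)
    · rw [lor_add_left, hu2]; linarith
    · rw [lor_add_left]; linarith
  · have hm := light_sub hx hu1 hu3
    refine Set.disjoint_left.1 h ((B.mem_interior_iff hm).2 ?_) ((B'.mem_interior_iff hm).2 ?_)
    · rw [lor_sub_left, hu2]; linarith
    · rw [lor_sub_left]; linarith

end Pool.Agent.Work.MP_d62ce9_gt
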