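import Pool.Agent.Work.MP_d62ce9_gt.Estimates
import Pool.Agent.Work.MP_d62ce9_gt.Pairing

/-!
# Ping-pong: the group is free of rank two
-/

set_option autoImplicit false
set_option linter.unusedSectionVars false

open Filter Topology Set
open scoped Pointwise Function

namespace Pool.Agent.Work.MP_d62ce9_gt

/-- Commutative free groups are cyclic. -/
lemma isCyclic_of_free_comm {K : Type*} [Group K] [IsFreeGroup K]
    (h : ∀ a b : K, a * b = b * a) : IsCyclic K := by
  classical
  let e := IsFreeGroup.toFreeGroup K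
  have hc : ∀ a b : FreeGroup (IsFreeGroup.Generators K), a * b = b * a := by
    intro a b
    have := h (e.symm a) (e.symm b)
    apply_fun e at this
    simpa using this
  have hsub : Subsingleton (IsFreeGroup.Generators K) := by
    refine ⟨fun a b => ?_⟩
    by_contra hab
    let f : IsFreeGroup.Generators K → Equiv.Perm (Fin 3) := fun x =>
      if x = a then Equiv.swap 0 1 else Equiv.swap 1 2
    have h1 := congrArg (FreeGroup.lift f) (hc (FreeGroup.of a) (FreeGroup.of b))
    rw [map_mul, map_mul, FreeGroup.lift_apply_of, FreeGroup.lift_apply_of] at h1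
    have ha : f a = Equiv.swap 0 1 := if_pos rfl
    have hb : f b = Equiv.swap 1 2 := if_neg (fun h => hab h.symm)
    rw [ha, hb] at h1
    revert h1
    decide
  have hcyc : IsCyclic (FreeGroup (IsFreeGroup.Generators K)) := by
    rcases isEmpty_or_nonempty (IsFreeGroup.Generators K) with he | ⟨⟨x⟩⟩
    · infer_instance
    · refine ⟨⟨FreeGroup.of x, fun y => ?_⟩⟩
      have h1 : y ∈ Subgroup.closure (range (FreeGroup.of (α := IsFreeGroup.Generators K))) := by
        rw [FreeGroup.closure_range_of]; trivial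
      have h2 : range (FreeGroup.of (α := IsFreeGroup.Generators K)) ⊆ {FreeGroup.of x} := by
        rintro _ ⟨z, rfl⟩
        rw [Subsingleton.elim z x]
        rfl
      have h3 := Subgroup.closure_mono h2 h1
      rwa [← Subgroup.zpowers_eq_closure] at h3
  exact isCyclic_of_surjective e.symm.toMonoidHom e.symm.surjective

variable {n : ℕ}

namespace Frame

variable (Φ : Frame n)

/-- the two generators -/
noncomputable def gens (b : Bool) : Mink n ≃ₗ[ℝ] Mink n := if b then Φ.g else Φ.h

/-- the ping-pong sets -/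
def pp (b : Bool) : Set (Mink n) :=
  {x | x ∈ Hyp n ∧ if b then Φ.P x < Φ.Q x else Φ.Q x < Φ.P x}

lemma h_zpow (k : ℤ) : Φ.h ^ k = Φ.J * Φ.g ^ k * Φ.J := by
  have h1 : Φ.h = MulAut.conj Φ.J Φ.g := by
    rw [MulAut.conj_apply, J_inv]; rfl
  rw [h1, ← map_zpow, MulAut.conj_apply, J_inv]

lemma injective_lift : Function.Injective (FreeGroup.lift Φ.gens) := by
  have key : FreeGroup.lift Φ.gens =
      (Monoid.CoprodI.lift fun i => FreeGroup.lift fun _ => Φ.gens i).comp
        (@freeGroupEquivCoprodI Bool).toMonoidHom := by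
    apply FreeGroup.ext_hom
    intro i
    rw [FreeGroup.lift_apply_of]
    simp [freeGroupEquivCoprodI]
  rw [key, MonoidHom.coe_comp]
  refine Function.Injective.comp ?_ (MulEquiv.injective freeGroupEquivCoprodI)
  let H : Bool → Type _ := fun _i => FreeGroup Unit
  let f : ∀ i, H i →* (Mink n ≃ₗ[ℝ] Mink n) := fun i => FreeGroup.lift fun _ => Φ.gens i
  have hgb : Φ.g (base n) ∈ Φ.pp true := by
    refine ⟨IsomH.hyp Φ.g_mem_IsomH base_mem, ?_⟩
    have := Φ.ping (k := 1) base_mem (by
      unfold Q P S base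
      simp) one_ne_zero
    rw [zpow_one] at this
    simpa using this
  apply Monoid.CoprodI.lift_injective_of_ping_pong (H := H) f _ Φ.pp
  · -- nonempty
    intro i
    cases i
    · refine ⟨Φ.J (Φ.g (base n)), Φ.J_hyp hgb.1, ?_⟩
      have h1 := hgb.2
      simp only [if_true] at h1
      simp only [J_apply, P_j, Q_j, Bool.false_eq_true, if_false]
      exact h1
    · exact ⟨_, hgb⟩
  · -- disjoint
    intro i j hij
    rw [Function.onFun, Set.disjoint_left]
    rintro x ⟨-, hi⟩ ⟨-, hj⟩
    cases i <;> cases j <;> simp only [Bool.false_eq_true, if_false, if_true] at hi hj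
    · exact hij rfl
    · linarith
    · linarith
    · exact hij rfl
  · -- ping-pong
    show Pairwise fun i j => ∀ h : H i, h ≠ 1 → f i h • Φ.pp j ⊆ Φ.pp i
    rintro i j hij
    refine FreeGroup.freeGroupUnitEquivInt.forall_congr_left.mpr ?_
    intro m hne1
    change FreeGroup.lift (fun _ => Φ.gens i) (FreeGroup.of () ^ m) • Φ.pp j ⊆ Φ.pp i
    simp only [map_zpow, FreeGroup.lift_apply_of]
    have hm : m ≠ 0 := by
      rintro rfl
      apply hne1
      simp [H, FreeGroup.freeGroupUnitEquivInt]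
    clear hne1
    rintro _ ⟨x, ⟨hx, hxj⟩, rfl⟩
    cases i <;> cases j <;> simp only [Bool.false_eq_true, if_false, if_true] at hxj
    · exact absurd rfl hij
    · -- h acts
      have e : (Φ.gens false ^ m) • x = Φ.J ((Φ.g ^ m) (Φ.J x)) := by
        show (Φ.gens false ^ m) x = _
        have : Φ.gens false = Φ.h := rfl
        rw [this, h_zpow]
        rfl
      show (Φ.gens false ^ m) • x ∈ Φ.pp false
      rw [e]
      have hJx := Φ.J_hyp hx
      have h1 := Φ.ping hJx (by rw [J_apply, P_j, Q_j]; exact hxj.le) hm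
      refine ⟨Φ.J_hyp (Φ.g_zpow_hyp m hJx), ?_⟩
      simp only [Bool.false_eq_true, if_false]
      rw [J_apply, P_j, Q_j]
      exact h1
    · have e : (Φ.gens true ^ m) • x = (Φ.g ^ m) x := rfl
      show (Φ.gens true ^ m) • x ∈ Φ.pp true
      rw [e]
      refine ⟨Φ.g_zpow_hyp m hx, ?_⟩
      simp only [if_true]
      exact Φ.ping hx hxj.le hm
    · exact absurd rfl hij
  · right
    refine ⟨true, ?_⟩
    simp only [H]
    rw [FreeGroup.freeGroupUnitEquivInt.cardinal_eq, Cardinal.mk_denumerable]
    exact Cardinal.natCast_le_aleph0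

lemma range_lift : (FreeGroup.lift Φ.gens).range = Φ.G := by
  rw [FreeGroup.range_lift_eq_closure]
  unfold G
  congr 1
  ext A
  constructor
  · rintro ⟨b, rfl⟩
    cases b
    · exact Or.inr rfl
    · exact Or.inl rfl
  · rintro (rfl | rfl)
    · exact ⟨true, rfl⟩
    · exact ⟨false, rfl⟩

/-- `G` is free on two generators. -/
noncomputable def freeEquiv : FreeGroup Bool ≃* Φ.G :=
  (MonoidHom.ofInjective Φ.injective_lift).trans (MulEquiv.subgroupCongr Φ.range_lift)

theorem torsionFree {A : Mink n ≃ₗ[ℝ] Mink n} (hA : A ∈ Φ.G) {m : ℕ} (hm : m ≠ 0)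
    (h : A ^ m = 1) : A = 1 := by
  let a : Φ.G := ⟨A, hA⟩
  have h1 : a ^ m = 1 := Subtype.ext h
  have h2 : (Φ.freeEquiv.symm a) ^ m = 1 ^ m := by rw [← map_pow, h1, map_one, one_pow]
  have h3 := IsMulTorsionFree.pow_left_injective hm h2
  have h4 : a = 1 := by
    apply Φ.freeEquiv.symm.injective
    rw [map_one]
    exact h3
  exact congrArg Subtype.val h4

theorem abelian_cyclic (K : Subgroup (Mink n ≃ₗ[ℝ] Mink n)) (hK : K ≤ Φ.G)
    (hc : ∀ A ∈ K, ∀ B ∈ K, A * B = B * A) : IsCyclic K := by
  have hfree : IsFreeGroup Φ.G := IsFreeGroup.ofMulEquiv Φ.freeEquiv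
  have hfree2 : IsFreeGroup (K.subgroupOf Φ.G) := subgroupIsFreeOfIsFree _
  have hfree3 : IsFreeGroup K := IsFreeGroup.ofMulEquiv (Subgroup.subgroupOfEquivOfLe hK)
  exact isCyclic_of_free_comm fun a b => Subtype.ext (hc a a.2 b b.2)

lemma fg : Φ.G.FG := by
  classical
  unfold G
  exact ⟨insert Φ.g {Φ.h}, by rw [Finset.coe_insert, Finset.coe_singleton]⟩

end Frame

end Pool.Agent.Work.MP_d62ce9_gt
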