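import Pool.Agent.Work.MP_d62ce9_gt.Words
import Pool.Agent.Work.MP_d62ce9_gt.PingPong

/-!
# The group is not of classical Schottky type
-/

set_option autoImplicit false
set_option linter.unusedSectionVars false

open Filter Topology Set

namespace Pool.Agent.Work.MP_d62ce9_gt

variable {n : ℕ}

/-- a spacelike vector has points of `ℍ^n` on its positive side -/
lemma exists_lor_pos {ν : Mink n} (h : 0 < lor ν ν) : ∃ x ∈ Hyp n, 0 < lor x ν := by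
  rw [lor_self] at h
  have h0 : |ν.1| < ‖ν.2‖ := by
    have : |ν.1| ^ 2 < ‖ν.2‖ ^ 2 := by rw [sq_abs]; linarith
    exact lt_of_pow_lt_pow_left₀ 2 (norm_nonneg _) this
  have hpos : 0 < ‖ν.2‖ := lt_of_le_of_lt (abs_nonneg _) h0
  -- the point `(‖ν.2‖, (‖ν.2‖ + |ν.1|) / 2 • unit)`
  set β := (‖ν.2‖ + |ν.1|) / 2 with hβ
  let z : Mink n := (‖ν.2‖ ^ 2, β • ν.2)
  have hz : lor z z < 0 := by
    rw [lor_self]
    show ‖β • ν.2‖ ^ 2 - (‖ν.2‖ ^ 2) ^ 2 < 0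
    rw [norm_smul, mul_pow, Real.norm_eq_abs, sq_abs]
    have h1 : β < ‖ν.2‖ := by rw [hβ]; linarith
    have h2 : 0 ≤ β := by positivity
    have h3 : β ^ 2 < ‖ν.2‖ ^ 2 := by nlinarith
    nlinarith [sq_nonneg ‖ν.2‖, mul_pos hpos hpos]
  have hz1 : 0 < z.1 := by show 0 < ‖ν.2‖ ^ 2; positivity
  obtain ⟨c, hc, hmem⟩ := exists_smul_mem_Hyp hz hz1
  refine ⟨c • z, hmem, ?_⟩
  rw [lor_smul_left]
  apply mul_pos hc
  show 0 < inner ℝ (β • ν.2) ν.2 - ‖ν.2‖ ^ 2 * ν.1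
  rw [real_inner_smul_left, real_inner_self_eq_norm_sq]
  have h1 : ν.1 ≤ |ν.1| := le_abs_self _
  have h2 : ν.1 < β := by rw [hβ]; linarith
  nlinarith [mul_pos hpos hpos]

lemma exists_lor_neg {ν : Mink n} (h : 0 < lor ν ν) : ∃ x ∈ Hyp n, lor x ν < 0 := by
  obtain ⟨x, hx, h1⟩ := exists_lor_pos (ν := -ν) (by rw [lor_neg_left, lor_neg_right]; linarith)
  refine ⟨x, hx, ?_⟩
  rw [lor_neg_right] at h1
  linarith

/-- a quadratic polynomial which is nonnegative at arbitrarily large arguments -/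
lemma quad_nonneg {a b c : ℝ} (h : ∀ j : ℕ, 0 ≤ c + b * j + a * j ^ 2) : 0 ≤ a := by
  by_contra hcon
  push Not at hcon
  obtain ⟨j, hj⟩ := exists_nat_gt ((|b| + |c| + 1) / (-a))
  have ha : 0 < -a := by linarith
  rw [div_lt_iff₀ ha] at hj
  have h1 := h (j + 1)
  push_cast at h1
  have hj0 : (0 : ℝ) ≤ j := Nat.cast_nonneg j
  have hb := le_abs_self b
  have hc := le_abs_self c
  have hb0 := abs_nonneg b
  have hc0 := abs_nonneg c
  nlinarith [mul_nonneg hj0 hb0, mul_nonneg hj0 hc0]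

lemma lin_nonneg {b c : ℝ} (h : ∀ j : ℕ, 0 ≤ c + b * j) : 0 ≤ b := by
  by_contra hcon
  push Not at hcon
  obtain ⟨j, hj⟩ := exists_nat_gt (|c| / (-b))
  have ha : 0 < -b := by linarith
  rw [div_lt_iff₀ ha] at hj
  have h1 := h j
  have hc := le_abs_self c
  nlinarith

namespace Frame

variable (Φ : Frame n)

lemma lor_tau_left (a b : ℝ) (x ν : Mink n) : lor (Φ.tau a b x) ν =
    lor x ν + Φ.P x * (a * Φ.E ν + b * Φ.F ν) - Φ.dl a b x * Φ.P ν := by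
  rw [tau_apply]
  simp only [lor, tauFun, inner_add_left, inner_smul_left, conj_trivial]
  have c1 : inner ℝ Φ.e ν.2 = Φ.E ν := real_inner_comm _ _
  have c2 : inner ℝ Φ.f ν.2 = Φ.F ν := real_inner_comm _ _
  have c3 : inner ℝ Φ.N ν.2 = Φ.S ν := real_inner_comm _ _
  rw [c1, c2, c3]
  unfold P
  ring

/-- The classification of nested half-spaces of `g`. -/
lemma nested {ν : Mink n} (hν : 0 < lor ν ν)
    (h : ∀ x ∈ Hyp n, 0 < lor x ν → 0 < lor (Φ.g x) ν) :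
    0 < Φ.E ν ∧ ∀ x : Mink n, lor x ν = Φ.E ν * Φ.E x - ν.1 * Φ.P x := by
  -- iterate
  have hm : ∀ (m : ℕ), ∀ x ∈ Hyp n, 0 < lor x ν → 0 < lor ((Φ.g ^ m) x) ν := by
    intro m
    induction m with
    | zero => intro x hx h0; exact h0
    | succ m ih =>
      intro x hx h0
      have e : (Φ.g ^ (m + 1)) x = Φ.g ((Φ.g ^ m) x) := by rw [pow_succ']; rfl
      rw [e]
      apply h _ _ (ih x hx h0)
      have := Φ.g_zpow_hyp m hx
      rwa [zpow_natCast] at this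
  have hj : ∀ j : ℕ, ∀ x ∈ Hyp n, 0 < lor x ν → 0 < lor (Φ.tau (5 / 2 * j) 0 x) ν := by
    intro j x hx h0
    have h1 := hm (2 * j) x hx h0
    have h2 := Φ.g_zpow_even j
    have h3 : Φ.g ^ (2 * (j : ℤ)) = Φ.g ^ (2 * j : ℕ) := by
      rw [← zpow_natCast]; push_cast; rfl
    rw [← h3, h2] at h1
    have h4 : (5 / 4 * ((2 * (j : ℤ) : ℤ) : ℝ)) = 5 / 2 * j := by push_cast; ring
    rwa [h4] at h1
  have hj' : ∀ j : ℕ, ∀ x ∈ Hyp n, lor x ν ≤ 0 → lor (Φ.tau (-(5 / 2 * j)) 0 x) ν ≤ 0 := by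
    intro j x hx h0
    by_contra hcon
    push Not at hcon
    have h1 := hj j _ ((Φ.tau_mem _ _).2 x |>.2 hx) hcon
    have h2 : Φ.tau (5 / 2 * j) 0 (Φ.tau (-(5 / 2 * j)) 0 x) = x := by
      have := Φ.tau_mul (5 / 2 * j) 0 (-(5 / 2 * j)) 0
      rw [add_neg_cancel, add_zero, tau_zero] at this
      exact congrArg (fun A => A x) this
    rw [h2] at h1
    linarith
  -- `P ν ≤ 0`
  obtain ⟨x, hx, hx0⟩ := exists_lor_pos hν
  have hPx := Φ.hyp_P_pos hx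
  have hP1 : Φ.P ν ≤ 0 := by
    have h1 : 0 ≤ -(Φ.P x * (25 / 8) * Φ.P ν) := by
      apply quad_nonneg (a := -(Φ.P x * (25 / 8) * Φ.P ν))
        (b := Φ.P x * (5 / 2) * Φ.E ν - 5 / 2 * Φ.E x * Φ.P ν) (c := lor x ν)
      intro j
      have h2 := hj j x hx hx0
      rw [lor_tau_left] at h2
      unfold dl at h2
      have e : lor x ν + (Φ.P x * (5 / 2) * Φ.E ν - 5 / 2 * Φ.E x * Φ.P ν) * j +
          -(Φ.P x * (25 / 8) * Φ.P ν) * j ^ 2 =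
          lor x ν + Φ.P x * (5 / 2 * ↑j * Φ.E ν + 0 * Φ.F ν) -
            (5 / 2 * ↑j * Φ.E x + 0 * Φ.F x + Φ.P x * ((5 / 2 * ↑j) ^ 2 + 0 ^ 2) / 2) * Φ.P ν := by
        ring
      rw [e]
      exact h2.le
    nlinarith
  -- `P ν ≥ 0`
  obtain ⟨y, hy, hy0⟩ := exists_lor_neg hν
  have hPy := Φ.hyp_P_pos hy
  have hP2 : 0 ≤ Φ.P ν := by
    have h1 : 0 ≤ Φ.P y * (25 / 8) * Φ.P ν := by
      apply quad_nonneg (a := Φ.P y * (25 / 8) * Φ.P ν)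
        (b := Φ.P y * (5 / 2) * Φ.E ν - 5 / 2 * Φ.E y * Φ.P ν) (c := -lor y ν)
      intro j
      have h2 := hj' j y hy hy0.le
      rw [lor_tau_left] at h2
      unfold dl at h2
      have e : -lor y ν + (Φ.P y * (5 / 2) * Φ.E ν - 5 / 2 * Φ.E y * Φ.P ν) * j +
          (Φ.P y * (25 / 8) * Φ.P ν) * j ^ 2 =
          -(lor y ν + Φ.P y * (-(5 / 2 * ↑j) * Φ.E ν + 0 * Φ.F ν) -
            (-(5 / 2 * ↑j) * Φ.E y + 0 * Φ.F y + Φ.P y * ((-(5 / 2 * ↑j)) ^ 2 + 0 ^ 2) / 2) *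
              Φ.P ν) := by
        ring
      rw [e]
      linarith
    by_contra hcon
    push Not at hcon
    nlinarith
  have hP : Φ.P ν = 0 := le_antisymm hP1 hP2
  have hS : Φ.S ν = ν.1 := by unfold P at hP; linarith
  -- `E ν ≥ 0`
  have hE : 0 ≤ Φ.E ν := by
    have h1 : 0 ≤ Φ.P x * (5 / 2) * Φ.E ν := by
      apply lin_nonneg (b := Φ.P x * (5 / 2) * Φ.E ν) (c := lor x ν)
      intro j
      have h2 := hj j x hx hx0
      rw [lor_tau_left, hP] at h2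
      have e : lor x ν + Φ.P x * (5 / 2) * Φ.E ν * j =
          lor x ν + Φ.P x * (5 / 2 * ↑j * Φ.E ν + 0 * Φ.F ν) - Φ.dl (5 / 2 * ↑j) 0 x * 0 := by
        ring
      rw [e]
      exact h2.le
    by_contra hcon
    push Not at hcon
    nlinarith
  -- the orthogonal part vanishes
  set w := ν.2 - Φ.E ν • Φ.e - ν.1 • Φ.N with hw
  have hwe : inner ℝ w Φ.e = (0 : ℝ) := by
    have : inner ℝ ν.2 Φ.e = Φ.E ν := rfl
    rw [hw, inner_sub_left, inner_sub_left, real_inner_smul_left, real_inner_smul_left, Φ.ee, Φ.Ne,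
      this]
    ring
  have hwN : inner ℝ w Φ.N = (0 : ℝ) := by
    have : inner ℝ ν.2 Φ.N = Φ.S ν := rfl
    rw [hw, inner_sub_left, inner_sub_left, real_inner_smul_left, real_inner_smul_left, Φ.eN, Φ.NN,
      this, hS]
    ring
  have hν2 : ν.2 = w + Φ.E ν • Φ.e + ν.1 • Φ.N := by rw [hw]; abel
  have hwν : inner ℝ w ν.2 = ‖w‖ ^ 2 := by
    conv_lhs => rw [hν2]
    rw [inner_add_right, inner_add_right, real_inner_smul_right, real_inner_smul_right, hwe, hwN,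
      real_inner_self_eq_norm_sq]
    ring
  have hNν : inner ℝ Φ.N ν.2 = ν.1 := by
    rw [real_inner_comm]; exact hS
  have hw0 : ‖w‖ ^ 2 = 0 := by
    by_contra hne
    have hpos : 0 < ‖w‖ ^ 2 := lt_of_le_of_ne (sq_nonneg _) (Ne.symm hne)
    obtain ⟨s, hs⟩ := exists_nat_gt ((|ν.1| + |5 / 4 * Φ.E ν - 101 * Φ.F ν|) / ‖w‖ ^ 2)
    rw [div_lt_iff₀ hpos] at hs
    have hs0 : (0 : ℝ) ≤ s := Nat.cast_nonneg s
    set z : Mink n := (1 + (s * ‖w‖) ^ 2 / 2, (s : ℝ) • w + ((s * ‖w‖) ^ 2 / 2) • Φ.N) with hz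
    have hzS : Φ.S z = (s * ‖w‖) ^ 2 / 2 := by
      show inner ℝ ((s : ℝ) • w + ((s * ‖w‖) ^ 2 / 2) • Φ.N) Φ.N = _
      rw [inner_add_left, real_inner_smul_left, real_inner_smul_left, hwN, Φ.NN]
      ring
    have hzE : Φ.E z = 0 := by
      show inner ℝ ((s : ℝ) • w + ((s * ‖w‖) ^ 2 / 2) • Φ.N) Φ.e = _
      rw [inner_add_left, real_inner_smul_left, real_inner_smul_left, hwe, Φ.Ne]
      ring
    have hzP : Φ.P z = 1 := by
      unfold P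
      rw [hzS]
      show 1 + (s * ‖w‖) ^ 2 / 2 - (s * ‖w‖) ^ 2 / 2 = 1
      ring
    have hzm : z ∈ Hyp n := by
      refine ⟨?_, ?_⟩
      · have hNw : inner ℝ Φ.N w = (0 : ℝ) := by rw [real_inner_comm]; exact hwN
        show inner ℝ ((s : ℝ) • w + ((s * ‖w‖) ^ 2 / 2) • Φ.N)
          ((s : ℝ) • w + ((s * ‖w‖) ^ 2 / 2) • Φ.N) -
            (1 + (s * ‖w‖) ^ 2 / 2) * (1 + (s * ‖w‖) ^ 2 / 2) = -1
        rw [inner_add_left, inner_add_right, inner_add_right]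
        have hww : inner ℝ w w = ‖w‖ ^ 2 := real_inner_self_eq_norm_sq w
        simp only [real_inner_smul_left, real_inner_smul_right, hwN, hNw, Φ.NN, hww]
        ring
      · show 0 < 1 + (s * ‖w‖) ^ 2 / 2
        positivity
    have hzν : lor z ν = s * ‖w‖ ^ 2 - ν.1 := by
      show inner ℝ ((s : ℝ) • w + ((s * ‖w‖) ^ 2 / 2) • Φ.N) ν.2 -
        (1 + (s * ‖w‖) ^ 2 / 2) * ν.1 = _
      rw [inner_add_left, real_inner_smul_left, real_inner_smul_left, hwν, hNν]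
      ring
    have h1 : 0 < lor z ν := by
      rw [hzν]
      have := le_abs_self ν.1
      have := abs_nonneg (5 / 4 * Φ.E ν - 101 * Φ.F ν)
      linarith
    have h2 := h z hzm h1
    have e1 : Φ.g z = Φ.tau (5 / 4) (-101) (Φ.uFun z) := rfl
    rw [e1, lor_tau_left, hP, P_u, hzP] at h2
    have e2 : lor (Φ.uFun z) ν = -(s * ‖w‖ ^ 2) - ν.1 := by
      have e3 : lor (Φ.uFun z) ν =
        inner ℝ ((2 * Φ.E z) • Φ.e + (2 * Φ.S z) • Φ.N - z.2) ν.2 - z.1 * ν.1 := rfl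
      have e4 : inner ℝ z.2 ν.2 = lor z ν + z.1 * ν.1 := by unfold lor; ring
      rw [e3, hzE, hzS, inner_sub_left, inner_add_left, real_inner_smul_left,
        real_inner_smul_left, hNν, e4, hzν]
      show _ - (s * ‖w‖ ^ 2 - ν.1 + (1 + (s * ‖w‖) ^ 2 / 2) * ν.1) -
        (1 + (s * ‖w‖) ^ 2 / 2) * ν.1 = _
      ring
    rw [e2] at h2
    have h3 := neg_abs_le ν.1
    have h4 := le_abs_self (5 / 4 * Φ.E ν - 101 * Φ.F ν)
    linarith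
  have hw00 : w = 0 := by
    have : ‖w‖ = 0 := by
      rcases pow_eq_zero_iff (two_ne_zero) |>.1 hw0 with h
      exact h
    exact norm_eq_zero.1 this
  rw [hw00, zero_add] at hν2
  have hform : ∀ x : Mink n, lor x ν = Φ.E ν * Φ.E x - ν.1 * Φ.P x := by
    intro x
    have e : lor x ν = inner ℝ x.2 ν.2 - x.1 * ν.1 := rfl
    rw [e, hν2, inner_add_right, real_inner_smul_right, real_inner_smul_right]
    unfold P
    have e1 : inner ℝ x.2 Φ.e = Φ.E x := rfl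
    have e2 : inner ℝ x.2 Φ.N = Φ.S x := rfl
    rw [e1, e2]
    ring
  refine ⟨?_, hform⟩
  rcases hE.lt_or_eq with h1 | h1
  · exact h1
  · exfalso
    have h2 := hform ν
    rw [← h1, hP] at h2
    linarith

lemma E_g_zpow (k : ℤ) (x : Mink n) : Φ.E ((Φ.g ^ k) x) = Φ.E x + 5 / 4 * k * Φ.P x := by
  obtain ⟨j, rfl | rfl⟩ := Int.even_or_odd' k
  · rw [g_zpow_even, tau_apply, E_tau]
  · rw [g_zpow_odd]
    show Φ.E (Φ.tauFun _ _ (Φ.uFun x)) = _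
    rw [E_tau, E_u, P_u]

/-- normalisation of the parameter by powers of `g` -/
lemma exists_shift (α c : ℝ) (hα : 0 < α) : ∃ (k : ℤ) (τ : ℝ), |τ| ≤ 5 / 8 ∧
    ∀ x : Mink n, α * Φ.E ((Φ.g ^ k) x) - c * Φ.P ((Φ.g ^ k) x) = α * (Φ.E x - τ * Φ.P x) := by
  refine ⟨round (c / α / (5 / 4)), c / α - 5 / 4 * round (c / α / (5 / 4)), ?_, fun x => ?_⟩
  · have h1 := abs_sub_round (c / α / (5 / 4))
    have h2 : c / α - 5 / 4 * round (c / α / (5 / 4)) =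
        5 / 4 * (c / α / (5 / 4) - round (c / α / (5 / 4))) := by ring
    rw [h2, abs_mul, abs_of_pos (by norm_num : (0 : ℝ) < 5 / 4)]
    linarith
  · rw [E_g_zpow, P_g_zpow]
    field_simp
    ring

/-- the four points for the crossing -/
lemma exists_point {τ τ' : ℝ} (hτ : |τ| ≤ 5 / 8) (hτ' : |τ'| ≤ 5 / 8) {σ σ' : ℝ}
    (hσ : |σ| = 1 / 16) (hσ' : |σ'| = 1 / 16) :
    ∃ x ∈ Hyp n, ∃ c > 0, Φ.E x - τ * Φ.P x = c * σ ∧ Φ.F x - τ' * Φ.Q x = c * σ' := by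
  let z : Mink n := (1, (τ + σ) • Φ.e + (τ' + σ') • Φ.f)
  have hzE : Φ.E z = τ + σ := by
    show inner ℝ ((τ + σ) • Φ.e + (τ' + σ') • Φ.f) Φ.e = _
    rw [inner_add_left, real_inner_smul_left, real_inner_smul_left, Φ.ee, Φ.fe]; ring
  have hzF : Φ.F z = τ' + σ' := by
    show inner ℝ ((τ + σ) • Φ.e + (τ' + σ') • Φ.f) Φ.f = _
    rw [inner_add_left, real_inner_smul_left, real_inner_smul_left, Φ.ff, Φ.ef]; ring
  have hzS : Φ.S z = 0 := by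
    show inner ℝ ((τ + σ) • Φ.e + (τ' + σ') • Φ.f) Φ.N = _
    rw [inner_add_left, real_inner_smul_left, real_inner_smul_left, Φ.eN, Φ.fN]; ring
  have hzP : Φ.P z = 1 := by unfold P; rw [hzS]; show (1 : ℝ) - 0 = 1; ring
  have hzQ : Φ.Q z = 1 := by unfold Q; rw [hzS]; show (1 : ℝ) + 0 = 1; ring
  have hb : ∀ {τ σ : ℝ}, |τ| ≤ 5 / 8 → |σ| = 1 / 16 → (τ + σ) ^ 2 ≤ (11 / 16) ^ 2 := by
    intro τ σ h1 h2
    rw [← sq_abs]
    apply pow_le_pow_left₀ (abs_nonneg _)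
    have := abs_add_le τ σ
    linarith
  have hz : lor z z < 0 := by
    show inner ℝ ((τ + σ) • Φ.e + (τ' + σ') • Φ.f) ((τ + σ) • Φ.e + (τ' + σ') • Φ.f) - 1 * 1 < 0
    rw [inner_add_left, inner_add_right, inner_add_right]
    simp only [real_inner_smul_left, real_inner_smul_right, Φ.ee, Φ.ff, Φ.ef, Φ.fe]
    have h1 := hb hτ hσ
    have h2 := hb hτ' hσ'
    nlinarith
  obtain ⟨c, hc, hmem⟩ := exists_smul_mem_Hyp hz (show (0 : ℝ) < 1 by norm_num)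
  have hQ : Φ.Q (c • z) = c * Φ.Q z := by
    unfold Q
    rw [S_smul, Prod.smul_fst, smul_eq_mul]; ring
  refine ⟨c • z, hmem, c, hc, ?_, ?_⟩
  · rw [E_smul, P_smul, hzE, hzP]; ring
  · rw [F_smul, hQ, hzF, hzQ]; ring

lemma g_ne_one : Φ.g ≠ 1 := by
  intro h
  have h1 := Φ.ping (k := 1) (base_mem (n := n)) (by
      unfold Q P S base
      simp) one_ne_zero
  rw [zpow_one, h] at h1
  have h2 : Φ.P (base n) = Φ.Q (base n) := by unfold P Q S base; simp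
  have h3 : (1 : Mink n ≃ₗ[ℝ] Mink n) (base n) = base n := rfl
  rw [h3, h2] at h1
  exact lt_irrefl _ h1

lemma h_ne_one : Φ.h ≠ 1 := by
  intro h
  apply Φ.g_ne_one
  unfold Frame.h at h
  have : Φ.J * (Φ.J * Φ.g * Φ.J) * Φ.J = Φ.J * 1 * Φ.J := by rw [h]
  rw [mul_one, Φ.J_mul_J] at this
  calc Φ.g = (Φ.J * Φ.J) * Φ.g * (Φ.J * Φ.J) := by rw [Φ.J_mul_J]; simp
    _ = Φ.J * (Φ.J * Φ.g * Φ.J) * Φ.J := by group
    _ = 1 := this

theorem not_classical (hn : 2 ≤ n) : ¬ IsClassicalSchottkyType Φ.G := by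
  intro hcl
  obtain ⟨𝓕, h1, h2, h3, h4⟩ := hcl.walls hn Φ.G_le
  -- the wall for `g`
  obtain ⟨ν, hνF, hν⟩ := h4 Φ.g Φ.g_mem Φ.g_ne_one
  obtain ⟨hα, hνf⟩ := Φ.nested (h1 ν hνF) hν
  obtain ⟨k, τ, hτ, hk⟩ := Φ.exists_shift (Φ.E ν) ν.1 hα
  have hν1 : (Φ.g ^ (-k)) ν ∈ 𝓕 := h2 _ (Φ.G.zpow_mem Φ.g_mem _) ν hνF
  have hν1f : ∀ x : Mink n, lor x ((Φ.g ^ (-k)) ν) = Φ.E ν * (Φ.E x - τ * Φ.P x) := by
    intro x
    have e : lor x ((Φ.g ^ (-k)) ν) = lor ((Φ.g ^ k) x) ν := by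
      rw [← IsomH.lor (Φ.G_le (Φ.G.zpow_mem Φ.g_mem k))]
      congr 1
      rw [zpow_neg]
      exact (Φ.g ^ k).apply_symm_apply ν
    rw [e, hνf, hk]
  -- the wall for `h`
  obtain ⟨μ, hμF, hμ⟩ := h4 Φ.h Φ.h_mem Φ.h_ne_one
  have hJJ : ∀ x, Φ.J (Φ.J x) = x := fun x => Φ.jFun_jFun x
  have hJμ : 0 < lor (Φ.J μ) (Φ.J μ) := by rw [lor_J]; exact h1 μ hμF
  have hlJ : ∀ x y, lor x (Φ.J y) = lor (Φ.J x) y := by
    intro x y
    rw [← lor_J, hJJ]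
  obtain ⟨hα', hμf⟩ := Φ.nested hJμ (by
    intro x hx h0
    rw [hlJ] at h0 ⊢
    have h5 := hμ (Φ.J x) (Φ.J_hyp hx) h0
    have e : Φ.h (Φ.J x) = Φ.J (Φ.g x) := by
      show Φ.J (Φ.g (Φ.J (Φ.J x))) = _
      rw [hJJ]
    rwa [e] at h5)
  obtain ⟨k', τ', hτ', hk'⟩ := Φ.exists_shift (Φ.E (Φ.J μ)) (Φ.J μ).1 hα'
  have hμ1 : (Φ.h ^ (-k')) μ ∈ 𝓕 := h2 _ (Φ.G.zpow_mem Φ.h_mem _) μ hμF
  have hμ1f : ∀ x : Mink n, lor x ((Φ.h ^ (-k')) μ) =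
      Φ.E (Φ.J μ) * (Φ.F x - τ' * Φ.Q x) := by
    intro x
    have e : lor x ((Φ.h ^ (-k')) μ) = lor ((Φ.h ^ k') x) μ := by
      rw [← IsomH.lor (Φ.G_le (Φ.G.zpow_mem Φ.h_mem k'))]
      congr 1
      rw [zpow_neg]
      exact (Φ.h ^ k').apply_symm_apply μ
    have e2 : (Φ.h ^ k') x = Φ.J ((Φ.g ^ k') (Φ.J x)) := by
      rw [h_zpow]; rfl
    have e3 : Φ.E (Φ.J x) = Φ.F x := Φ.E_j x
    have e4 : Φ.P (Φ.J x) = Φ.Q x := Φ.P_j x
    rw [e, e2, ← hlJ, hμf, hk', e3, e4]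
  -- they cross
  apply h3 _ hν1 _ hμ1
  have key : ∀ {σ σ' : ℝ}, |σ| = 1 / 16 → |σ'| = 1 / 16 → ∃ x ∈ Hyp n, ∃ c > 0, ∃ c' > 0,
      lor x ((Φ.g ^ (-k)) ν) = c * σ ∧ lor x ((Φ.h ^ (-k')) μ) = c' * σ' := by
    intro σ σ' hσ hσ'
    obtain ⟨x, hx, c, hc, h5, h6⟩ := Φ.exists_point hτ hτ' hσ hσ'
    refine ⟨x, hx, Φ.E ν * c, mul_pos hα hc, Φ.E (Φ.J μ) * c, mul_pos hα' hc, ?_, ?_⟩
    · rw [hν1f, h5]; ring
    · rw [hμ1f, h6]; ring
  have ap : |(1 / 16 : ℝ)| = 1 / 16 := abs_of_pos (by norm_num)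
  have am : |(-(1 / 16) : ℝ)| = 1 / 16 := by rw [abs_neg]; exact ap
  refine ⟨?_, ?_, ?_, ?_⟩
  · obtain ⟨x, hx, c, hc, c', hc', h5, h6⟩ := key ap ap
    exact ⟨x, hx, by rw [h5]; positivity, by rw [h6]; positivity⟩
  · obtain ⟨x, hx, c, hc, c', hc', h5, h6⟩ := key ap am
    exact ⟨x, hx, by rw [h5]; positivity, by rw [h6]; linarith⟩
  · obtain ⟨x, hx, c, hc, c', hc', h5, h6⟩ := key am ap
    exact ⟨x, hx, by rw [h5]; linarith, by rw [h6]; positivity⟩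
  · obtain ⟨x, hx, c, hc, c', hc', h5, h6⟩ := key am am
    exact ⟨x, hx, by rw [h5]; linarith, by rw [h6]; linarith⟩

end Frame

end Pool.Agent.Work.MP_d62ce9_gt
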