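import Pool.Agent.Work.MP_d62ce9_gt.Estimates

/-!
# Summation over words
-/

set_option autoImplicit false
set_option linter.unusedSectionVars false

open Filter Topology Set
open scoped ENNReal

namespace Pool.Agent.Work.MP_d62ce9_gt

lemma tsum_tuple {α : Type*} (b : α → ℝ≥0∞) (m : ℕ) :
    ∑' t : Fin m → α, ∏ i, b (t i) = (∑' k, b k) ^ m := by
  induction m with
  | zero =>
    rw [pow_zero, tsum_fintype]
    simp
  | succ m ih =>
    rw [← (Fin.consEquiv (fun _ : Fin (m + 1) => α)).tsum_eq, ENNReal.tsum_prod', pow_succ']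
    have e : ∀ (a : α) (t : Fin m → α),
        (∏ i, b ((Fin.consEquiv (fun _ : Fin (m + 1) => α)) (a, t) i)) = b a * ∏ i, b (t i) := by
      intro a t
      rw [Fin.prod_univ_succ]
      rfl
    simp_rw [e, ENNReal.tsum_mul_left, ENNReal.tsum_mul_right]
    rw [ih]

lemma tsum_list {α : Type*} (b : α → ℝ≥0∞) :
    ∑' L : List α, (L.map b).prod = (1 - ∑' k, b k)⁻¹ := by
  rw [← List.equivSigmaTuple.symm.tsum_eq, ENNReal.tsum_sigma']
  have e : ∀ (m : ℕ) (t : Fin m → α),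
      ((List.equivSigmaTuple.symm ⟨m, t⟩).map b).prod = ∏ i, b (t i) := by
    intro m t
    show ((List.ofFn t).map b).prod = _
    rw [List.map_ofFn, List.prod_ofFn]
    rfl
  simp_rw [e, tsum_tuple]
  exact ENNReal.tsum_geometric _

open Classical in
/-- the summands -/
noncomputable def FF (s : ℝ) (k : ℤ) : ℝ := if k = 0 then 0 else dd k ^ (-s)

lemma FF_nonneg (s : ℝ) (k : ℤ) : 0 ≤ FF s k := by
  unfold FF
  split_ifs with h
  · exact le_rfl
  · exact Real.rpow_nonneg (dd_pos h).le _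

lemma summable_FF : Summable (FF (3 / 4)) := by
  have h1 : Summable fun k : ℤ => (3 / 4 : ℝ) ^ (-(3 / 2) : ℝ) * |(k : ℝ)| ^ (-(3 / 2) : ℝ) :=
    (Real.summable_abs_int_rpow (by norm_num : (1 : ℝ) < 3 / 2)).mul_left _
  refine Summable.of_nonneg_of_le (FF_nonneg _) (fun k => ?_) h1
  unfold FF
  split_ifs with h
  · positivity
  · have h2 := one_le_abs h
    have h3 : (3 / 4 * |(k : ℝ)|) ^ (2 : ℝ) ≤ dd k := by
      rw [Real.rpow_two]
      unfold dd
      have h4 : (3 / 4 * |(k : ℝ)|) ^ 2 ≤ (5 / 4 * |(k : ℝ)| - 1 / 2) ^ 2 :=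
        pow_le_pow_left₀ (by positivity) (by linarith) 2
      split_ifs <;> linarith
    calc dd k ^ (-(3 / 4) : ℝ) ≤ ((3 / 4 * |(k : ℝ)|) ^ (2 : ℝ)) ^ (-(3 / 4) : ℝ) :=
          Real.rpow_le_rpow_of_nonpos (by positivity) h3 (by norm_num)
      _ = (3 / 4 * |(k : ℝ)|) ^ (-(3 / 2) : ℝ) := by
          rw [← Real.rpow_mul (by positivity)]; norm_num
      _ = _ := by rw [Real.mul_rpow (by norm_num) (by positivity)]

lemma FF_le {s t : ℝ} (h : s ≤ t) (k : ℤ) : FF t k ≤ FF s k := by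
  unfold FF
  split_ifs with h0
  · exact le_rfl
  · exact Real.rpow_le_rpow_of_exponent_le (by linarith [four_le_dd h0]) (by linarith)

lemma summable_FF' {s : ℝ} (h : 3 / 4 ≤ s) : Summable (FF s) :=
  Summable.of_nonneg_of_le (FF_nonneg _) (FF_le h) summable_FF

lemma tendsto_FF : Tendsto (fun s => ∑' k, FF s k) (𝓝 1) (𝓝 (∑' k, FF 1 k)) := by
  refine tendsto_tsum_of_dominated_convergence summable_FF (fun k => ?_) ?_
  · unfold FF
    split_ifs with h
    · exact tendsto_const_nhds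
    · have h1 : Continuous fun s : ℝ => dd k ^ (-s) :=
        Real.continuous_const_rpow (dd_pos h).ne' |>.comp continuous_neg
      exact h1.tendsto 1
  · have : Ioi (3 / 4 : ℝ) ∈ 𝓝 (1 : ℝ) := Ioi_mem_nhds (by norm_num)
    filter_upwards [this] with s hs k
    rw [Real.norm_of_nonneg (FF_nonneg _ _)]
    exact FF_le (le_of_lt hs) k

/-- one-sided summands -/
noncomputable def f1 (m : ℕ) : ℝ := 1 / dd ((m : ℤ) + 1)

lemma f1_nonneg (m : ℕ) : 0 ≤ f1 m := by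
  unfold f1
  have := dd_pos (k := (m : ℤ) + 1) (by omega)
  positivity

lemma f1_even (i : ℕ) : f1 (2 * i) ≤ 1 / ((i : ℝ) + 50) - 1 / ((i : ℝ) + 51) := by
  have hi : (0 : ℝ) ≤ i := Nat.cast_nonneg i
  have h1 : dd (((2 * i : ℕ) : ℤ) + 1) = (5 / 4 * (2 * (i : ℝ) + 1) - 1 / 2) ^ 2 + (201 / 2) ^ 2 := by
    unfold dd
    rw [if_pos ⟨(i : ℤ), by push_cast; ring⟩]
    have : |(((((2 * i : ℕ) : ℤ) + 1 : ℤ)) : ℝ)| = 2 * (i : ℝ) + 1 := by
      push_cast
      exact abs_of_pos (by positivity)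
    rw [this]
  unfold f1
  rw [h1]
  have h2 : 1 / ((i : ℝ) + 50) - 1 / ((i : ℝ) + 51) = 1 / (((i : ℝ) + 50) * ((i : ℝ) + 51)) := by
    field_simp
    ring
  rw [h2]
  apply one_div_le_one_div_of_le (by positivity)
  nlinarith [sq_nonneg ((i : ℝ) - 9)]

lemma dd_odd (i : ℕ) : dd (((2 * i + 1 : ℕ) : ℤ) + 1) = (5 / 2 * (i : ℝ) + 2) ^ 2 := by
  unfold dd
  rw [if_neg (by rw [Int.not_odd_iff_even]; exact ⟨(i : ℤ) + 1, by push_cast; ring⟩)]
  have : |(((((2 * i + 1 : ℕ) : ℤ) + 1 : ℤ)) : ℝ)| = 2 * (i : ℝ) + 2 := by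
    push_cast
    rw [abs_of_pos (by positivity)]
    ring
  rw [this]
  ring

lemma f1_one : f1 1 = 1 / 4 := by
  have := dd_odd 0
  unfold f1
  norm_num at this ⊢
  rw [this]
  norm_num

lemma f1_odd (i : ℕ) : f1 (2 * i + 1) ≤ 4 / 5 / (5 * (i : ℝ) + 3 / 2) - 4 / 5 / (5 * ((i : ℝ) + 1) + 3 / 2) := by
  have hi : (0 : ℝ) ≤ i := Nat.cast_nonneg i
  unfold f1
  rw [dd_odd]
  have h2 : 4 / 5 / (5 * (i : ℝ) + 3 / 2) - 4 / 5 / (5 * ((i : ℝ) + 1) + 3 / 2) =
      1 / ((5 * (i : ℝ) + 3 / 2) * (5 * ((i : ℝ) + 1) + 3 / 2) / 4) := by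
    field_simp
    ring
  rw [h2]
  apply one_div_le_one_div_of_le (by positivity)
  nlinarith

lemma partial_bound (n : ℕ) : ∑ i ∈ Finset.range n, (f1 (2 * (i + 1)) + f1 (2 * (i + 1) + 1)) ≤
    1 / 51 - 1 / ((n : ℝ) + 51) + (8 / 65 - 4 / 5 / (5 * ((n : ℝ) + 1) + 3 / 2)) := by
  induction n with
  | zero => norm_num
  | succ n ih =>
    rw [Finset.sum_range_succ]
    have h1 := f1_even (n + 1)
    have h2 := f1_odd (n + 1)
    push_cast at h1 h2 ⊢
    have e1 : (n : ℝ) + 1 + 50 = n + 51 := by ring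
    have e2 : (n : ℝ) + 1 + 51 = n + 52 := by ring
    rw [e1, e2] at h1
    rw [e2]
    linarith

lemma f1_sum_le (n : ℕ) : ∑ i ∈ Finset.range n, f1 i ≤ 9 / 20 := by
  have h0 : ∑ i ∈ Finset.range n, f1 i ≤ ∑ i ∈ Finset.range (2 * (n + 1)), f1 i :=
    Finset.sum_le_sum_of_subset_of_nonneg (Finset.range_subset_range.2 (by omega))
      (fun i _ _ => f1_nonneg i)
  have h1 : ∑ i ∈ Finset.range (2 * (n + 1)), f1 i =
      f1 0 + f1 1 + ∑ i ∈ Finset.range n, (f1 (2 * (i + 1)) + f1 (2 * (i + 1) + 1)) := by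
    clear h0
    induction n with
    | zero => simp [Finset.sum_range_succ]
    | succ n ih =>
      rw [show 2 * (n + 1 + 1) = 2 * (n + 1) + 1 + 1 by ring, Finset.sum_range_succ,
        Finset.sum_range_succ, ih, Finset.sum_range_succ]
      ring
  have h2 := partial_bound n
  have h3 := f1_even 0
  have h4 := f1_one
  have h5 : 0 ≤ 1 / ((n : ℝ) + 51) := by positivity
  have h6 : 0 ≤ 4 / 5 / (5 * ((n : ℝ) + 1) + 3 / 2) := by positivity
  norm_num at h3
  rw [h1] at h0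
  linarith

lemma FF_one_lt : ∑' k, FF 1 k < 1 := by
  have hs := summable_FF' (s := 1) (by norm_num)
  have e2 : ∀ m : ℕ, FF 1 (-((m : ℤ) + 1)) = f1 m := by
    intro m
    have hm : (-((m : ℤ) + 1)) ≠ 0 := by omega
    unfold FF f1
    rw [if_neg hm, Real.rpow_neg_one, one_div]
    congr 1
    unfold dd
    rw [Int.cast_neg, abs_neg]
    congr 1
    simp only [odd_neg]
  have e1 : ∀ m : ℕ, FF 1 ((m + 1 : ℕ) : ℤ) = f1 m := by
    intro m
    have hm : (((m + 1 : ℕ) : ℤ)) ≠ 0 := by omega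
    unfold FF f1
    rw [if_neg hm, Real.rpow_neg_one, one_div]
    push_cast
    rfl
  have s1 : Summable fun m : ℕ => FF 1 (m : ℤ) := hs.comp_injective Nat.cast_injective
  have s2 : Summable fun m : ℕ => FF 1 (-((m : ℤ) + 1)) := by
    apply hs.comp_injective (i := fun m : ℕ => -((m : ℤ) + 1))
    intro a b h
    simpa using h
  rw [tsum_of_nat_of_neg_add_one s1 s2]
  simp_rw [e2]
  rw [s1.tsum_eq_zero_add]
  have e3 : (∑' b : ℕ, FF 1 (((b + 1 : ℕ)) : ℤ)) = ∑' m, f1 m := by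
    congr 1
    funext m
    exact e1 m
  rw [e3]
  have e0 : FF 1 ((0 : ℕ) : ℤ) = 0 := if_pos rfl
  rw [e0]
  have := Real.tsum_le_of_sum_range_le f1_nonneg f1_sum_le
  linarith

lemma exists_s : ∃ s : ℝ, 3 / 4 < s ∧ s < 1 ∧ ∑' k, FF s k < 1 := by
  have h1 : ∀ᶠ s in 𝓝 (1 : ℝ), ∑' k, FF s k < 1 := tendsto_FF.eventually_lt_const FF_one_lt
  have h2 : ∀ᶠ s in 𝓝 (1 : ℝ), 3 / 4 < s := Ioi_mem_nhds (by norm_num)
  have h3 : ∀ᶠ s in 𝓝[<] (1 : ℝ), ∑' k, FF s k < 1 ∧ 3 / 4 < s :=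
    (h1.and h2).filter_mono nhdsWithin_le_nhds
  have h4 : ∀ᶠ s in 𝓝[<] (1 : ℝ), s < 1 := self_mem_nhdsWithin
  obtain ⟨s, ⟨a, b⟩, c⟩ := (h3.and h4).exists
  exact ⟨s, b, c, a⟩

open Pool.Agent.Work.MP_d62ce9_gt.Frame

lemma tsum_words {s : ℝ} (hs : 3 / 4 < s) (h1 : ∑' k, FF s k < 1) :
    ∑' w : ℤ × List NZ, ENNReal.ofReal ((cc w.1 * (w.2.map fun k => dd k.1).prod) ^ (-s)) ≠ ∞ := by
  have hsum := summable_FF' hs.le
  have hq : ∑' k : ℤ, ENNReal.ofReal (FF s k) < 1 := by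
    rw [← ENNReal.ofReal_tsum_of_nonneg (FF_nonneg s) hsum]
    rw [← ENNReal.ofReal_one]
    exact ENNReal.ofReal_lt_ofReal_iff_of_nonneg (tsum_nonneg (FF_nonneg s)) |>.2 h1
  have hq' : ∑' k : NZ, ENNReal.ofReal (FF s k.1) < 1 :=
    (ENNReal.tsum_comp_le_tsum_of_injective Subtype.val_injective
      (fun k => ENNReal.ofReal (FF s k))).trans_lt hq
  have e1 : ∀ w : ℤ × List NZ, ENNReal.ofReal ((cc w.1 * (w.2.map fun k => dd k.1).prod) ^ (-s)) ≤
      ((if w.1 = 0 then 1 else 0) + ENNReal.ofReal (FF s w.1)) *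
        (w.2.map fun k : NZ => ENNReal.ofReal (FF s k.1)).prod := by
    rintro ⟨k, L⟩
    have hprod : ∀ L : List NZ, ENNReal.ofReal ((L.map fun k => dd k.1).prod ^ (-s)) =
        (L.map fun k : NZ => ENNReal.ofReal (FF s k.1)).prod := by
      intro L
      induction L with
      | nil => simp
      | cons k L ih =>
        rw [List.map_cons, List.prod_cons, List.map_cons, List.prod_cons, ← ih,
          Real.mul_rpow (dd_pos k.2).le (prod_pos L).le, ENNReal.ofReal_mul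
          (Real.rpow_nonneg (dd_pos k.2).le _)]
        have : FF s k.1 = dd k.1 ^ (-s) := if_neg k.2
        rw [this]
    dsimp only
    rw [Real.mul_rpow (cc_pos k).le (prod_pos L).le, ENNReal.ofReal_mul
          (Real.rpow_nonneg (cc_pos k).le _), hprod]
    gcongr
    by_cases hk : k = 0
    · have : cc k = 1 := if_pos hk
      rw [this, if_pos hk]
      simp
    · have : cc k = dd k := if_neg hk
      rw [this, if_neg hk, zero_add]
      have : FF s k = dd k ^ (-s) := if_neg hk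
      rw [this]
  have e2 : ∑' w : ℤ × List NZ, ((if w.1 = 0 then 1 else 0) + ENNReal.ofReal (FF s w.1)) *
        (w.2.map fun k : NZ => ENNReal.ofReal (FF s k.1)).prod < ∞ := by
    have e3 := ENNReal.tsum_prod (f := fun (k : ℤ) (L : List NZ) =>
      ((if k = 0 then (1 : ℝ≥0∞) else 0) + ENNReal.ofReal (FF s k)) *
        (L.map fun k : NZ => ENNReal.ofReal (FF s k.1)).prod)
    rw [e3]
    simp_rw [ENNReal.tsum_mul_left, ENNReal.tsum_mul_right]
    rw [tsum_list, ENNReal.tsum_add]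
    have h2 : ∑' k : ℤ, (if k = 0 then (1 : ℝ≥0∞) else 0) = 1 := tsum_ite_eq 0 _
    rw [h2]
    apply ENNReal.mul_lt_top
    · exact ENNReal.add_lt_top.2 ⟨ENNReal.one_lt_top, hq.trans ENNReal.one_lt_top⟩
    · rw [ENNReal.inv_lt_top]
      exact tsub_pos_of_lt hq'
  exact ((ENNReal.tsum_le_tsum e1).trans_lt e2).ne

namespace Frame

variable {n : ℕ} (Φ : Frame n)

lemma Wd_fst_pos (w : ℤ × List NZ) : 0 < (Φ.Wd w (base n)).1 := by
  refine lt_of_lt_of_le ?_ (Φ.Wd_lower w)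
  have := mul_pos (cc_pos w.1) (prod_pos w.2)
  linarith

/-- The Poincare type series over all words converges for some exponent below `1`. -/
theorem series : ∃ s : ℝ, 0 < s ∧ s < 1 ∧
    ∑' w : ℤ × List NZ, ENNReal.ofReal ((Φ.Wd w (base n)).1 ^ (-s)) ≠ ∞ := by
  obtain ⟨s, h1, h2, h3⟩ := exists_s
  refine ⟨s, by linarith, h2, ?_⟩
  have h4 := tsum_words h1 h3
  have e : ∀ w : ℤ × List NZ, ENNReal.ofReal ((Φ.Wd w (base n)).1 ^ (-s)) ≤
      ENNReal.ofReal ((1 / 2 : ℝ) ^ (-s)) *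
        ENNReal.ofReal ((cc w.1 * (w.2.map fun k => dd k.1).prod) ^ (-s)) := by
    intro w
    have hp := mul_pos (cc_pos w.1) (prod_pos w.2)
    rw [← ENNReal.ofReal_mul (by positivity), ← Real.mul_rpow (by norm_num) hp.le]
    apply ENNReal.ofReal_le_ofReal
    exact Real.rpow_le_rpow_of_nonpos (by positivity) (Φ.Wd_lower w) (by linarith)
  refine ((ENNReal.tsum_le_tsum e).trans_lt ?_).ne
  rw [ENNReal.tsum_mul_left]
  exact ENNReal.mul_lt_top ENNReal.ofReal_lt_top (lt_top_iff_ne_top.2 h4)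

end Frame

end Pool.Agent.Work.MP_d62ce9_gt
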