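import Pool.Agent.Work.MP_d62ce9_gt.Discrete
import Pool.Agent.Work.MP_d62ce9_gt.NonClassical

/-!
# Transfer to groups of permutations of Minkowski space
-/

set_option autoImplicit false

open Filter Topology Set

namespace Pool.Agent.Work.MP_d62ce9_gt

variable {n : ℕ}

/-- forgetting linearity -/
def toPerm (n : ℕ) : (Mink n ≃ₗ[ℝ] Mink n) →* Equiv.Perm (Mink n) where
  toFun A := A.toEquiv
  map_one' := rfl
  map_mul' _ _ := rfl

lemma toPerm_apply (A : Mink n ≃ₗ[ℝ] Mink n) (x : Mink n) : toPerm n A x = A x := rfl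

lemma toPerm_injective : Function.Injective (toPerm n) := by
  intro A B h
  ext1 x
  rw [← toPerm_apply, ← toPerm_apply, h]

lemma isIsometryH_of {A : Mink n ≃ₗ[ℝ] Mink n} (hA : A ∈ IsomH n) : IsIsometryH (toPerm n A) :=
  ⟨fun u v => A.map_add u v, fun c u => A.map_smul c u, hA.1, hA.2⟩

lemma isDiscreteGrp_of {G : Subgroup (Mink n ≃ₗ[ℝ] Mink n)} (h : IsDiscreteGroup G) :
    IsDiscreteGrp (G.map (toPerm n)) := by
  intro x hx R
  refine ((h x hx R).image (toPerm n)).subset ?_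
  rintro _ ⟨⟨A, hA, rfl⟩, hd⟩
  exact ⟨A, ⟨hA, hd⟩, rfl⟩

lemma conicalSet_subset (G : Subgroup (Mink n ≃ₗ[ℝ] Mink n)) :
    conicalSet (G.map (toPerm n)) ⊆ conicalLimitSet G := by
  rintro ξ ⟨h1, x, hx, r, hr, hlim, C, A, hA, hd, hc⟩
  choose A' hA' hAA' using fun k => Subgroup.mem_map.1 (hA k)
  have e : ∀ k y, A k y = A' k y := by
    intro k y
    rw [← hAA' k, toPerm_apply]
  refine ⟨h1, x, hx, r, hr, hlim, C, A', hA', fun k => ?_, ?_⟩
  · obtain ⟨t, ht, h2⟩ := hd k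
    refine ⟨t, ht, ?_⟩
    rw [← e]
    exact h2
  · simp_rw [← e]
    exact hc

lemma classical_of {G : Subgroup (Mink n ≃ₗ[ℝ] Mink n)}
    (h : IsClassicalSchottky (G.map (toPerm n))) : IsClassicalSchottkyType G := by
  obtain ⟨k, B, g, hg, h1, h2, h3, h4, h5⟩ := h
  choose g' hg' hgg' using fun i => Subgroup.mem_map.1 (hg i)
  have e : ∀ i, bdry (g' i) = bdryMap (g i) := by
    intro i
    rw [← hgg' i]
    rfl
  refine ⟨k, B, g', hg', h1, fun i => ?_, fun i => ?_, ?_, ?_⟩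
  · rw [e]; exact h2 i
  · rw [e]; exact h3 i
  · intro A hA hne
    exact h4 (toPerm n A) ⟨A, hA, rfl⟩ (fun h => hne (toPerm_injective (by rw [h, map_one])))
  · intro x hx
    obtain ⟨_, ⟨A, hA, rfl⟩, h6⟩ := h5 x hx
    exact ⟨A, hA, h6⟩

lemma fg_map {G : Subgroup (Mink n ≃ₗ[ℝ] Mink n)} (h : G.FG) : (G.map (toPerm n)).FG := by
  classical
  obtain ⟨S, hS⟩ := h
  refine ⟨S.image (toPerm n), ?_⟩
  rw [Finset.coe_image, ← MonoidHom.map_closure, hS]

/-- the main theorem -/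
theorem main (hn : 3 ≤ n) : ∃ G : Subgroup (Equiv.Perm (Mink n)),
    (∀ A ∈ G, IsIsometryH A) ∧ IsDiscreteGrp G ∧
    (∀ A ∈ G, ∀ m : ℕ, m ≠ 0 → A ^ m = 1 → A = 1) ∧ G.FG ∧
    Nonempty (FreeGroup Bool ≃* G) ∧
    (∀ K : Subgroup (Equiv.Perm (Mink n)), K ≤ G → (∀ A ∈ K, ∀ B ∈ K, A * B = B * A) →
      IsCyclic K) ∧
    dimH (conicalSet G) < 1 ∧ ¬ IsClassicalSchottky G := by
  obtain ⟨Φ⟩ := exists_frame hn
  refine ⟨Φ.G.map (toPerm n), ?_, isDiscreteGrp_of Φ.discrete, ?_, fg_map Φ.fg,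
    ⟨Φ.freeEquiv.trans (Φ.G.equivMapOfInjective _ toPerm_injective)⟩, ?_,
    (dimH_mono (conicalSet_subset _)).trans_lt Φ.dimH_lt,
    fun h => Φ.not_classical (by omega) (classical_of h)⟩
  · rintro _ ⟨A, hA, rfl⟩
    exact isIsometryH_of (Φ.G_le hA)
  · rintro _ ⟨A, hA, rfl⟩ m hm h
    have h1 : A ^ m = 1 := by
      apply toPerm_injective
      rw [map_pow, map_one]
      exact h
    rw [Φ.torsionFree hA hm h1, map_one]
  · intro K hK hc
    have h1 : K.comap (toPerm n) ≤ Φ.G := by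
      intro A hA
      obtain ⟨B, hB, h2⟩ := hK hA
      rwa [← toPerm_injective h2]
    have h2 := Φ.abelian_cyclic (K.comap (toPerm n)) h1 (by
      intro A hA B hB
      apply toPerm_injective
      rw [map_mul, map_mul]
      exact hc _ hA _ hB)
    have h3 : (K.comap (toPerm n)).map (toPerm n) = K := by
      apply le_antisymm (Subgroup.map_comap_le _ _)
      intro A hA
      obtain ⟨B, hB, rfl⟩ := hK hA
      exact ⟨B, hA, rfl⟩
    rw [← h3]
    exact isCyclic_of_surjective _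
      ((K.comap (toPerm n)).equivMapOfInjective _ toPerm_injective).surjective

end Pool.Agent.Work.MP_d62ce9_gt
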