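import Pool.Agent.Work.MP_d62ce9_gt.Pairing

/-!
# Walls of a group of classical Schottky type
-/

set_option autoImplicit false
set_option linter.unusedSectionVars false

open Filter Topology Set

namespace Pool.Agent.Work.MP_d62ce9_gt

variable {n : ℕ}

/-- Data extracted from a classical Schottky type domain. -/
structure WallData (G : Subgroup (Mink n ≃ₗ[ℝ] Mink n)) where
  k : ℕ
  ν : Fin k × Bool → Mink n
  g : Fin k → (Mink n ≃ₗ[ℝ] Mink n)
  hG : G ≤ IsomH n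
  hg : ∀ i, g i ∈ G
  hν : ∀ a, 0 < lor (ν a) (ν a)
  pair1 : ∀ i, ∀ x ∈ Hyp n, lor x (ν (i, false)) < 0 → 0 < lor (g i x) (ν (i, true))
  pair2 : ∀ i, ∀ x ∈ Hyp n, lor x (ν (i, false)) = 0 → lor (g i x) (ν (i, true)) = 0
  pair3 : ∀ i, ∀ x ∈ Hyp n, 0 < lor x (ν (i, false)) → lor (g i x) (ν (i, true)) < 0
  disj : ∀ a b, a ≠ b → ∀ x ∈ Hyp n, ¬ (0 < lor x (ν a) ∧ 0 < lor x (ν b))
  fd1 : ∀ A ∈ G, A ≠ 1 → ∀ x ∈ Hyp n, (∀ a, lor x (ν a) < 0) → (∀ a, lor (A x) (ν a) < 0) → False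
  fd2 : ∀ x ∈ Hyp n, ∃ A ∈ G, A x ∈ closure {z | z ∈ Hyp n ∧ ∀ a, lor z (ν a) < 0}

/-- A classical Schottky type group has wall data. -/
lemma IsClassicalSchottkyType.wallData (hn : 2 ≤ n) {G : Subgroup (Mink n ≃ₗ[ℝ] Mink n)}
    (hG : G ≤ IsomH n) (h : IsClassicalSchottkyType G) : Nonempty (WallData G) := by
  obtain ⟨k, B, g, hg, hdisj, hs, he, hfd1, hfd2⟩ := h
  have hset : {x | x ∈ Hyp n ∧ ∀ a, x ∉ (B a).halfSpace} =
      {z | z ∈ Hyp n ∧ ∀ a, lor z (B a).vec < 0} := by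
    ext x
    constructor
    · rintro ⟨h1, h2⟩
      refine ⟨h1, fun a => ?_⟩
      have := h2 a
      rw [(B a).mem_halfSpace_iff h1] at this
      exact not_le.1 this
    · rintro ⟨h1, h2⟩
      refine ⟨h1, fun a => ?_⟩
      rw [(B a).mem_halfSpace_iff h1]
      exact not_le.2 (h2 a)
  rw [hset] at hfd1 hfd2
  exact ⟨{
    k := k
    ν := fun a => (B a).vec
    g := g
    hG := hG
    hg := hg
    hν := fun a => (B a).vec_pos
    pair1 := fun i x hx => (pairing hn (hG (hg i)) (hs i) (he i) hx).1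
    pair2 := fun i x hx => (pairing hn (hG (hg i)) (hs i) (he i) hx).2.1
    pair3 := fun i x hx => (pairing hn (hG (hg i)) (hs i) (he i) hx).2.2
    disj := fun a b hab x hx => disjoint_half hn (hdisj a b hab) hx
    fd1 := fun A hA hA1 x hx h1 h2 =>
      Set.disjoint_left.1 (hfd1 A hA hA1) (mem_image_of_mem _ ⟨hx, h1⟩)
        ⟨IsomH.hyp (hG hA) hx, h2⟩
    fd2 := hfd2 }⟩

namespace WallData

variable {G : Subgroup (Mink n ≃ₗ[ℝ] Mink n)} (W : WallData G)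

/-- opposite letter -/
def flip (a : Fin W.k × Bool) : Fin W.k × Bool := (a.1, !a.2)

/-- the letters act. -/
def T (a : Fin W.k × Bool) : Mink n ≃ₗ[ℝ] Mink n := cond a.2 (W.g a.1) (W.g a.1)⁻¹

lemma T_mem (a : Fin W.k × Bool) : W.T a ∈ G := by
  obtain ⟨i, b⟩ := a
  cases b
  · exact G.inv_mem (W.hg i)
  · exact W.hg i

include W in
lemma hyp_of_mem {A : Mink n ≃ₗ[ℝ] Mink n} (hA : A ∈ G) {x : Mink n} (hx : x ∈ Hyp n) :
    A x ∈ Hyp n := IsomH.hyp (W.hG hA) hx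

lemma flip_flip (a : Fin W.k × Bool) : W.flip (W.flip a) = a := by
  simp [flip]

lemma flip_ne (a : Fin W.k × Bool) : W.flip a ≠ a := by
  intro h
  have := congrArg Prod.snd h
  simp [flip] at this

lemma tri (i : Fin W.k) {x : Mink n} (hx : x ∈ Hyp n) :
    (lor x (W.ν (i, false)) < 0 ↔ 0 < lor (W.g i x) (W.ν (i, true))) ∧
    (lor x (W.ν (i, false)) = 0 ↔ lor (W.g i x) (W.ν (i, true)) = 0) ∧
    (0 < lor x (W.ν (i, false)) ↔ lor (W.g i x) (W.ν (i, true)) < 0) := by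
  have h1 := W.pair1 i x hx
  have h2 := W.pair2 i x hx
  have h3 := W.pair3 i x hx
  rcases lt_trichotomy (lor x (W.ν (i, false))) 0 with h | h | h
  · have := h1 h
    refine ⟨⟨fun _ => this, fun _ => h⟩, ⟨fun h' => absurd h' h.ne, fun h' => absurd h' this.ne'⟩,
      ⟨fun h' => absurd h' (not_lt.2 h.le), fun h' => absurd h' (not_lt.2 this.le)⟩⟩
  · have := h2 h
    refine ⟨⟨fun h' => absurd h h'.ne, fun h' => absurd this h'.ne'⟩, ⟨fun _ => this, fun _ => h⟩,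
      ⟨fun h' => absurd h h'.ne', fun h' => absurd this h'.ne⟩⟩
  · have := h3 h
    refine ⟨⟨fun h' => absurd h' (not_lt.2 h.le), fun h' => absurd h' (not_lt.2 this.le)⟩,
      ⟨fun h' => absurd h' h.ne', fun h' => absurd h' this.ne⟩, ⟨fun _ => this, fun _ => h⟩⟩

lemma T_tri (a : Fin W.k × Bool) {x : Mink n} (hx : x ∈ Hyp n) :
    (lor x (W.ν (W.flip a)) < 0 ↔ 0 < lor (W.T a x) (W.ν a)) ∧
    (lor x (W.ν (W.flip a)) = 0 ↔ lor (W.T a x) (W.ν a) = 0) ∧
    (0 < lor x (W.ν (W.flip a)) ↔ lor (W.T a x) (W.ν a) < 0) := by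
  obtain ⟨i, b⟩ := a
  cases b
  · -- the inverse of a generator
    have hy : (W.g i)⁻¹ x ∈ Hyp n := W.hyp_of_mem (G.inv_mem (W.hg i)) hx
    have h := W.tri i hy
    have e : W.g i ((W.g i)⁻¹ x) = x := (W.g i).apply_symm_apply x
    rw [e] at h
    refine ⟨?_, ?_, ?_⟩
    · exact h.2.2.symm
    · exact h.2.1.symm
    · exact h.1.symm
  · exact W.tri i hx

lemma exists_D : ∃ z ∈ Hyp n, ∀ a, lor z (W.ν a) < 0 := by
  obtain ⟨A, -, hA⟩ := W.fd2 (base n) base_mem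
  have : (closure {z | z ∈ Hyp n ∧ ∀ a, lor z (W.ν a) < 0}).Nonempty := ⟨_, hA⟩
  rw [closure_nonempty_iff] at this
  obtain ⟨z, hz⟩ := this
  exact ⟨z, hz.1, hz.2⟩

lemma disj_closed {a b : Fin W.k × Bool} (hab : a ≠ b) {x : Mink n} (hx : x ∈ Hyp n)
    (h1 : 0 ≤ lor x (W.ν a)) (h2 : 0 ≤ lor x (W.ν b)) : False := by
  obtain ⟨z, hz, hzD⟩ := W.exists_D
  -- extend the segment from `z` to `x` beyond `x`
  have hc : Continuous fun ε : ℝ => x + ε • (x - z) := by fun_prop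
  have c1 : Tendsto (fun ε : ℝ => lor (x + ε • (x - z)) (x + ε • (x - z))) (𝓝[>] 0) (𝓝 (-1)) := by
    have : Tendsto (fun ε : ℝ => lor (x + ε • (x - z)) (x + ε • (x - z))) (𝓝 0)
        (𝓝 (lor (x + (0 : ℝ) • (x - z)) (x + (0 : ℝ) • (x - z)))) :=
      (continuous_lor_self.comp hc).tendsto 0
    rw [zero_smul, add_zero, hx.1] at this
    exact this.mono_left nhdsWithin_le_nhds
  have c2 : Tendsto (fun ε : ℝ => (x + ε • (x - z)).1) (𝓝[>] 0) (𝓝 x.1) := by
    have : Tendsto (fun ε : ℝ => (x + ε • (x - z)).1) (𝓝 0) (𝓝 (x + (0 : ℝ) • (x - z)).1) :=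
      (continuous_fst.comp hc).tendsto 0
    rw [zero_smul, add_zero] at this
    exact this.mono_left nhdsWithin_le_nhds
  have e1 : ∀ᶠ ε in 𝓝[>] (0 : ℝ), lor (x + ε • (x - z)) (x + ε • (x - z)) < 0 :=
    c1.eventually_lt_const (by norm_num)
  have e2 : ∀ᶠ ε in 𝓝[>] (0 : ℝ), 0 < (x + ε • (x - z)).1 := c2.eventually_const_lt hx.2
  have e3 : ∀ᶠ ε in 𝓝[>] (0 : ℝ), 0 < ε := self_mem_nhdsWithin
  obtain ⟨ε, h3, h4, h5⟩ := (e1.and (e2.and e3)).exists
  obtain ⟨c, hc, hcy⟩ := exists_smul_mem_Hyp h3 h4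
  apply W.disj a b hab _ hcy
  have key : ∀ d, 0 ≤ lor x (W.ν d) → 0 < lor (c • (x + ε • (x - z))) (W.ν d) := by
    intro d hd
    rw [lor_smul_left, lor_add_left, lor_smul_left, lor_sub_left]
    apply mul_pos hc
    have := hzD d
    nlinarith
  exact ⟨key a h1, key b h2⟩

/-- closed version of the domain is contained in the closure. -/
lemma mem_closure_of_le {x : Mink n} (hx : x ∈ Hyp n) (h : ∀ a, lor x (W.ν a) ≤ 0) :
    x ∈ closure {z | z ∈ Hyp n ∧ ∀ a, lor z (W.ν a) < 0} := by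
  obtain ⟨z, hz, hzD⟩ := W.exists_D
  have hc : Continuous fun ε : ℝ => x + ε • (z - x) := by fun_prop
  have c1 : Tendsto (fun ε : ℝ => lor (x + ε • (z - x)) (x + ε • (z - x))) (𝓝[>] 0) (𝓝 (-1)) := by
    have : Tendsto (fun ε : ℝ => lor (x + ε • (z - x)) (x + ε • (z - x))) (𝓝 0)
        (𝓝 (lor (x + (0 : ℝ) • (z - x)) (x + (0 : ℝ) • (z - x)))) :=
      (continuous_lor_self.comp hc).tendsto 0
    rw [zero_smul, add_zero, hx.1] at this
    exact this.mono_left nhdsWithin_le_nhds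
  have c2 : Tendsto (fun ε : ℝ => (x + ε • (z - x)).1) (𝓝[>] 0) (𝓝 x.1) := by
    have : Tendsto (fun ε : ℝ => (x + ε • (z - x)).1) (𝓝 0) (𝓝 (x + (0 : ℝ) • (z - x)).1) :=
      (continuous_fst.comp hc).tendsto 0
    rw [zero_smul, add_zero] at this
    exact this.mono_left nhdsWithin_le_nhds
  have c3 : Tendsto (fun ε : ℝ => x + ε • (z - x)) (𝓝[>] 0) (𝓝 x) := by
    have : Tendsto (fun ε : ℝ => x + ε • (z - x)) (𝓝 0) (𝓝 (x + (0 : ℝ) • (z - x))) := hc.tendsto 0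
    rw [zero_smul, add_zero] at this
    exact this.mono_left nhdsWithin_le_nhds
  have e1 : ∀ᶠ ε in 𝓝[>] (0 : ℝ), lor (x + ε • (z - x)) (x + ε • (z - x)) < 0 :=
    c1.eventually_lt_const (by norm_num)
  have e2 : ∀ᶠ ε in 𝓝[>] (0 : ℝ), 0 < (x + ε • (z - x)).1 := c2.eventually_const_lt hx.2
  have e3 : ∀ᶠ ε in 𝓝[>] (0 : ℝ), 0 < ε := self_mem_nhdsWithin
  have e4 : ∀ᶠ ε in 𝓝[>] (0 : ℝ), ε < 1 :=
    (eventually_lt_nhds (show (0 : ℝ) < 1 by norm_num)).filter_mono nhdsWithin_le_nhds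
  have c4 : Tendsto (fun ε : ℝ => (Real.sqrt (-lor (x + ε • (z - x)) (x + ε • (z - x))))⁻¹ •
      (x + ε • (z - x))) (𝓝[>] 0) (𝓝 x) := by
    have h1 : Tendsto (fun ε : ℝ => (Real.sqrt (-lor (x + ε • (z - x)) (x + ε • (z - x))))⁻¹)
        (𝓝[>] 0) (𝓝 1) := by
      have := ((Real.continuous_sqrt.tendsto _).comp c1.neg).inv₀ (by norm_num)
      simpa using this
    have := h1.smul c3
    rwa [one_smul] at this
  refine mem_closure_of_tendsto c4 ?_
  filter_upwards [e1, e2, e3, e4] with ε h1 h2 h3 h4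
  have hs : 0 < (Real.sqrt (-lor (x + ε • (z - x)) (x + ε • (z - x))))⁻¹ :=
    inv_pos.2 (Real.sqrt_pos.2 (by linarith))
  refine ⟨⟨?_, ?_⟩, ?_⟩
  · rw [lor_smul_left, lor_smul_right, ← mul_assoc, ← mul_inv, Real.mul_self_sqrt (by linarith)]
    rw [inv_mul_eq_div, div_eq_iff (by linarith)]; ring
  · exact mul_pos hs h2
  · intro a
    have h5 := hzD a
    have h6 := h a
    have h7 : lor (x + ε • (z - x)) (W.ν a) < 0 := by
      rw [lor_add_left, lor_smul_left, lor_sub_left]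
      nlinarith
    rw [lor_smul_left]
    exact mul_neg_of_pos_of_neg hs h7

lemma isOpen_neg (ν : Mink n) : IsOpen {x : Mink n | lor x ν < 0} :=
  isOpen_lt (continuous_lor_left ν) continuous_const

lemma continuous_apply (A : Mink n ≃ₗ[ℝ] Mink n) : Continuous fun x => A x :=
  A.toLinearMap.continuous_of_finiteDimensional

lemma le_of_mem_closure {x : Mink n}
    (hx : x ∈ closure {z | z ∈ Hyp n ∧ ∀ a, lor z (W.ν a) < 0}) (a : Fin W.k × Bool) :
    lor x (W.ν a) ≤ 0 := by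
  have h1 : IsClosed {x : Mink n | lor x (W.ν a) ≤ 0} :=
    isClosed_le (continuous_lor_left _) continuous_const
  have h2 : closure {z | z ∈ Hyp n ∧ ∀ a, lor z (W.ν a) < 0} ⊆ {x : Mink n | lor x (W.ν a) ≤ 0} := by
    apply closure_minimal _ h1
    rintro z ⟨-, hz⟩
    exact (hz a).le
  exact h2 hx

/-- local finiteness of the tiling across one wall. -/
lemma local_cover {y : Mink n} (hy : y ∈ Hyp n) (h : ∀ a, lor y (W.ν a) ≤ 0) :
    ∃ O : Set (Mink n), IsOpen O ∧ y ∈ O ∧ ∀ x ∈ O, x ∈ Hyp n →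
      ((∀ a, lor x (W.ν a) ≤ 0) ∨ ∃ c, ∀ a, lor (W.T c x) (W.ν a) ≤ 0) := by
  by_cases hz : ∃ a, lor y (W.ν a) = 0
  · obtain ⟨a, ha⟩ := hz
    have hneg : ∀ b, b ≠ a → lor y (W.ν b) < 0 := by
      intro b hb
      by_contra hcon
      push Not at hcon
      exact W.disj_closed hb hy hcon ha.ge
    have hy' : W.T (W.flip a) y ∈ Hyp n := W.hyp_of_mem (W.T_mem _) hy
    have h0 : lor (W.T (W.flip a) y) (W.ν (W.flip a)) = 0 := by
      rw [← (W.T_tri (W.flip a) hy).2.1, W.flip_flip]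
      exact ha
    have hneg' : ∀ b, b ≠ W.flip a → lor (W.T (W.flip a) y) (W.ν b) < 0 := by
      intro b hb
      by_contra hcon
      push Not at hcon
      exact W.disj_closed hb hy' hcon h0.ge
    refine ⟨{x | (∀ b, b ≠ a → lor x (W.ν b) < 0) ∧
      (∀ b, b ≠ W.flip a → lor (W.T (W.flip a) x) (W.ν b) < 0)}, ?_, ⟨hneg, hneg'⟩, ?_⟩
    · have e : {x | (∀ b, b ≠ a → lor x (W.ν b) < 0) ∧
          (∀ b, b ≠ W.flip a → lor (W.T (W.flip a) x) (W.ν b) < 0)} =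
          (⋂ b, ⋂ _ : b ≠ a, {x | lor x (W.ν b) < 0}) ∩
          (⋂ b, ⋂ _ : b ≠ W.flip a, {x | lor (W.T (W.flip a) x) (W.ν b) < 0}) := by
        ext x; simp
      rw [e]
      apply IsOpen.inter
      · apply isOpen_iInter_of_finite
        intro b
        apply isOpen_iInter_of_finite
        intro _
        exact isOpen_neg _
      · apply isOpen_iInter_of_finite
        intro b
        apply isOpen_iInter_of_finite
        intro _
        exact (isOpen_neg _).preimage (continuous_apply _)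
    · rintro x ⟨hx1, hx2⟩ hx
      rcases le_or_gt (lor x (W.ν a)) 0 with h1 | h1
      · left
        intro b
        by_cases hb : b = a
        · rw [hb]; exact h1
        · exact (hx1 b hb).le
      · right
        refine ⟨W.flip a, fun b => ?_⟩
        by_cases hb : b = W.flip a
        · rw [hb]
          apply le_of_lt
          rw [← (W.T_tri (W.flip a) hx).2.2, W.flip_flip]
          exact h1
        · exact (hx2 b hb).le
  · push Not at hz
    refine ⟨{x | ∀ b, lor x (W.ν b) < 0}, ?_, fun b => lt_of_le_of_ne (h b) (hz b), ?_⟩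
    · have e : {x | ∀ b, lor x (W.ν b) < 0} = ⋂ b, {x | lor x (W.ν b) < 0} := by
        ext x; simp
      rw [e]
      exact isOpen_iInter_of_finite fun b => isOpen_neg _
    · intro x hx1 _
      left
      exact fun b => (hx1 b).le

end WallData

/-- `ℍ^n` is connected. -/
lemma isPreconnected_Hyp : IsPreconnected (Hyp n) := by
  have e : Hyp n = range fun y : EuclideanSpace ℝ (Fin n) => (Real.sqrt (1 + ‖y‖ ^ 2), y) := by
    ext x
    constructor
    · intro hx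
      refine ⟨x.2, ?_⟩
      have h1 := Hyp.norm_sq hx
      ext1
      · show Real.sqrt (1 + ‖x.2‖ ^ 2) = x.1
        rw [h1]
        have : 1 + (x.1 ^ 2 - 1) = x.1 ^ 2 := by ring
        rw [this, Real.sqrt_sq hx.2.le]
      · rfl
    · rintro ⟨y, rfl⟩
      refine ⟨?_, Real.sqrt_pos.2 (by positivity)⟩
      rw [lor_self]
      show ‖y‖ ^ 2 - Real.sqrt (1 + ‖y‖ ^ 2) ^ 2 = -1
      rw [Real.sq_sqrt (by positivity)]
      ring
  rw [e]
  apply isPreconnected_range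
  fun_prop

namespace WallData

variable {G : Subgroup (Mink n ≃ₗ[ℝ] Mink n)} (W : WallData G)

/-- the group is generated by the side pairings. -/
theorem le_closure : G ≤ Subgroup.closure (Set.range W.g) := by
  set Γ := Subgroup.closure (Set.range W.g) with hΓ
  have hTΓ : ∀ c, W.T c ∈ Γ := by
    rintro ⟨i, b⟩
    have hi : W.g i ∈ Γ := Subgroup.subset_closure ⟨i, rfl⟩
    cases b
    · exact Γ.inv_mem hi
    · exact hi
  have hΓG : Γ ≤ G := by
    rw [hΓ, Subgroup.closure_le]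
    rintro _ ⟨i, rfl⟩
    exact W.hg i
  have hpre : PreconnectedSpace (Hyp n) := isPreconnected_iff_preconnectedSpace.1 isPreconnected_Hyp
  -- a general openness statement
  have hopen : ∀ S : Set (Mink n ≃ₗ[ℝ] Mink n), (∀ A ∈ S, A ∈ G) → (∀ A ∈ S, ∀ c, W.T c * A ∈ S) →
      IsOpen {x : Hyp n | ∃ A ∈ S, ∀ a, lor (A x.1) (W.ν a) ≤ 0} := by
    intro S hS1 hS2
    rw [isOpen_iff_mem_nhds]
    rintro x0 ⟨A, hA, hx0⟩
    obtain ⟨O, hO, hyO, hcov⟩ := W.local_cover (W.hyp_of_mem (hS1 A hA) x0.2) hx0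
    have hcont : Continuous fun x : Hyp n => A x.1 := (continuous_apply A).comp continuous_subtype_val
    refine mem_of_superset ((hO.preimage hcont).mem_nhds hyO) ?_
    intro x hx
    rcases hcov (A x.1) hx (W.hyp_of_mem (hS1 A hA) x.2) with h1 | ⟨c, h1⟩
    · exact ⟨A, hA, h1⟩
    · exact ⟨W.T c * A, hS2 A hA c, h1⟩
  set U : Set (Hyp n) := {x : Hyp n | ∃ A ∈ (Γ : Set (Mink n ≃ₗ[ℝ] Mink n)),
    ∀ a, lor (A x.1) (W.ν a) ≤ 0} with hU
  set V : Set (Hyp n) := {x : Hyp n | ∃ A ∈ {A : Mink n ≃ₗ[ℝ] Mink n | A ∈ G ∧ A ∉ Γ},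
    ∀ a, lor (A x.1) (W.ν a) ≤ 0} with hV
  have hUo : IsOpen U := hopen _ (fun A hA => hΓG hA) (fun A hA c => Γ.mul_mem (hTΓ c) hA)
  have hVo : IsOpen V := by
    apply hopen _ (fun A hA => hA.1)
    rintro A ⟨hA1, hA2⟩ c
    refine ⟨G.mul_mem (W.T_mem c) hA1, fun h => hA2 ?_⟩
    exact (Subgroup.mul_mem_cancel_left Γ (hTΓ c)).1 h
  have hcover : U ∪ V = univ := by
    rw [eq_univ_iff_forall]
    intro x
    obtain ⟨A, hA, hAx⟩ := W.fd2 x.1 x.2
    have h1 := W.le_of_mem_closure hAx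
    by_cases hAΓ : A ∈ Γ
    · left; exact ⟨A, hAΓ, h1⟩
    · right; exact ⟨A, ⟨hA, hAΓ⟩, h1⟩
  have hdisj : Disjoint U V := by
    rw [Set.disjoint_left]
    rintro x ⟨A, hA, hAx⟩ ⟨C, ⟨hC1, hC2⟩, hCx⟩
    -- the point `y = A x` lies in the closure of `D` and in `V`
    have hyH : A x.1 ∈ Hyp n := W.hyp_of_mem (hΓG hA) x.2
    have hycl := W.mem_closure_of_le hyH hAx
    have hyV : (⟨A x.1, hyH⟩ : Hyp n) ∈ V := by
      refine ⟨C * A⁻¹, ⟨G.mul_mem hC1 (G.inv_mem (hΓG hA)), fun h => hC2 ?_⟩, ?_⟩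
      · exact (Subgroup.mul_mem_cancel_right Γ (Γ.inv_mem hA)).1 h
      · intro a
        have e : (C * A⁻¹) (A x.1) = C x.1 := by
          show C (A.symm (A x.1)) = C x.1
          rw [LinearEquiv.symm_apply_apply]
        show lor ((C * A⁻¹) (A x.1)) (W.ν a) ≤ 0
        rw [e]
        exact hCx a
    obtain ⟨O, hO, hOV⟩ := isOpen_induced_iff.1 hVo
    have hyO : A x.1 ∈ O := by
      have : (⟨A x.1, hyH⟩ : Hyp n) ∈ Subtype.val ⁻¹' O := by rw [hOV]; exact hyV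
      exact this
    obtain ⟨y1, hy1O, hy1H, hy1D⟩ := mem_closure_iff.1 hycl O hO hyO
    have hy1V : (⟨y1, hy1H⟩ : Hyp n) ∈ V := by
      rw [← hOV]; exact hy1O
    obtain ⟨C1, ⟨hC1G, hC1Γ⟩, hC1y⟩ := hy1V
    have hC1y' : ∀ a, lor (C1 y1) (W.ν a) ≤ 0 := hC1y
    have hcl := W.mem_closure_of_le (W.hyp_of_mem hC1G hy1H) hC1y'
    -- perturb again
    have hOD : IsOpen {p : Mink n | ∀ a, lor (C1⁻¹ p) (W.ν a) < 0} := by
      have e : {p : Mink n | ∀ a, lor (C1⁻¹ p) (W.ν a) < 0} =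
          ⋂ a, (fun p => C1⁻¹ p) ⁻¹' {x | lor x (W.ν a) < 0} := by
        ext p; simp
      rw [e]
      exact isOpen_iInter_of_finite fun a => (isOpen_neg _).preimage (continuous_apply _)
    have hmem : C1 y1 ∈ {p : Mink n | ∀ a, lor (C1⁻¹ p) (W.ν a) < 0} := by
      intro a
      have e : C1⁻¹ (C1 y1) = y1 := C1.symm_apply_apply y1
      rw [e]
      exact hy1D a
    obtain ⟨p, hp1, hpH, hpD⟩ := mem_closure_iff.1 hcl _ hOD hmem
    refine W.fd1 C1⁻¹ (G.inv_mem hC1G) ?_ p hpH hpD hp1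
    intro h
    apply hC1Γ
    rw [inv_eq_one.1 h]
    exact Γ.one_mem
  -- connectedness
  have hUc : IsClopen U := by
    refine ⟨?_, hUo⟩
    have : U = Vᶜ := by
      apply Subset.antisymm
      · exact Disjoint.subset_compl_right hdisj
      · intro x hx
        have : x ∈ U ∪ V := by rw [hcover]; exact mem_univ _
        rcases this with h | h
        · exact h
        · exact absurd h hx
    rw [this]
    exact hVo.isClosed_compl
  obtain ⟨z, hz, hzD⟩ := W.exists_D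
  have hUne : U.Nonempty := ⟨⟨z, hz⟩, 1, Γ.one_mem, fun a => (hzD a).le⟩
  have hUuniv := hUc.eq_univ hUne
  intro A hA
  by_contra hAΓ
  have hzV : (⟨A⁻¹ z, W.hyp_of_mem (G.inv_mem hA) hz⟩ : Hyp n) ∈ V := by
    refine ⟨A, ⟨hA, hAΓ⟩, fun a => ?_⟩
    have e : A (A⁻¹ z) = z := A.apply_symm_apply z
    show lor (A (A⁻¹ z)) (W.ν a) ≤ 0
    rw [e]
    exact (hzD a).le
  have hzU : (⟨A⁻¹ z, W.hyp_of_mem (G.inv_mem hA) hz⟩ : Hyp n) ∈ U := by
    rw [hUuniv]; exact mem_univ _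
  exact Set.disjoint_left.1 hdisj hzU hzV

end WallData

end Pool.Agent.Work.MP_d62ce9_gt
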