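import Pool.Agent.Work.MP_d62ce9_gt.Walls

/-!
# Words in the side pairings, non-crossing walls and nested half-spaces
-/

set_option autoImplicit false
set_option linter.unusedSectionVars false

open Filter Topology Set

namespace Pool.Agent.Work.MP_d62ce9_gt

variable {n : ℕ}

/-- The hyperplanes of `ν` and `μ` cross: all four quadrants are non-empty. -/
def Crossing (ν μ : Mink n) : Prop :=
  (∃ x ∈ Hyp n, 0 < lor x ν ∧ 0 < lor x μ) ∧ (∃ x ∈ Hyp n, 0 < lor x ν ∧ lor x μ < 0) ∧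
  (∃ x ∈ Hyp n, lor x ν < 0 ∧ 0 < lor x μ) ∧ (∃ x ∈ Hyp n, lor x ν < 0 ∧ lor x μ < 0)

lemma Crossing.map {A : Mink n ≃ₗ[ℝ] Mink n} (hA : A ∈ IsomH n) {ν μ : Mink n}
    (h : Crossing ν μ) : Crossing (A ν) (A μ) := by
  obtain ⟨⟨x1, hx1, h1⟩, ⟨x2, hx2, h2⟩, ⟨x3, hx3, h3⟩, ⟨x4, hx4, h4⟩⟩ := h
  refine ⟨⟨A x1, IsomH.hyp hA hx1, ?_⟩, ⟨A x2, IsomH.hyp hA hx2, ?_⟩,
    ⟨A x3, IsomH.hyp hA hx3, ?_⟩, ⟨A x4, IsomH.hyp hA hx4, ?_⟩⟩ <;>
  · rw [IsomH.lor hA, IsomH.lor hA]; assumption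

namespace WallData

variable {G : Subgroup (Mink n ≃ₗ[ℝ] Mink n)} (W : WallData G)

/-- the isometry of a word -/
def Tw (L : List (Fin W.k × Bool)) : Mink n ≃ₗ[ℝ] Mink n := (L.map W.T).prod

lemma Tw_nil : W.Tw [] = 1 := rfl

lemma Tw_cons (a : Fin W.k × Bool) (L : List (Fin W.k × Bool)) :
    W.Tw (a :: L) = W.T a * W.Tw L := rfl

lemma Tw_append (L L' : List (Fin W.k × Bool)) : W.Tw (L ++ L') = W.Tw L * W.Tw L' := by
  unfold Tw; rw [List.map_append, List.prod_append]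

lemma Tw_mem (L : List (Fin W.k × Bool)) : W.Tw L ∈ G := by
  induction L with
  | nil => exact G.one_mem
  | cons a L ih => exact G.mul_mem (W.T_mem a) ih

lemma Tw_eq_lift (L : List (Fin W.k × Bool)) : W.Tw L = FreeGroup.lift W.g (FreeGroup.mk L) := by
  rw [FreeGroup.lift_mk]; rfl

lemma flip_ne_of_reduced {a b : Fin W.k × Bool} (h : a.1 = b.1 → a.2 = b.2) : W.flip a ≠ b := by
  intro hf
  have h1 : a.1 = b.1 := by rw [← hf]; rfl
  have h2 : (!a.2) = b.2 := by rw [← hf]; rfl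
  rw [← h h1] at h2
  simp at h2

/-- The ping-pong lemma for reduced words. -/
lemma word_pos (L : List (Fin W.k × Bool)) : ∀ (a b : Fin W.k × Bool),
    FreeGroup.IsReduced (a :: L ++ [b]) → ∀ x ∈ Hyp n, 0 < lor x (W.ν b) →
      0 < lor (W.Tw (a :: L) x) (W.ν a) := by
  induction L with
  | nil =>
    intro a b hred x hx hpos
    rw [List.cons_append, List.nil_append, FreeGroup.isReduced_cons_cons] at hred
    have hne := W.flip_ne_of_reduced hred.1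
    have e : W.Tw [a] x = W.T a x := by
      rw [Tw_cons, Tw_nil, mul_one]
    rw [e, ← (W.T_tri a hx).1]
    by_contra hcon
    push Not at hcon
    exact W.disj_closed hne hx hcon hpos.le
  | cons c L ih =>
    intro a b hred x hx hpos
    rw [List.cons_append, List.cons_append, FreeGroup.isReduced_cons_cons] at hred
    have h1 := ih c b hred.2 x hx hpos
    have hne := W.flip_ne_of_reduced hred.1
    have hy : W.Tw (c :: L) x ∈ Hyp n := W.hyp_of_mem (W.Tw_mem _) hx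
    rw [Tw_cons]
    show 0 < lor (W.T a (W.Tw (c :: L) x)) (W.ν a)
    rw [← (W.T_tri a hy).1]
    by_contra hcon
    push Not at hcon
    exact W.disj_closed hne hy hcon h1.le

lemma lor_inv {A : Mink n ≃ₗ[ℝ] Mink n} (hA : A ∈ IsomH n) (x ν : Mink n) :
    lor x (A ν) = lor (A⁻¹ x) ν := by
  have e : A (A⁻¹ x) = x := A.apply_symm_apply x
  have h := IsomH.lor hA (A⁻¹ x) ν
  rw [e] at h
  exact h

/-- walls do not cross, when the word is reduced -/
lemma not_crossing_reduced (L : List (Fin W.k × Bool)) (a b : Fin W.k × Bool)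
    (hred : FreeGroup.IsReduced (L ++ [b])) : ¬ Crossing (W.ν a) (W.Tw L (W.ν b)) := by
  rintro ⟨⟨x1, hx1, h1, h1'⟩, ⟨x2, hx2, h2, h2'⟩, ⟨x3, hx3, h3, h3'⟩, -⟩
  have hI : W.Tw L ∈ IsomH n := W.hG (W.Tw_mem L)
  match L, hred, hI, h1', h2', h3' with
  | [], _, _, h1', h2', h3' =>
    have e : W.Tw [] (W.ν b) = W.ν b := rfl
    rw [e] at h1' h2' h3'
    by_cases hab : a = b
    · subst hab; linarith
    · exact W.disj a b hab x1 hx1 ⟨h1, h1'⟩
  | c :: L, hred, hI, h1', h2', h3' =>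
    rw [lor_inv hI] at h1' h2' h3'
    have e : ∀ x, W.Tw (c :: L) ((W.Tw (c :: L))⁻¹ x) = x := fun x =>
      (W.Tw (c :: L)).apply_symm_apply x
    have hy : ∀ x ∈ Hyp n, (W.Tw (c :: L))⁻¹ x ∈ Hyp n := fun x hx =>
      W.hyp_of_mem (G.inv_mem (W.Tw_mem _)) hx
    by_cases hac : a = c
    · subst hac
      have h4 := W.word_pos L a b hred _ (hy x3 hx3) h3'
      rw [e] at h4
      linarith
    · have h4 := W.word_pos L c b hred _ (hy x1 hx1) h1'
      rw [e] at h4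
      exact W.disj a c hac x1 hx1 ⟨h1, h4⟩

lemma isReduced_append_singleton {L : List (Fin W.k × Bool)} {b : Fin W.k × Bool}
    (hL : FreeGroup.IsReduced L) (h : ∀ a ∈ L.getLast?, a.1 = b.1 → a.2 = b.2) :
    FreeGroup.IsReduced (L ++ [b]) := by
  unfold FreeGroup.IsReduced
  rw [List.isChain_append]
  refine ⟨hL, List.isChain_singleton b, ?_⟩
  intro x hx y hy
  simp only [List.head?_cons, Option.mem_def, Option.some.injEq] at hy
  rw [← hy]
  exact h x hx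

/-- walls do not cross -/
lemma not_crossing_word (L : List (Fin W.k × Bool)) (a b : Fin W.k × Bool)
    (hL : FreeGroup.IsReduced L) : ¬ Crossing (W.ν a) (W.Tw L (W.ν b)) := by
  by_cases h : ∀ c ∈ L.getLast?, c.1 = b.1 → c.2 = b.2
  · exact W.not_crossing_reduced L a b (W.isReduced_append_singleton hL h)
  · push Not at h
    obtain ⟨c, hc, hc1, hc2⟩ := h
    have hcb : b = W.flip c := by
      ext1
      · exact hc1.symm
      · show b.2 = !c.2
        cases hb : b.2 <;> cases hc' : c.2 <;> simp_all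
    obtain ⟨L', rfl⟩ : ∃ L', L = L' ++ [c] := by
      rw [Option.mem_def, List.getLast?_eq_some_iff] at hc
      exact hc
    intro hcr
    apply W.not_crossing_reduced L' a c hL
    -- sign change
    have hI : W.Tw (L' ++ [c]) ∈ IsomH n := W.hG (W.Tw_mem _)
    have hI' : W.Tw L' ∈ IsomH n := W.hG (W.Tw_mem _)
    have key : ∀ x ∈ Hyp n, (0 < lor x (W.Tw (L' ++ [c]) (W.ν b)) → lor x (W.Tw L' (W.ν c)) < 0) ∧
        (lor x (W.Tw (L' ++ [c]) (W.ν b)) < 0 → 0 < lor x (W.Tw L' (W.ν c))) := by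
      intro x hx
      rw [lor_inv hI, lor_inv hI']
      set y := (W.Tw (L' ++ [c]))⁻¹ x with hy
      have hyH : y ∈ Hyp n := W.hyp_of_mem (G.inv_mem (W.Tw_mem _)) hx
      have hyx : (W.Tw L')⁻¹ x = W.T c y := by
        have e1 : x = W.Tw (L' ++ [c]) y := ((W.Tw (L' ++ [c])).apply_symm_apply x).symm
        have e2 : W.Tw (L' ++ [c]) y = W.Tw L' (W.T c y) := by
          rw [Tw_append]
          show W.Tw L' (W.Tw [c] y) = _
          rw [Tw_cons, Tw_nil, mul_one]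
        rw [e1, e2]
        exact (W.Tw L').symm_apply_apply _
      rw [hyx]
      have ht := W.T_tri c hyH
      rw [← hcb] at ht
      exact ⟨fun h => ht.2.2.1 h, fun h => ht.1.1 h⟩
    obtain ⟨⟨x1, hx1, h1, h1'⟩, ⟨x2, hx2, h2, h2'⟩, ⟨x3, hx3, h3, h3'⟩, ⟨x4, hx4, h4, h4'⟩⟩ := hcr
    exact ⟨⟨x2, hx2, h2, (key x2 hx2).2 h2'⟩, ⟨x1, hx1, h1, (key x1 hx1).1 h1'⟩,
      ⟨x4, hx4, h4, (key x4 hx4).2 h4'⟩, ⟨x3, hx3, h3, (key x3 hx3).1 h3'⟩⟩

lemma exists_word {A : Mink n ≃ₗ[ℝ] Mink n} (hA : A ∈ G) :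
    ∃ w : FreeGroup (Fin W.k), FreeGroup.lift W.g w = A := by
  have h := W.le_closure hA
  rw [← FreeGroup.range_lift_eq_closure] at h
  exact h

lemma not_crossing {A : Mink n ≃ₗ[ℝ] Mink n} (hA : A ∈ G) (a b : Fin W.k × Bool) :
    ¬ Crossing (W.ν a) (A (W.ν b)) := by
  obtain ⟨w, rfl⟩ := W.exists_word hA
  have e : FreeGroup.lift W.g w = W.Tw w.toWord := by
    rw [Tw_eq_lift, FreeGroup.mk_toWord]
  rw [e]
  exact W.not_crossing_word _ a b FreeGroup.isReduced_toWord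

/-- nested half-spaces for nontrivial elements -/
lemma exists_nested {A : Mink n ≃ₗ[ℝ] Mink n} (hA : A ∈ G) (hA1 : A ≠ 1) :
    ∃ C ∈ G, ∃ a, ∀ x ∈ Hyp n, 0 < lor x (C (W.ν a)) → 0 < lor (A x) (C (W.ν a)) := by
  classical
  obtain ⟨w, rfl⟩ := W.exists_word hA
  set L := FreeGroup.reduceCyclically w.toWord with hL
  set P := FreeGroup.reduceCyclically.conjugator w.toWord with hP
  have hw : w = FreeGroup.mk P * FreeGroup.mk L * (FreeGroup.mk P)⁻¹ := by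
    rw [FreeGroup.inv_mk, FreeGroup.mul_mk, FreeGroup.mul_mk,
      FreeGroup.reduceCyclically.conj_conjugator_reduceCyclically, FreeGroup.mk_toWord]
  have hLc : FreeGroup.IsCyclicallyReduced L :=
    FreeGroup.reduceCyclically.isCyclicallyReduced FreeGroup.isReduced_toWord
  have hAe : FreeGroup.lift W.g w = W.Tw P * W.Tw L * (W.Tw P)⁻¹ := by
    conv_lhs => rw [hw]
    rw [map_mul, map_mul, map_inv, ← Tw_eq_lift, ← Tw_eq_lift]
  match hLL : L, hLc, hAe with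
  | [], _, hAe =>
    exfalso
    apply hA1
    rw [hAe, Tw_nil, mul_one, mul_inv_cancel]
  | a :: L', hLc, hAe =>
    refine ⟨W.Tw P, W.Tw_mem P, a, ?_⟩
    intro x hx hpos
    have hI : W.Tw P ∈ IsomH n := W.hG (W.Tw_mem P)
    rw [lor_inv hI] at hpos ⊢
    rw [hAe]
    have e : (W.Tw P)⁻¹ ((W.Tw P * W.Tw (a :: L') * (W.Tw P)⁻¹) x) =
        W.Tw (a :: L') ((W.Tw P)⁻¹ x) := (W.Tw P).symm_apply_apply _
    rw [e]
    apply W.word_pos L' a a _ _ (W.hyp_of_mem (G.inv_mem (W.Tw_mem P)) hx) hpos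
    apply W.isReduced_append_singleton hLc.1
    intro c hc
    exact hLc.2 c hc a (by simp)

end WallData

/-- Summary of the properties of walls. -/
theorem IsClassicalSchottkyType.walls (hn : 2 ≤ n) {G : Subgroup (Mink n ≃ₗ[ℝ] Mink n)}
    (hG : G ≤ IsomH n) (h : IsClassicalSchottkyType G) :
    ∃ F : Set (Mink n), (∀ ν ∈ F, 0 < lor ν ν) ∧ (∀ A ∈ G, ∀ ν ∈ F, A ν ∈ F) ∧
      (∀ ν ∈ F, ∀ μ ∈ F, ¬ Crossing ν μ) ∧
      (∀ A ∈ G, A ≠ 1 → ∃ ν ∈ F, ∀ x ∈ Hyp n, 0 < lor x ν → 0 < lor (A x) ν) := by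
  obtain ⟨W⟩ := h.wallData hn hG
  refine ⟨{ν | ∃ C ∈ G, ∃ a, ν = C (W.ν a)}, ?_, ?_, ?_, ?_⟩
  · rintro _ ⟨C, hC, a, rfl⟩
    rw [IsomH.lor (hG hC)]
    exact W.hν a
  · rintro A hA _ ⟨C, hC, a, rfl⟩
    exact ⟨A * C, G.mul_mem hA hC, a, rfl⟩
  · rintro _ ⟨C, hC, a, rfl⟩ _ ⟨D, hD, b, rfl⟩ hcr
    apply W.not_crossing (G.mul_mem (G.inv_mem hC) hD) a b
    have h1 := hcr.map (hG (G.inv_mem hC))
    have e1 : C⁻¹ (C (W.ν a)) = W.ν a := C.symm_apply_apply _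
    rw [e1] at h1
    exact h1
  · intro A hA hA1
    obtain ⟨C, hC, a, h⟩ := W.exists_nested hA hA1
    exact ⟨C (W.ν a), ⟨C, hC, a, rfl⟩, h⟩

end Pool.Agent.Work.MP_d62ce9_gt
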